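import Pool.Agent.R41.Cyc

/-!
MP_feab4e: a connected claw-free graph on 36 vertices whose longest paths have no common vertex.
The graph is obtained from the 12-vertex graph of Walther and Zamfirescu (the Petersen graph with
one vertex split into three leaves) by replacing every vertex by a triangle.
-/

set_option autoImplicit false

namespace Pool.Agent.R41.CF

open SimpleGraph Finset

/-- one end of the `k`-th connecting edge -/
def ca : Fin 15 → Fin 36 := ![24, 6, 15, 0, 1, 2, 4, 5, 8, 10, 11, 14, 17, 20, 23]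

/-- the other end of the `k`-th connecting edge -/
def cb : Fin 15 → Fin 36 := ![27, 30, 33, 3, 12, 25, 7, 18, 9, 13, 21, 16, 19, 22, 26]

/-- The graph: the triangles `{3c, 3c+1, 3c+2}` for `c < 12` and the 15 connecting edges. -/
def G36 : SimpleGraph (Fin 36) where
  Adj x y := x ≠ y ∧ (x.val / 3 = y.val / 3 ∨ ∃ k, (ca k = x ∧ cb k = y) ∨ (ca k = y ∧ cb k = x))
  symm := ⟨fun x y h => ⟨h.1.symm, h.2.imp Eq.symm (fun ⟨k, hk⟩ => ⟨k, hk.symm⟩)⟩⟩
  loopless := ⟨fun x h => h.1 rfl⟩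

instance : DecidableRel G36.Adj := fun x y =>
  inferInstanceAs (Decidable (x ≠ y ∧ (x.val / 3 = y.val / 3 ∨
    ∃ k, (ca k = x ∧ cb k = y) ∨ (ca k = y ∧ cb k = x))))

lemma ext_unique : ∀ k l : Fin 15, k ≠ l → ca k ≠ ca l ∧ ca k ≠ cb l ∧ cb k ≠ cb l := by
  decide

lemma G36_adj (x y : Fin 36) : G36.Adj x y ↔ (x ≠ y ∧ (x.val / 3 = y.val / 3 ∨
    ∃ k, (ca k = x ∧ cb k = y) ∨ (ca k = y ∧ cb k = x))) := Iff.rfl

/-- a vertex has at most one neighbour outside its triangle -/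
lemma outside_unique {x y z : Fin 36} (hy : G36.Adj x y) (hz : G36.Adj x z)
    (hy' : x.val / 3 ≠ y.val / 3) (hz' : x.val / 3 ≠ z.val / 3) : y = z := by
  obtain ⟨-, h1 | ⟨k, h1⟩⟩ := hy
  · exact absurd h1 hy'
  obtain ⟨-, h2 | ⟨l, h2⟩⟩ := hz
  · exact absurd h2 hz'
  by_cases hkl : k = l
  · subst hkl
    rcases h1 with ⟨h3, h4⟩ | ⟨h3, h4⟩ <;> rcases h2 with ⟨h5, h6⟩ | ⟨h5, h6⟩
    · rw [← h4, ← h6]
    · rw [← h4, h6, ← h3, h5]
    · rw [← h3, h5, ← h4, h6]
    · rw [← h3, ← h5]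
  · obtain ⟨e1, e2, e3⟩ := ext_unique k l hkl
    obtain ⟨-, e4, -⟩ := ext_unique l k (Ne.symm hkl)
    rcases h1 with ⟨h3, h4⟩ | ⟨h3, h4⟩ <;> rcases h2 with ⟨h5, h6⟩ | ⟨h5, h6⟩
    · exact absurd (h3.trans h5.symm) e1
    · exact absurd (h3.trans h6.symm) e2
    · exact absurd (h5.trans h4.symm) e4
    · exact absurd (h4.trans h6.symm) e3

/-- crossing edges -/
def cr (T : ℕ → Bool) (e : Sym2 (Fin 36)) : Bool :=
  Sym2.lift ⟨fun x y => (T (x.val / 3) != T (y.val / 3)), fun x y => by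
    show (T (x.val / 3) != T (y.val / 3)) = (T (y.val / 3) != T (x.val / 3))
    cases T (x.val / 3) <;> cases T (y.val / 3) <;> rfl⟩ e

lemma cr_mk (T : ℕ → Bool) (x y : Fin 36) : cr T s(x, y) = (T (x.val / 3) != T (y.val / 3)) := rfl

lemma parity (T : ℕ → Bool) {u v : Fin 36} (p : G36.Walk u v) :
    Even (p.edges.countP (cr T)) ↔ T (u.val / 3) = T (v.val / 3) := by
  induction p with
  | nil => simp
  | @cons u w v h q ih =>
    rw [Walk.edges_cons, List.countP_cons, cr_mk, Nat.even_add, ih]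
    cases T (u.val / 3) <;> cases T (w.val / 3) <;> cases T (v.val / 3) <;> simp

lemma no_cross (T : ℕ → Bool) {u v : Fin 36} (p : G36.Walk u v)
    (h : ∀ e ∈ p.edges, cr T e = false) : ∀ x ∈ p.support, T (x.val / 3) = T (u.val / 3) := by
  induction p with
  | nil => intro x hx; simp at hx; rw [hx]
  | @cons u w v hadj q ih =>
    intro x hx
    rw [Walk.support_cons, List.mem_cons] at hx
    rcases hx with rfl | hx
    · rfl
    · rw [ih (fun e he => h e (by rw [Walk.edges_cons]; exact List.mem_cons_of_mem _ he)) x hx]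
      have := h s(u, w) (by rw [Walk.edges_cons]; exact List.mem_cons_self)
      rw [cr_mk] at this
      revert this
      cases T (u.val / 3) <;> cases T (w.val / 3) <;> simp

/-- crossing edges of a walk are connecting edges -/
lemma cross_conn (T : ℕ → Bool) {u v : Fin 36} (p : G36.Walk u v) (e : Sym2 (Fin 36))
    (he : e ∈ p.edges) (hc : cr T e = true) : ∃ k, e = s(ca k, cb k) := by
  have h1 := p.edges_subset_edgeSet he
  induction e using Sym2.ind with
  | _ x y =>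
  rw [SimpleGraph.mem_edgeSet] at h1
  rw [cr_mk] at hc
  obtain ⟨-, h2 | ⟨k, h2⟩⟩ := h1
  · rw [h2] at hc
    simp at hc
  · refine ⟨k, ?_⟩
    rcases h2 with ⟨h3, h4⟩ | ⟨h3, h4⟩
    · rw [h3, h4]
    · rw [h3, h4, Sym2.eq_swap]

lemma conn_inj : Function.Injective (fun k : Fin 15 => s(ca k, cb k)) := by
  intro k l hkl
  by_contra hne
  obtain ⟨e1, e2, e3⟩ := ext_unique k l hne
  rw [Sym2.eq_iff] at hkl
  rcases hkl with ⟨h, -⟩ | ⟨h, -⟩
  · exact e1 h
  · exact e2 h

/-- ends of the connecting edges on the level of triangles -/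
def ha : Fin 15 → ℕ := ![8, 2, 5, 0, 0, 0, 1, 1, 2, 3, 3, 4, 5, 6, 7]
def hb : Fin 15 → ℕ := ![9, 10, 11, 1, 4, 8, 2, 6, 3, 4, 7, 5, 6, 7, 8]

lemma ha_eq : ∀ k, (ca k).val / 3 = ha k := by decide
lemma hb_eq : ∀ k, (cb k).val / 3 = hb k := by decide

/-- number of crossing connecting edges -/
def N (f : Fin 15 → Bool) (T : ℕ → Bool) : ℕ :=
  ∑ k : Fin 15, (f k && (T (ha k) != T (hb k))).toNat

open Classical in
lemma count_eq (T : ℕ → Bool) {u v : Fin 36} (p : G36.Walk u v) (hp : p.IsPath) :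
    p.edges.countP (cr T) = N (fun k => decide (s(ca k, cb k) ∈ p.edges)) T := by
  have hnd : p.edges.Nodup := hp.isTrail.edges_nodup
  have h1 : p.edges.countP (cr T) = #(p.edges.toFinset.filter (fun e => cr T e = true)) := by
    rw [List.countP_eq_length_filter, ← List.toFinset_card_of_nodup (hnd.filter _)]
    congr 1
    ext e
    simp
  have h2 : p.edges.toFinset.filter (fun e => cr T e = true) =
      (Finset.univ.filter (fun k : Fin 15 => s(ca k, cb k) ∈ p.edges ∧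
        cr T s(ca k, cb k) = true)).image (fun k => s(ca k, cb k)) := by
    ext e
    simp only [Finset.mem_filter, List.mem_toFinset, Finset.mem_image, Finset.mem_univ, true_and]
    constructor
    · rintro ⟨h3, h4⟩
      obtain ⟨k, rfl⟩ := cross_conn T p e h3 h4
      exact ⟨k, ⟨h3, h4⟩, rfl⟩
    · rintro ⟨k, h3, rfl⟩
      exact h3
  rw [h1, h2, Finset.card_image_of_injective _ conn_inj, Finset.card_filter]
  unfold N
  refine Finset.sum_congr rfl fun k _ => ?_
  rw [cr_mk, ha_eq, hb_eq]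
  by_cases h3 : s(ca k, cb k) ∈ p.edges <;> by_cases h4 : (T (ha k) != T (hb k)) = true <;>
    simp [h3, h4]

/-- the finite check: every 2-factor of the Petersen graph has a 5-cycle avoiding a given vertex -/
lemma fin_check : ∀ f0 f1 f2 : Bool, f0.toNat + f1.toNat + f2.toNat = 2 →
    ∀ f3 f4 f5 : Bool, f3.toNat + f4.toNat + f5.toNat = 2 →
    ∀ f6 f7 : Bool, f3.toNat + f6.toNat + f7.toNat = 2 →
    ∀ f8 : Bool, f1.toNat + f6.toNat + f8.toNat = 2 →
    ∀ f9 f10 : Bool, f8.toNat + f9.toNat + f10.toNat = 2 →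
    ∀ f11 : Bool, f4.toNat + f9.toNat + f11.toNat = 2 →
    ∀ f12 : Bool, f2.toNat + f11.toNat + f12.toNat = 2 →
    ∀ f13 : Bool, f7.toNat + f12.toNat + f13.toNat = 2 →
    ∀ f14 : Bool, f10.toNat + f13.toNat + f14.toNat = 2 →
    f0.toNat + f5.toNat + f14.toNat = 2 →
    (f0 = false ∧ f3 = false ∧ f8 = false ∧ f11 = false ∧ f13 = false) ∨
    (f0 = false ∧ f4 = false ∧ f6 = false ∧ f10 = false ∧ f12 = false) ∨
    (f1 = false ∧ f3 = false ∧ f9 = false ∧ f12 = false ∧ f14 = false) ∨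
    (f1 = false ∧ f5 = false ∧ f7 = false ∧ f10 = false ∧ f11 = false) ∨
    (f2 = false ∧ f4 = false ∧ f7 = false ∧ f8 = false ∧ f14 = false) ∨
    (f2 = false ∧ f5 = false ∧ f6 = false ∧ f9 = false ∧ f13 = false) := by
  intro f0 f1 f2 h0 f3 f4 f5 h1 f6 f7 h2 f8 h3 f9 f10 h4 f11 h5 f12 h6 f13 h7 f14 h8 h9
  cases f0 <;> cases f1 <;> cases f2 <;> try (exact absurd h0 (by decide))
  all_goals (cases f3 <;> cases f4 <;> cases f5 <;> try (exact absurd h1 (by decide)))
  all_goals (cases f6 <;> cases f7 <;> try (exact absurd h2 (by decide)))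
  all_goals (cases f8 <;> try (exact absurd h3 (by decide)))
  all_goals (cases f9 <;> cases f10 <;> try (exact absurd h4 (by decide)))
  all_goals (cases f11 <;> try (exact absurd h5 (by decide)))
  all_goals (cases f12 <;> try (exact absurd h6 (by decide)))
  all_goals (cases f13 <;> try (exact absurd h7 (by decide)))
  all_goals (cases f14 <;> try (exact absurd h8 (by decide)))
  all_goals first | (exact absurd h9 (by decide)) | decide

lemma N0 (f : Fin 15 → Bool) :
    N f (fun x => x == 0) = (f 3).toNat + (f 4).toNat + (f 5).toNat := by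
  simp [N, Fin.sum_univ_succ, ha, hb]
  try ring

lemma N1 (f : Fin 15 → Bool) :
    N f (fun x => x == 1) = (f 3).toNat + (f 6).toNat + (f 7).toNat := by
  simp [N, Fin.sum_univ_succ, ha, hb]
  try ring

lemma N2 (f : Fin 15 → Bool) :
    N f (fun x => x == 2) = (f 1).toNat + (f 6).toNat + (f 8).toNat := by
  simp [N, Fin.sum_univ_succ, ha, hb]
  try ring

lemma N3 (f : Fin 15 → Bool) :
    N f (fun x => x == 3) = (f 8).toNat + (f 9).toNat + (f 10).toNat := by
  simp [N, Fin.sum_univ_succ, ha, hb]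
  try ring

lemma N4 (f : Fin 15 → Bool) :
    N f (fun x => x == 4) = (f 4).toNat + (f 9).toNat + (f 11).toNat := by
  simp [N, Fin.sum_univ_succ, ha, hb]
  try ring

lemma N5 (f : Fin 15 → Bool) :
    N f (fun x => x == 5) = (f 2).toNat + (f 11).toNat + (f 12).toNat := by
  simp [N, Fin.sum_univ_succ, ha, hb]
  try ring

lemma N6 (f : Fin 15 → Bool) :
    N f (fun x => x == 6) = (f 7).toNat + (f 12).toNat + (f 13).toNat := by
  simp [N, Fin.sum_univ_succ, ha, hb]
  try ring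

lemma N7 (f : Fin 15 → Bool) :
    N f (fun x => x == 7) = (f 10).toNat + (f 13).toNat + (f 14).toNat := by
  simp [N, Fin.sum_univ_succ, ha, hb]
  try ring

lemma N8 (f : Fin 15 → Bool) :
    N f (fun x => x == 8) = (f 0).toNat + (f 5).toNat + (f 14).toNat := by
  simp [N, Fin.sum_univ_succ, ha, hb]
  try ring

lemma N9 (f : Fin 15 → Bool) : N f (fun x => x == 9) = (f 0).toNat := by
  simp [N, Fin.sum_univ_succ, ha, hb]

lemma N10 (f : Fin 15 → Bool) : N f (fun x => x == 10) = (f 1).toNat := by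
  simp [N, Fin.sum_univ_succ, ha, hb]

lemma N11 (f : Fin 15 → Bool) : N f (fun x => x == 11) = (f 2).toNat := by
  simp [N, Fin.sum_univ_succ, ha, hb]


lemma toNat_le (b : Bool) : b.toNat ≤ 1 := Bool.toNat_le b

lemma N_ne_zero {f : Fin 15 → Bool} {T : ℕ → Bool} {k : Fin 15} (h1 : f k = true)
    (h2 : T (ha k) ≠ T (hb k)) : N f T ≠ 0 := by
  intro h
  unfold N at h
  rw [Finset.sum_eq_zero_iff] at h
  have h3 := h k (Finset.mem_univ _)
  rw [h1] at h3
  cases h4 : T (ha k) <;> cases h5 : T (hb k) <;> simp_all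

/-- a path misses at least two of the twelve triangles -/
lemma misses {u v : Fin 36} (p : G36.Walk u v) (hp : p.IsPath) :
    ∃ c c' : Fin 12, c ≠ c' ∧ ∀ x ∈ p.support, x.val / 3 ≠ c.val ∧ x.val / 3 ≠ c'.val := by
  classical
  by_contra hcon
  push Not at hcon
  let vis : ℕ → Prop := fun c => ∃ x ∈ p.support, x.val / 3 = c
  have hvis : ∀ c c' : ℕ, c < 12 → c' < 12 → c ≠ c' → ¬ vis c → vis c' := by
    intro c c' h1 h2 h3 h4
    obtain ⟨x, hx, hx2⟩ := hcon ⟨c, h1⟩ ⟨c', h2⟩ (by simpa [Fin.ext_iff] using h3)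
    by_cases h5 : x.val / 3 = c
    · exact absurd ⟨x, hx, h5⟩ h4
    · exact ⟨x, hx, hx2 h5⟩
  obtain ⟨f, hf⟩ : ∃ f : Fin 15 → Bool, ∀ k, f k = decide (s(ca k, cb k) ∈ p.edges) :=
    ⟨_, fun _ => rfl⟩
  have hff : f = fun k => decide (s(ca k, cb k) ∈ p.edges) := funext hf
  have hP : ∀ T, Even (N f T) ↔ T (u.val / 3) = T (v.val / 3) := by
    intro T
    rw [hff]
    have h1 := count_eq T p hp
    have h2 := parity T p
    rw [h1] at h2
    convert h2
  have hQ : ∀ (T : ℕ → Bool) (c c' : ℕ), vis c → vis c' → T c ≠ T c' →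
      ∃ k, f k = true ∧ T (ha k) ≠ T (hb k) := by
    rintro T c c' ⟨x, hx, rfl⟩ ⟨y, hy, rfl⟩ hne
    by_contra hno
    push Not at hno
    have hall : ∀ e ∈ p.edges, cr T e = false := by
      intro e he
      by_contra hc
      rw [Bool.not_eq_false] at hc
      obtain ⟨k, rfl⟩ := cross_conn T p e he hc
      have h3 := hno k (by rw [hf]; simpa using he)
      rw [cr_mk, ha_eq, hb_eq, h3] at hc
      simp at hc
    exact hne ((no_cross T p hall x hx).trans (no_cross T p hall y hy).symm)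
  have hR : ∀ k, f k = true → vis (ha k) ∧ vis (hb k) := by
    intro k hk
    rw [hf] at hk
    have hk' : s(ca k, cb k) ∈ p.edges := by simpa using hk
    exact ⟨⟨ca k, p.fst_mem_support_of_mem_edges hk', ha_eq k⟩,
      ⟨cb k, p.snd_mem_support_of_mem_edges hk', hb_eq k⟩⟩
  have hU := u.isLt
  have hW := v.isLt
  -- visited leaves contain exactly one end
  have hleaf : ∀ (c c' : ℕ) (i : Fin 15), N f (fun x => x == c) = (f i).toNat →
      (∀ k, f k = true → (fun x => x == c) (ha k) ≠ (fun x => x == c) (hb k) → f i = true) →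
      vis c → vis c' → c ≠ c' → (u.val / 3 = c ∧ v.val / 3 ≠ c) ∨ (u.val / 3 ≠ c ∧ v.val / 3 = c) := by
    intro c c' i hN hk hc hc' hne
    obtain ⟨k, h1, h2⟩ := hQ (fun x => x == c) c c' hc hc' (by simp [hne.symm])
    have h3 := hk k h1 h2
    have h4 := hP (fun x => x == c)
    rw [hN, h3] at h4
    simp only [Bool.toNat_true, Nat.not_even_one, false_iff] at h4
    by_cases h5 : u.val / 3 = c <;> by_cases h6 : v.val / 3 = c <;> simp_all
  have only : ∀ (c : ℕ) (i : Fin 15), N f (fun x => x == c) = (f i).toNat →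
      (∀ k, f k = true → (fun x => x == c) (ha k) ≠ (fun x => x == c) (hb k) → f i = true) := by
    intro c i hN k h1 h2
    have := N_ne_zero (T := fun x => x == c) h1 h2
    rw [hN] at this
    cases h : f i
    · rw [h] at this; simp at this
    · rfl
  have L9 : ∀ c', vis 9 → vis c' → 9 ≠ c' → _ := fun c' => hleaf 9 c' 0 (N9 f) (only 9 0 (N9 f))
  have L10 : ∀ c', vis 10 → vis c' → 10 ≠ c' → _ := fun c' =>
    hleaf 10 c' 1 (N10 f) (only 10 1 (N10 f))
  have L11 : ∀ c', vis 11 → vis c' → 11 ≠ c' → _ := fun c' =>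
    hleaf 11 c' 2 (N11 f) (only 11 2 (N11 f))
  -- exactly one leaf is not visited
  have hone : (¬ vis 9 ∨ ¬ vis 10 ∨ ¬ vis 11) := by
    by_contra hno
    push Not at hno
    obtain ⟨h9, h10, h11⟩ := hno
    have a1 := L9 10 h9 h10 (by norm_num)
    have a2 := L10 11 h10 h11 (by norm_num)
    have a3 := L11 9 h11 h9 (by norm_num)
    omega
  have hends : (∀ c < 9, u.val / 3 ≠ c ∧ v.val / 3 ≠ c) ∧ (∀ c < 9, vis c) ∧
      ((vis 9 ∧ vis 10 ∧ f 2 = false) ∨ (vis 9 ∧ vis 11 ∧ f 1 = false) ∨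
        (vis 10 ∧ vis 11 ∧ f 0 = false)) := by
    rcases hone with h | h | h
    · have h10 := hvis 9 10 (by norm_num) (by norm_num) (by norm_num) h
      have h11 := hvis 9 11 (by norm_num) (by norm_num) (by norm_num) h
      have a2 := L10 11 h10 h11 (by norm_num)
      have a3 := L11 10 h11 h10 (by norm_num)
      refine ⟨fun c hc => by omega, fun c hc => hvis 9 c (by norm_num) (by omega) (by omega) h,
        Or.inr (Or.inr ⟨h10, h11, ?_⟩)⟩
      by_contra h0
      rw [Bool.not_eq_false] at h0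
      exact h (hR 0 h0).2
    · have h9 := hvis 10 9 (by norm_num) (by norm_num) (by norm_num) h
      have h11 := hvis 10 11 (by norm_num) (by norm_num) (by norm_num) h
      have a2 := L9 11 h9 h11 (by norm_num)
      have a3 := L11 9 h11 h9 (by norm_num)
      refine ⟨fun c hc => by omega, fun c hc => hvis 10 c (by norm_num) (by omega) (by omega) h,
        Or.inr (Or.inl ⟨h9, h11, ?_⟩)⟩
      by_contra h0
      rw [Bool.not_eq_false] at h0
      exact h (hR 1 h0).2
    · have h9 := hvis 11 9 (by norm_num) (by norm_num) (by norm_num) h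
      have h10 := hvis 11 10 (by norm_num) (by norm_num) (by norm_num) h
      have a2 := L9 10 h9 h10 (by norm_num)
      have a3 := L10 9 h10 h9 (by norm_num)
      refine ⟨fun c hc => by omega, fun c hc => hvis 11 c (by norm_num) (by omega) (by omega) h,
        Or.inl ⟨h9, h10, ?_⟩⟩
      by_contra h0
      rw [Bool.not_eq_false] at h0
      exact h (hR 2 h0).2
  obtain ⟨hne, hall, hlv⟩ := hends
  have deg2 : ∀ c < 9, N f (fun x => x == c) ≤ 3 → N f (fun x => x == c) = 2 := by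
    intro c hc h3
    have h1 : Even (N f (fun x => x == c)) := by
      rw [hP]
      obtain ⟨h4, h5⟩ := hne c hc
      simp [h4, h5]
    obtain ⟨c', hc', hcc⟩ : ∃ c', c' < 9 ∧ c ≠ c' := by
      by_cases h : c = 0
      · exact ⟨1, by norm_num, by omega⟩
      · exact ⟨0, by norm_num, h⟩
    obtain ⟨k, h6, h7⟩ := hQ (fun x => x == c) c c' (hall c hc) (hall c' hc') (by simp [hcc.symm])
    have h8 := N_ne_zero (T := fun x => x == c) h6 h7
    obtain ⟨r, hr⟩ := h1
    omega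
  have tn : ∀ i, (f i).toNat ≤ 1 := fun i => toNat_le _
  have d0 := deg2 0 (by norm_num) (by rw [N0]; have := tn 3; have := tn 4; have := tn 5; omega)
  have d1 := deg2 1 (by norm_num) (by rw [N1]; have := tn 3; have := tn 6; have := tn 7; omega)
  have d2 := deg2 2 (by norm_num) (by rw [N2]; have := tn 1; have := tn 6; have := tn 8; omega)
  have d3 := deg2 3 (by norm_num) (by rw [N3]; have := tn 8; have := tn 9; have := tn 10; omega)
  have d4 := deg2 4 (by norm_num) (by rw [N4]; have := tn 4; have := tn 9; have := tn 11; omega)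
  have d5 := deg2 5 (by norm_num) (by rw [N5]; have := tn 2; have := tn 11; have := tn 12; omega)
  have d6 := deg2 6 (by norm_num) (by rw [N6]; have := tn 7; have := tn 12; have := tn 13; omega)
  have d7 := deg2 7 (by norm_num) (by
    rw [N7]; have := tn 10; have := tn 13; have := tn 14; omega)
  have d8 := deg2 8 (by norm_num) (by rw [N8]; have := tn 0; have := tn 5; have := tn 14; omega)
  rw [N0] at d0
  rw [N1] at d1
  rw [N2] at d2
  rw [N3] at d3
  rw [N4] at d4
  rw [N5] at d5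
  rw [N6] at d6
  rw [N7] at d7
  rw [N8] at d8
  have hleaf1 : ∀ (c c' : ℕ) (i : Fin 15), N f (fun x => x == c) = (f i).toNat → vis c →
      vis c' → c ≠ c' → f i = true := by
    intro c c' i hN hc hc' hcc
    obtain ⟨k, h6, h7⟩ := hQ (fun x => x == c) c c' hc hc' (by simp [hcc.symm])
    exact only c i hN k h6 h7
  have dv : (f 0).toNat + (f 1).toNat + (f 2).toNat = 2 := by
    rcases hlv with ⟨h1, h2, h3⟩ | ⟨h1, h2, h3⟩ | ⟨h1, h2, h3⟩
    · rw [hleaf1 9 10 0 (N9 f) h1 h2 (by norm_num), hleaf1 10 9 1 (N10 f) h2 h1 (by norm_num), h3]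
      rfl
    · rw [hleaf1 9 11 0 (N9 f) h1 h2 (by norm_num), hleaf1 11 9 2 (N11 f) h2 h1 (by norm_num), h3]
      rfl
    · rw [hleaf1 10 11 1 (N10 f) h1 h2 (by norm_num), hleaf1 11 10 2 (N11 f) h2 h1 (by norm_num),
        h3]
      rfl
  have key := fin_check _ _ _ dv _ _ _ d0 _ _ d1 _ d2 _ _ d3 _ d4 _ d5 _ d6 _ d7 d8
  rcases key with ⟨z1, z2, z3, z4, z5⟩ | ⟨z1, z2, z3, z4, z5⟩ | ⟨z1, z2, z3, z4, z5⟩ |
    ⟨z1, z2, z3, z4, z5⟩ | ⟨z1, z2, z3, z4, z5⟩ | ⟨z1, z2, z3, z4, z5⟩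
  · obtain ⟨k, h6, h7⟩ := hQ (fun x => x == 0 || x == 3 || x == 4 || x == 7 || x == 8) 0 1
      (hall 0 (by norm_num)) (hall 1 (by norm_num)) (by decide)
    clear hcon hP hQ hR hleaf only L9 L10 L11 hone hne hall hlv deg2 tn hleaf1
    fin_cases k <;> simp [ha, hb, z1, z2, z3, z4, z5] at h6 h7
  · obtain ⟨k, h6, h7⟩ := hQ (fun x => x == 0 || x == 1 || x == 6 || x == 7 || x == 8) 0 2
      (hall 0 (by norm_num)) (hall 2 (by norm_num)) (by decide)
    clear hcon hP hQ hR hleaf only L9 L10 L11 hone hne hall hlv deg2 tn hleaf1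
    fin_cases k <;> simp [ha, hb, z1, z2, z3, z4, z5] at h6 h7
  · obtain ⟨k, h6, h7⟩ := hQ (fun x => x == 1 || x == 2 || x == 3 || x == 6 || x == 7) 1 0
      (hall 1 (by norm_num)) (hall 0 (by norm_num)) (by decide)
    clear hcon hP hQ hR hleaf only L9 L10 L11 hone hne hall hlv deg2 tn hleaf1
    fin_cases k <;> simp [ha, hb, z1, z2, z3, z4, z5] at h6 h7
  · obtain ⟨k, h6, h7⟩ := hQ (fun x => x == 0 || x == 1 || x == 2 || x == 3 || x == 4) 0 5
      (hall 0 (by norm_num)) (hall 5 (by norm_num)) (by decide)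
    clear hcon hP hQ hR hleaf only L9 L10 L11 hone hne hall hlv deg2 tn hleaf1
    fin_cases k <;> simp [ha, hb, z1, z2, z3, z4, z5] at h6 h7
  · obtain ⟨k, h6, h7⟩ := hQ (fun x => x == 3 || x == 4 || x == 5 || x == 6 || x == 7) 3 0
      (hall 3 (by norm_num)) (hall 0 (by norm_num)) (by decide)
    clear hcon hP hQ hR hleaf only L9 L10 L11 hone hne hall hlv deg2 tn hleaf1
    fin_cases k <;> simp [ha, hb, z1, z2, z3, z4, z5] at h6 h7
  · obtain ⟨k, h6, h7⟩ := hQ (fun x => x == 0 || x == 1 || x == 4 || x == 5 || x == 6) 0 2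
      (hall 0 (by norm_num)) (hall 2 (by norm_num)) (by decide)
    clear hcon hP hQ hR hleaf only L9 L10 L11 hone hne hall hlv deg2 tn hleaf1
    fin_cases k <;> simp [ha, hb, z1, z2, z3, z4, z5] at h6 h7

lemma card_two : ∀ c c' : Fin 12, c ≠ c' →
    #((Finset.univ : Finset (Fin 36)).filter
      (fun x => x.val / 3 ≠ c.val ∧ x.val / 3 ≠ c'.val)) ≤ 30 := by
  decide

/-- every path has at most 30 vertices -/
lemma path_le {u v : Fin 36} (p : G36.Walk u v) (hp : p.IsPath) : p.length ≤ 29 := by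
  classical
  obtain ⟨c, c', hcc, h⟩ := misses p hp
  have h1 : p.support.toFinset ⊆ (Finset.univ : Finset (Fin 36)).filter
      (fun x => x.val / 3 ≠ c.val ∧ x.val / 3 ≠ c'.val) := by
    intro x hx
    rw [List.mem_toFinset] at hx
    exact Finset.mem_filter.2 ⟨Finset.mem_univ _, h x hx⟩
  have h2 := (Finset.card_le_card h1).trans (card_two c c' hcc)
  rw [List.toFinset_card_of_nodup hp.support_nodup, Walk.length_support] at h2
  omega

/-- twelve longest paths, the `c`-th one avoiding the `c`-th triangle -/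
def rows : Fin 12 → List (Fin 36) :=
  ![[28, 29, 27, 24, 25, 26, 23, 22, 21, 11, 9, 10, 13, 12, 14, 16, 15, 17, 19, 20, 18, 5, 3, 4, 7, 8, 6, 30, 31, 32],
    [28, 29, 27, 24, 26, 25, 2, 0, 1, 12, 13, 14, 16, 15, 17, 19, 18, 20, 22, 23, 21, 11, 10, 9, 8, 7, 6, 30, 31, 32],
    [28, 29, 27, 24, 26, 25, 2, 1, 0, 3, 4, 5, 18, 19, 20, 22, 23, 21, 11, 9, 10, 13, 12, 14, 16, 17, 15, 33, 34, 35],
    [28, 29, 27, 24, 25, 26, 23, 21, 22, 20, 18, 19, 17, 15, 16, 14, 13, 12, 1, 2, 0, 3, 5, 4, 7, 8, 6, 30, 31, 32],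
    [28, 29, 27, 24, 26, 25, 2, 1, 0, 3, 5, 4, 7, 6, 8, 9, 10, 11, 21, 23, 22, 20, 18, 19, 17, 16, 15, 33, 34, 35],
    [28, 29, 27, 24, 26, 25, 2, 0, 1, 12, 14, 13, 10, 9, 11, 21, 23, 22, 20, 19, 18, 5, 3, 4, 7, 8, 6, 30, 31, 32],
    [28, 29, 27, 24, 25, 26, 23, 22, 21, 11, 10, 9, 8, 6, 7, 4, 5, 3, 0, 2, 1, 12, 13, 14, 16, 17, 15, 33, 34, 35],
    [28, 29, 27, 24, 26, 25, 2, 0, 1, 12, 14, 13, 10, 11, 9, 8, 6, 7, 4, 3, 5, 18, 20, 19, 17, 16, 15, 33, 34, 35],
    [31, 32, 30, 6, 8, 7, 4, 5, 3, 0, 2, 1, 12, 14, 13, 10, 9, 11, 21, 23, 22, 20, 18, 19, 17, 16, 15, 33, 34, 35],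
    [31, 32, 30, 6, 8, 7, 4, 5, 3, 0, 2, 1, 12, 14, 13, 10, 9, 11, 21, 23, 22, 20, 18, 19, 17, 16, 15, 33, 34, 35],
    [28, 29, 27, 24, 26, 25, 2, 1, 0, 3, 4, 5, 18, 19, 20, 22, 23, 21, 11, 9, 10, 13, 12, 14, 16, 17, 15, 33, 34, 35],
    [28, 29, 27, 24, 26, 25, 2, 0, 1, 12, 14, 13, 10, 9, 11, 21, 23, 22, 20, 19, 18, 5, 3, 4, 7, 8, 6, 30, 31, 32]]

lemma rows_adj : ∀ c : Fin 12, ∀ j : Fin 29,
    G36.Adj ((rows c).getD j.val 0) ((rows c).getD (j.val + 1) 0) := by
  decide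

lemma rows_inj : ∀ c : Fin 12, ∀ i j : Fin 30,
    (rows c).getD i.val 0 = (rows c).getD j.val 0 → i = j := by
  decide

lemma rows_avoid : ∀ c : Fin 12, ∀ j : Fin 30, ((rows c).getD j.val 0).val / 3 ≠ c.val := by
  decide

/-- for every vertex there is a longest path avoiding it -/
lemma avoid (x : Fin 36) : ∃ (u v : Fin 36) (p : G36.Walk u v), p.IsPath ∧ p.length = 29 ∧
    x ∉ p.support := by
  have hx : x.val / 3 < 12 := by omega
  obtain ⟨p, hp, hl, hs⟩ := walk_of_fun (G := G36)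
    (fun j => (rows ⟨x.val / 3, hx⟩).getD j 0) 29
    (fun j hj => rows_adj ⟨x.val / 3, hx⟩ ⟨j, hj⟩)
    (fun i j hi hj h => by
      have := rows_inj ⟨x.val / 3, hx⟩ ⟨i, by omega⟩ ⟨j, by omega⟩ h
      simpa using this)
  refine ⟨_, _, p, hp, hl, fun hxs => ?_⟩
  obtain ⟨j, hj, h⟩ := hs x hxs
  have := rows_avoid ⟨x.val / 3, hx⟩ ⟨j, by omega⟩
  simp only at this h
  rw [← h] at this
  exact this rfl

lemma smaller : ∀ c : Fin 12, c ≠ 0 → ∃ k, (hb k = c.val ∧ ha k < c.val) ∨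
    (ha k = c.val ∧ hb k < c.val) := by
  decide

lemma same_reach {x y : Fin 36} (h : x.val / 3 = y.val / 3) : G36.Reachable x y := by
  by_cases hxy : x = y
  · exact hxy ▸ Reachable.refl x
  · exact Adj.reachable ⟨hxy, Or.inl h⟩

lemma conn_reach (k : Fin 15) : G36.Reachable (ca k) (cb k) := by
  refine Adj.reachable ⟨?_, Or.inr ⟨k, Or.inl ⟨rfl, rfl⟩⟩⟩
  revert k
  decide

lemma connected : G36.Connected := by
  have key : ∀ (n : ℕ) (x : Fin 36), x.val / 3 = n → G36.Reachable x 0 := by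
    intro n
    induction n using Nat.strong_induction_on with
    | _ n ih =>
    intro x hx
    by_cases h0 : n = 0
    · exact same_reach (by rw [hx, h0]; rfl)
    · have hxl := x.isLt
      obtain ⟨k, h1 | h1⟩ := smaller ⟨n, by omega⟩ (by
        intro h; exact h0 (by simpa [Fin.ext_iff] using h))
      · have h2 : G36.Reachable x (cb k) := same_reach (by rw [hb_eq, hx, h1.1])
        exact h2.trans ((conn_reach k).symm.trans (ih _ h1.2 (ca k) (ha_eq k)))
      · have h2 : G36.Reachable x (ca k) := same_reach (by rw [ha_eq, hx, h1.1])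
        exact h2.trans ((conn_reach k).trans (ih _ h1.2 (cb k) (hb_eq k)))
  exact ⟨fun x y => (key _ x rfl).trans (key _ y rfl).symm⟩

end Pool.Agent.R41.CF
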