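import Mathlib

/-!
Helper lemmas on cycles and paths in simple graphs (helper41).
-/

set_option autoImplicit false

namespace Pool.Agent.R41

open SimpleGraph

variable {V : Type*} {G : SimpleGraph V}

/-- A walk along an injective sequence is a path. -/
lemma walk_of_fun (g : ℕ → V) (L : ℕ) (hadj : ∀ j, j < L → G.Adj (g j) (g (j + 1)))
    (hinj : ∀ i j, i ≤ L → j ≤ L → g i = g j → i = j) :
    ∃ p : G.Walk (g 0) (g L), p.IsPath ∧ p.length = L ∧ ∀ v ∈ p.support, ∃ j ≤ L, v = g j := by
  induction L with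
  | zero => exact ⟨Walk.nil, by simp, by simp, fun v hv => ⟨0, le_rfl, by simpa using hv⟩⟩
  | succ L ih =>
    obtain ⟨p, hp, hl, hs⟩ := ih (fun j hj => hadj j (by omega))
      (fun i j hi hj h => hinj i j (by omega) (by omega) h)
    refine ⟨p.concat (hadj L (by omega)), ?_, by simp [hl], ?_⟩
    · apply hp.concat
      intro hmem
      obtain ⟨j, hj, hj'⟩ := hs _ hmem
      have := hinj _ _ le_rfl (by omega) hj'
      omega
    · intro v hv
      rw [Walk.support_concat, List.mem_append] at hv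
      rcases hv with hv | hv
      · obtain ⟨j, hj, hj'⟩ := hs _ hv
        exact ⟨j, by omega, hj'⟩
      · exact ⟨L + 1, le_rfl, by simpa using hv⟩

/-- A path of length at least two closed by an edge is a cycle. -/
lemma contained_of_path {x y : V} (p : G.Walk x y) (hp : p.IsPath) (hL : 2 ≤ p.length)
    (h : G.Adj y x) : (cycleGraph (p.length + 1)).IsContained G := by
  rw [cycleGraph_isContained_iff (by omega)]
  refine ⟨y, Walk.cons h p, (Walk.cons_isCycle_iff p h).2 ⟨hp, fun hm => ?_⟩, by simp⟩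
  rw [Sym2.eq_swap] at hm
  have := hp.length_eq_one_of_mem_edges hm
  omega

/-- A path of length at least two between `x` and `y` gives a cycle after adding `x y`. -/
lemma contained_sup_of_path {x y : V} (hxy : x ≠ y) (p : G.Walk x y) (hp : p.IsPath)
    (hL : 2 ≤ p.length) : (cycleGraph (p.length + 1)).IsContained (G ⊔ edge x y) := by
  have hle : G ≤ G ⊔ edge x y := le_sup_left
  have h1 := contained_of_path (p.mapLe hle) (by simpa [Walk.mapLe] using hp) (by simpa using hL)
    (by simp [edge_adj, hxy.symm, hxy])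
  rwa [Walk.length_mapLe] at h1

/-- Cycles as injective cyclic sequences. -/
lemma fun_of_contained {m : ℕ} (hm : 3 ≤ m) (h : (cycleGraph m).IsContained G) :
    ∃ f : ZMod m → V, Function.Injective f ∧ ∀ i, G.Adj (f i) (f (i + 1)) := by
  obtain ⟨k, rfl⟩ : ∃ k, m = k + 3 := ⟨m - 3, by omega⟩
  obtain ⟨g⟩ := h
  refine ⟨fun i => g (show Fin (k + 3) from i), fun i j hij => g.injective hij, fun i => ?_⟩
  apply g.toHom.map_adj
  have := (cycleGraph_adj (n := k + 1) (u := (show Fin (k + 3) from i))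
    (v := (show Fin (k + 3) from i) + 1)).2 (Or.inr (add_sub_cancel_left _ _))
  exact this

lemma natCast_ne_zero {m j : ℕ} (hj : 0 < j) (hjm : j < m) : (j : ZMod m) ≠ 0 := by
  intro h
  rw [ZMod.natCast_eq_zero_iff] at h
  exact absurd (Nat.le_of_dvd hj h) (by omega)

/-- A cycle of `G + x y` which is not in `G` yields a path of `G` from `x` to `y`. -/
lemma path_of_contained_sup {m : ℕ} (hm : 3 ≤ m) {x y : V}
    (h : (cycleGraph m).IsContained (G ⊔ edge x y)) (hG : ¬ (cycleGraph m).IsContained G) :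
    ∃ p : G.Walk x y, p.IsPath ∧ p.length + 1 = m := by
  obtain ⟨f, hinj, hadj⟩ := fun_of_contained hm h
  have hex : ∃ i, ¬ G.Adj (f i) (f (i + 1)) := by
    by_contra hcon
    push Not at hcon
    apply hG
    have : NeZero m := ⟨by omega⟩
    let g : ℕ → V := fun j => f (j : ZMod m)
    obtain ⟨p, hp, hl, -⟩ := walk_of_fun (G := G) g (m - 1)
      (fun j hj => by simpa [g] using hcon (j : ZMod m))
      (fun i j hi hj hij => by
        have h1 := hinj hij
        rw [ZMod.natCast_eq_natCast_iff'] at h1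
        rwa [Nat.mod_eq_of_lt (by omega), Nat.mod_eq_of_lt (by omega)] at h1)
    have := contained_of_path p hp (by omega) (by
      have h1 := hcon ((m - 1 : ℕ) : ZMod m)
      have h2 : ((m - 1 : ℕ) : ZMod m) + 1 = ((0 : ℕ) : ZMod m) := by
        have : ((m - 1 : ℕ) : ZMod m) + 1 = ((m - 1 + 1 : ℕ) : ZMod m) := by push_cast; rfl
        rw [this, Nat.sub_add_cancel (by omega)]
        simp
      rw [h2] at h1
      exact h1)
    rw [hl, Nat.sub_add_cancel (by omega)] at this
    exact this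
  obtain ⟨i, hi⟩ := hex
  have key : ∀ u v : V, (G ⊔ edge x y).Adj u v → ¬ G.Adj u v →
      (u = x ∧ v = y ∨ u = y ∧ v = x) := by
    intro u v h1 h2
    simp only [sup_adj, edge_adj] at h1
    tauto
  have hi2 := key _ _ (hadj i) hi
  let g : ℕ → V := fun j => f (i + 1 + (j : ZMod m))
  have hgadj : ∀ j, j < m - 1 → G.Adj (g j) (g (j + 1)) := by
    intro j hj
    by_contra hcon
    have h1 : (G ⊔ edge x y).Adj (g j) (g (j + 1)) := by
      have := hadj (i + 1 + (j : ZMod m))
      simpa [g, add_assoc] using this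
    have h2 := key _ _ h1 hcon
    have h3 : g j = f i ∨ (g j = f (i + 1) ∧ g (j + 1) = f i) := by
      rcases hi2 with ⟨a, b⟩ | ⟨a, b⟩ <;> rcases h2 with ⟨c, d⟩ | ⟨c, d⟩
      · left; rw [c, a]
      · right; exact ⟨by rw [c, b], by rw [d, a]⟩
      · right; exact ⟨by rw [c, b], by rw [d, a]⟩
      · left; rw [c, a]
    rcases h3 with h3 | ⟨h3, h4⟩
    · have h5 := hinj h3
      have h6 : ((j + 1 : ℕ) : ZMod m) = 0 := by
        have : i + 1 + (j : ZMod m) = i + ((j + 1 : ℕ) : ZMod m) := by push_cast; ring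
        rw [this] at h5
        simpa using h5
      exact natCast_ne_zero (by omega) (by omega) h6
    · have h5 := hinj h3
      have h6 : ((j : ℕ) : ZMod m) = 0 := by simpa using h5
      have h7 := hinj h4
      have h8 : ((2 : ℕ) : ZMod m) = 0 := by
        have : i + 1 + ((j + 1 : ℕ) : ZMod m) = i + ((2 : ℕ) : ZMod m) := by
          push_cast
          rw [h6]
          ring
        rw [this] at h7
        simpa using h7
      exact natCast_ne_zero (by omega) (by omega) h8
  have : NeZero m := ⟨by omega⟩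
  obtain ⟨p, hp, hl, -⟩ := walk_of_fun (G := G) g (m - 1) hgadj
      (fun a b ha hb hab => by
        have h1 := hinj hab
        have h2 : (a : ZMod m) = (b : ZMod m) := by simpa using h1
        rw [ZMod.natCast_eq_natCast_iff'] at h2
        rwa [Nat.mod_eq_of_lt (by omega), Nat.mod_eq_of_lt (by omega)] at h2)
  have h0 : g 0 = f (i + 1) := by simp [g]
  have h1 : g (m - 1) = f i := by
    have : i + 1 + ((m - 1 : ℕ) : ZMod m) = i := by
      have : ((m - 1 : ℕ) : ZMod m) + 1 = ((m - 1 + 1 : ℕ) : ZMod m) := by push_cast; rfl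
      rw [add_assoc, add_comm 1, this, Nat.sub_add_cancel (by omega)]
      simp
    simp only [g, this]
  rcases hi2 with ⟨a, b⟩ | ⟨a, b⟩
  · refine ⟨(p.copy (h0.trans b) (h1.trans a)).reverse, ?_, ?_⟩
    · rw [Walk.isPath_reverse_iff, Walk.isPath_copy]; exact hp
    · simp [hl]; omega
  · refine ⟨p.copy (h0.trans b) (h1.trans a), ?_, ?_⟩
    · rw [Walk.isPath_copy]; exact hp
    · simp [hl]; omega

/-- There is a path of length `L` from `x` to `y` all of whose vertices satisfy `S`. -/
def PP (G : SimpleGraph V) (S : V → Prop) (x y : V) (L : ℕ) : Prop :=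
  ∃ p : G.Walk x y, p.IsPath ∧ p.length = L ∧ ∀ v ∈ p.support, S v

lemma PP.symm {S : V → Prop} {x y : V} {L : ℕ} (h : PP G S x y L) : PP G S y x L := by
  obtain ⟨p, hp, hl, hs⟩ := h
  exact ⟨p.reverse, hp.reverse, by simpa using hl, fun v hv => hs v (by simpa using hv)⟩

lemma PP.mono {S T : V → Prop} {x y : V} {L : ℕ} (h : PP G S x y L) (hST : ∀ v, S v → T v) :
    PP G T x y L := by
  obtain ⟨p, hp, hl, hs⟩ := h
  exact ⟨p, hp, hl, fun v hv => hST v (hs v hv)⟩

lemma isPath_append {x y z : V} {p : G.Walk x y} {q : G.Walk y z} (hp : p.IsPath) (hq : q.IsPath)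
    (h : ∀ v, v ∈ p.support → v ∈ q.support → v = y) : (p.append q).IsPath := by
  rw [Walk.isPath_def] at *
  rw [Walk.support_append, List.nodup_append]
  have hq' := hq
  rw [← q.cons_tail_support] at hq'
  rw [List.nodup_cons] at hq'
  refine ⟨hp, hq'.2, ?_⟩
  rintro a ha b hb rfl
  have : a = y := h a ha (by rw [← q.cons_tail_support]; exact List.mem_cons_of_mem _ hb)
  exact hq'.1 (this ▸ hb)

lemma PP.trans {S T : V → Prop} {x y z : V} {L₁ L₂ : ℕ} (h₁ : PP G S x y L₁)
    (h₂ : PP G T y z L₂) (hST : ∀ v, S v → T v → v = y) :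
    PP G (fun v => S v ∨ T v) x z (L₁ + L₂) := by
  obtain ⟨p, hp, hl, hs⟩ := h₁
  obtain ⟨q, hq, hl', hs'⟩ := h₂
  refine ⟨p.append q, isPath_append hp hq fun v h1 h2 => hST v (hs v h1) (hs' v h2), ?_, ?_⟩
  · rw [Walk.length_append, hl, hl']
  · intro v hv
    rw [Walk.mem_support_append_iff] at hv
    exact hv.imp (hs v) (hs' v)

lemma PP.cycle {S : V → Prop} {x y : V} {L : ℕ} (h : PP G S x y L) (hxy : x ≠ y) (hL : 2 ≤ L) :
    (cycleGraph (L + 1)).IsContained (G ⊔ edge x y) := by
  obtain ⟨p, hp, hl, -⟩ := h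
  rw [← hl]
  exact contained_sup_of_path hxy p hp (by omega)

/-- A path along an injective sequence. -/
lemma PP.of_fun {S : V → Prop} (g : ℕ → V) (L : ℕ) (hadj : ∀ j, j < L → G.Adj (g j) (g (j + 1)))
    (hinj : ∀ i j, i ≤ L → j ≤ L → g i = g j → i = j) (hS : ∀ j, j ≤ L → S (g j)) :
    PP G S (g 0) (g L) L := by
  obtain ⟨p, hp, hl, hs⟩ := walk_of_fun g L hadj hinj
  refine ⟨p, hp, hl, fun v hv => ?_⟩
  obtain ⟨j, hj, rfl⟩ := hs v hv
  exact hS j hj

lemma PP.one {S : V → Prop} {a b : V} (h : G.Adj a b) (ha : S a) (hb : S b) : PP G S a b 1 := by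
  refine ⟨Walk.cons h Walk.nil, ?_, by simp, ?_⟩
  · simp [Walk.isPath_def, h.ne]
  · intro v hv
    simp only [Walk.support_cons, Walk.support_nil, List.mem_cons, List.not_mem_nil,
      or_false] at hv
    rcases hv with rfl | rfl <;> assumption

lemma PP.two {S : V → Prop} {a b c : V} (h : G.Adj a b) (h' : G.Adj b c) (hac : a ≠ c)
    (ha : S a) (hb : S b) (hc : S c) : PP G S a c 2 := by
  refine ⟨Walk.cons h (Walk.cons h' Walk.nil), ?_, by simp, ?_⟩
  · simp [Walk.isPath_def, h.ne, h'.ne, hac]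
  · intro v hv
    simp only [Walk.support_cons, Walk.support_nil, List.mem_cons, List.not_mem_nil,
      or_false] at hv
    rcases hv with rfl | rfl | rfl <;> assumption

lemma PP.three {S : V → Prop} {a b c d : V} (h : G.Adj a b) (h' : G.Adj b c) (h'' : G.Adj c d)
    (hac : a ≠ c) (had : a ≠ d) (hbd : b ≠ d)
    (ha : S a) (hb : S b) (hc : S c) (hd : S d) : PP G S a d 3 := by
  refine ⟨Walk.cons h (Walk.cons h' (Walk.cons h'' Walk.nil)), ?_, by simp, ?_⟩
  · simp [Walk.isPath_def, h.ne, h'.ne, h''.ne, hac, had, hbd]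
  · intro v hv
    simp only [Walk.support_cons, Walk.support_nil, List.mem_cons, List.not_mem_nil,
      or_false] at hv
    rcases hv with rfl | rfl | rfl | rfl <;> assumption

end Pool.Agent.R41
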