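import Pool.Agent.R41.Cyc

/-!
MP_0fee77: lower bound `5 n ≤ 4 e + 6` for graphs saturated with respect to all cycles of
length at least four.
-/

set_option autoImplicit false

namespace Pool.Agent.R41

open SimpleGraph Finset

variable {V : Type*} [DecidableEq V] {G : SimpleGraph V}

/-- `C_{≥ 4}`-free graph: any two adjacent vertices have at most one common neighbour. -/
lemma common_unique (hfree : ∀ m, 4 ≤ m → ¬ (cycleGraph m).IsContained G) {x y z z' : V}
    (hxy : x ≠ y) (h1 : G.Adj x z) (h2 : G.Adj z y) (h3 : G.Adj y z') (h4 : G.Adj z' x) :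
    z = z' := by
  by_contra hne
  have h5 := contained_of_path (Walk.cons h1 (Walk.cons h2 (Walk.cons h3 Walk.nil)))
    (by
      simp only [Walk.isPath_def, Walk.support_cons, Walk.support_nil, List.nodup_cons,
        List.mem_cons, List.not_mem_nil, or_false, not_or, not_false_eq_true, List.nodup_nil,
        and_true]
      exact ⟨⟨h1.ne, hxy, h4.ne'⟩, ⟨h2.ne, hne⟩, h3.ne⟩) (by simp) h4
  exact hfree _ (by simp) h5

/-- Two edges without common neighbours of their ends are disjoint. -/
lemma nonTriangle_matching (hfree : ∀ m, 4 ≤ m → ¬ (cycleGraph m).IsContained G)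
    (hsat : ∀ x y, x ≠ y → ¬ G.Adj x y → ∃ m, 4 ≤ m ∧ (cycleGraph m).IsContained (G ⊔ edge x y))
    {a b c : V} (hab : G.Adj a b) (hbc : G.Adj b c)
    (h1 : ∀ z, ¬ (G.Adj a z ∧ G.Adj b z)) (h2 : ∀ z, ¬ (G.Adj b z ∧ G.Adj c z)) : a = c := by
  by_contra hac
  have hnadj : ¬ G.Adj a c := fun h => h1 c ⟨h, hbc⟩
  obtain ⟨m, hm, hc⟩ := hsat a c hac hnadj
  obtain ⟨p, hp, hl⟩ := path_of_contained_sup (by omega) hc (hfree m hm)
  by_cases hb : b ∈ p.support
  · have hsum : (p.takeUntil b hb).length + (p.dropUntil b hb).length = p.length := by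
      conv_rhs => rw [← p.take_spec hb, Walk.length_append]
    have key1 : (p.takeUntil b hb).length ≤ 1 := by
      by_contra hcon
      have hc1 := contained_of_path _ (hp.takeUntil hb) (by omega) hab.symm
      by_cases h4 : 4 ≤ (p.takeUntil b hb).length + 1
      · exact hfree _ h4 hc1
      · have hlen : (p.takeUntil b hb).length = 2 := by omega
        have e1 := (p.takeUntil b hb).adj_getVert_succ (i := 0) (by omega)
        have e2 := (p.takeUntil b hb).adj_getVert_succ (i := 1) (by omega)
        rw [Walk.getVert_zero] at e1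
        have e3 : (p.takeUntil b hb).getVert (1 + 1) = b := by
          have := (p.takeUntil b hb).getVert_length
          rw [hlen] at this
          exact this
        rw [e3] at e2
        exact h1 _ ⟨e1, e2.symm⟩
    have key2 : (p.dropUntil b hb).length ≤ 1 := by
      by_contra hcon
      have hc1 := contained_of_path _ (hp.dropUntil hb) (by omega) hbc.symm
      by_cases h4 : 4 ≤ (p.dropUntil b hb).length + 1
      · exact hfree _ h4 hc1
      · have hlen : (p.dropUntil b hb).length = 2 := by omega
        have e1 := (p.dropUntil b hb).adj_getVert_succ (i := 0) (by omega)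
        have e2 := (p.dropUntil b hb).adj_getVert_succ (i := 1) (by omega)
        rw [Walk.getVert_zero] at e1
        have e3 : (p.dropUntil b hb).getVert (1 + 1) = c := by
          have := (p.dropUntil b hb).getVert_length
          rw [hlen] at this
          exact this
        rw [e3] at e2
        exact h2 _ ⟨e1, e2.symm⟩
    omega
  · have hp' : (Walk.cons hab.symm p).IsPath := (Walk.cons_isPath_iff _ _).2 ⟨hp, hb⟩
    have := contained_of_path _ hp' (by simp; omega) hbc.symm
    exact hfree _ (by simp; omega) this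

lemma five_le [Fintype V] (hfree : ∀ m, 4 ≤ m → ¬ (cycleGraph m).IsContained G) [Nonempty V]
    (hsat : ∀ x y, x ≠ y → ¬ G.Adj x y →
      ∃ m, 4 ≤ m ∧ (cycleGraph m).IsContained (G ⊔ edge x y)) :
    5 * Fintype.card V ≤ 4 * G.edgeSet.ncard + 6 := by
  classical
  -- connectedness
  have hconn : G.Connected := by
    refine ⟨fun x y => ?_⟩
    by_cases hxy : x = y
    · exact hxy ▸ Reachable.refl x
    by_cases hadj : G.Adj x y
    · exact hadj.reachable
    obtain ⟨m, hm, hc⟩ := hsat x y hxy hadj
    obtain ⟨p, -, -⟩ := path_of_contained_sup (by omega) hc (hfree m hm)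
    exact p.reachable
  obtain ⟨T, hTG, hT⟩ := hconn.exists_isTree_le
  have hTcard := hT.card_edgeFinset
  -- the edges in no triangle
  let M : SimpleGraph V :=
    { Adj := fun u v => G.Adj u v ∧ ∀ z, ¬ (G.Adj u z ∧ G.Adj v z)
      symm := ⟨fun u v h => ⟨h.1.symm, fun z hz => h.2 z ⟨hz.2, hz.1⟩⟩⟩
      loopless := ⟨fun u h => h.1.ne rfl⟩ }
  have hMG : M ≤ G := fun u v h => h.1
  have hMdeg : ∀ v, M.degree v ≤ 1 := by
    intro v
    rw [← SimpleGraph.card_neighborFinset_eq_degree, Finset.card_le_one]
    intro a ha c hc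
    rw [SimpleGraph.mem_neighborFinset] at ha hc
    exact nonTriangle_matching hfree hsat ha.1.symm hc.1
      (fun z hz => ha.2 z ⟨hz.2, hz.1⟩) (fun z hz => hc.2 z hz)
  have hMcard : 2 * #M.edgeFinset ≤ Fintype.card V := by
    rw [← SimpleGraph.sum_degrees_eq_twice_card_edges]
    calc ∑ v, M.degree v ≤ ∑ v : V, 1 := Finset.sum_le_sum fun v _ => hMdeg v
      _ = Fintype.card V := by simp
  have hsub1 : M.edgeFinset ⊆ G.edgeFinset := SimpleGraph.edgeFinset_mono hMG
  have hsub2 : T.edgeFinset ⊆ G.edgeFinset := SimpleGraph.edgeFinset_mono hTG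
  -- every edge in a triangle has a non-tree edge in its triangle
  have hchoice : ∀ e ∈ G.edgeFinset \ M.edgeFinset, ∃ f ∈ G.edgeFinset \ T.edgeFinset,
      ∃ u v w : V, G.Adj u v ∧ G.Adj u w ∧ G.Adj v w ∧ e = s(u, v) ∧
        (f = s(u, v) ∨ f = s(u, w) ∨ f = s(v, w)) := by
    intro e he
    induction e using Sym2.ind with
    | _ u v =>
    rw [Finset.mem_sdiff, SimpleGraph.mem_edgeFinset, SimpleGraph.mem_edgeFinset,
      SimpleGraph.mem_edgeSet, SimpleGraph.mem_edgeSet] at he
    obtain ⟨h1, h2⟩ := he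
    have h3 : ∃ w, G.Adj u w ∧ G.Adj v w := by
      by_contra hcon
      push Not at hcon
      exact h2 ⟨h1, fun z hz => hcon z hz.1 hz.2⟩
    obtain ⟨w, hw1, hw2⟩ := h3
    have h4 : ¬ (T.Adj u v ∧ T.Adj u w ∧ T.Adj v w) := by
      rintro ⟨a1, a2, a3⟩
      have := hT.2 (Walk.cons a1 (Walk.cons a3 (Walk.cons a2.symm Walk.nil)))
      apply this
      rw [Walk.cons_isCycle_iff]
      refine ⟨?_, ?_⟩
      · simp only [Walk.isPath_def, Walk.support_cons, Walk.support_nil, List.nodup_cons,
          List.mem_cons, List.not_mem_nil, or_false, not_or, not_false_eq_true, List.nodup_nil,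
          and_true]
        exact ⟨⟨a3.ne, a1.ne'⟩, a2.ne'⟩
      · simp only [Walk.edges_cons, Walk.edges_nil, List.mem_cons, List.not_mem_nil, or_false,
          Sym2.eq_iff]
        have b1 := a1.ne
        have b2 := a2.ne
        have b3 := a3.ne
        tauto
    by_cases c1 : T.Adj u v
    · by_cases c2 : T.Adj u w
      · have c3 : ¬ T.Adj v w := fun h => h4 ⟨c1, c2, h⟩
        exact ⟨s(v, w), by simp [hw2, c3], u, v, w, h1, hw1, hw2, rfl, by simp⟩
      · exact ⟨s(u, w), by simp [hw1, c2], u, v, w, h1, hw1, hw2, rfl, by simp⟩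
    · exact ⟨s(u, v), by simp [h1, c1], u, v, w, h1, hw1, hw2, rfl, by simp⟩
  choose! F hF1 hF2 using hchoice
  have hle : #(G.edgeFinset \ M.edgeFinset) ≤ 3 * #(G.edgeFinset \ T.edgeFinset) := by
    refine Finset.card_le_mul_card_image_of_maps_to hF1 3 ?_
    intro b hb
    by_cases hemp : {a ∈ G.edgeFinset \ M.edgeFinset | F a = b} = ∅
    · rw [hemp]; simp
    obtain ⟨e, he⟩ := Finset.nonempty_iff_ne_empty.2 hemp
    rw [Finset.mem_filter] at he
    obtain ⟨u, v, w, h1, h2, h3, h4, h5⟩ := hF2 e he.1
    rw [he.2] at h5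
    -- all edges of the fibre lie in the triangle u v w
    have hsub : {a ∈ G.edgeFinset \ M.edgeFinset | F a = b} ⊆ {s(u, v), s(u, w), s(v, w)} := by
      intro e' he'
      rw [Finset.mem_filter] at he'
      obtain ⟨u', v', w', h1', h2', h3', h4', h5'⟩ := hF2 e' he'.1
      rw [he'.2] at h5'
      -- helper: triangles sharing an edge coincide
      have tri : ∀ {x y z x' y' z' : V}, G.Adj x y → G.Adj x z → G.Adj y z → G.Adj x' y' →
          G.Adj x' z' → G.Adj y' z' → s(x, y) = s(x', y') → z = z' := by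
        intro x y z x' y' z' a1 a2 a3 a1' a2' a3' hs
        rw [Sym2.eq_iff] at hs
        rcases hs with ⟨rfl, rfl⟩ | ⟨rfl, rfl⟩
        · exact common_unique hfree a1.ne a2 a3.symm a3' a2'.symm
        · exact common_unique hfree a1.ne a2 a3.symm a2' a3'.symm
      simp only [Finset.mem_insert, Finset.mem_singleton]
      rw [h4']
      have hset : ∀ {x y z x' y' z' : V}, s(x, y) = s(x', y') → z = z' →
          (s(x', y') = s(x, y) ∧ (s(x', z') = s(x, z) ∨ s(x', z') = s(y, z)) ∧
            (s(y', z') = s(x, z) ∨ s(y', z') = s(y, z))) := by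
        intro x y z x' y' z' hs hz
        subst hz
        rw [Sym2.eq_iff] at hs
        rcases hs with ⟨rfl, rfl⟩ | ⟨rfl, rfl⟩
        · exact ⟨rfl, Or.inl rfl, Or.inr rfl⟩
        · exact ⟨Sym2.eq_swap, Or.inr rfl, Or.inl rfl⟩
      rcases h5 with h5 | h5 | h5 <;> rcases h5' with h5' | h5' | h5' <;> rw [h5] at h5'
      · left; exact h5'.symm
      · have e1 := tri h1 h2 h3 h2' h1' h3'.symm h5'
        have e2 := hset h5' e1
        tauto
      · have e1 := tri h1 h2 h3 h3' h1'.symm h2'.symm h5'
        have e2 := hset h5' e1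
        rw [Sym2.eq_swap (a := v') (b := u')] at e2
        tauto
      · have e1 := tri h2 h1 h3.symm h1' h2' h3' h5'
        have e2 := hset h5' e1
        tauto
      · have e1 := tri h2 h1 h3.symm h2' h1' h3'.symm h5'
        have e2 := hset h5' e1
        rw [Sym2.eq_swap (a := w) (b := v)] at e2
        tauto
      · have e1 := tri h2 h1 h3.symm h3' h1'.symm h2'.symm h5'
        have e2 := hset h5' e1
        rw [Sym2.eq_swap (a := v') (b := u'), Sym2.eq_swap (a := w) (b := v)] at e2
        tauto
      · have e1 := tri h3 h1.symm h2.symm h1' h2' h3' h5'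
        have e2 := hset h5' e1
        tauto
      · have e1 := tri h3 h1.symm h2.symm h2' h1' h3'.symm h5'
        have e2 := hset h5' e1
        rw [Sym2.eq_swap (a := v) (b := u), Sym2.eq_swap (a := w) (b := u)] at e2
        tauto
      · have e1 := tri h3 h1.symm h2.symm h3' h1'.symm h2'.symm h5'
        have e2 := hset h5' e1
        rw [Sym2.eq_swap (a := v') (b := u'), Sym2.eq_swap (a := v) (b := u),
          Sym2.eq_swap (a := w) (b := u)] at e2
        tauto
    exact (Finset.card_le_card hsub).trans Finset.card_le_three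
  rw [Finset.card_sdiff_of_subset hsub1, Finset.card_sdiff_of_subset hsub2] at hle
  have hc1 := Finset.card_le_card hsub1
  have hc2 := Finset.card_le_card hsub2
  have hnc : G.edgeSet.ncard = #G.edgeFinset := by
    rw [← SimpleGraph.coe_edgeFinset, Set.ncard_coe_finset]
  have hpos : 0 < Fintype.card V := Fintype.card_pos
  rw [hnc]
  omega

end Pool.Agent.R41
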