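import Pool.Agent.R41.Cyc

/-!
MP_0fee77: the cycle `C_q` with `k` pendant triangle gadgets at one vertex.
-/

set_option autoImplicit false

namespace Pool.Agent.R41

open SimpleGraph Finset

/-- oriented adjacency (smaller end first, except for `0, q - 1`) -/
def gadA (q : ℕ) (u v : ℕ) : Prop :=
  (v < q ∧ v = u + 1) ∨ (u = 0 ∧ v + 1 = q) ∨ (u = 0 ∧ q ≤ v ∧ (v - q) % 4 ≤ 1) ∨
    (q ≤ u ∧ (u - q) % 4 = 0 ∧ v = u + 1) ∨ (q ≤ u ∧ (u - q) % 4 ≤ 1 ∧ v = u + 2)

/-- The gadget graph: a cycle `0, …, q - 1` and, for every `j`, the vertices `t = q + 4 j`,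
`t' = t + 1`, `t + 2`, `t + 3` with the triangle `0 t t'` and the pendant edges `t (t+2)` and
`t' (t+3)`. -/
def gad (q k : ℕ) (hq : 3 ≤ q) : SimpleGraph (Fin (q + 4 * k)) where
  Adj u v := gadA q u.val v.val ∨ gadA q v.val u.val
  symm := ⟨fun _ _ h => h.symm⟩
  loopless := ⟨fun u h => by unfold gadA at h; omega⟩

/-- the vertex `0` -/
def z0 (q k : ℕ) (hq : 3 ≤ q) : Fin (q + 4 * k) := ⟨0, by omega⟩

/-- list of the edges -/
def edgeFun (q k : ℕ) (hq : 3 ≤ q) : Fin q ⊕ (Fin k × Fin 5) → Sym2 (Fin (q + 4 * k))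
  | Sum.inl i => if h : i.val + 1 < q then s(⟨i.val, by omega⟩, ⟨i.val + 1, by omega⟩)
      else s(⟨0, by omega⟩, ⟨i.val, by omega⟩)
  | Sum.inr (j, 0) => s(⟨0, by omega⟩, ⟨q + 4 * j.val, by omega⟩)
  | Sum.inr (j, 1) => s(⟨0, by omega⟩, ⟨q + 4 * j.val + 1, by omega⟩)
  | Sum.inr (j, 2) => s(⟨q + 4 * j.val, by omega⟩, ⟨q + 4 * j.val + 1, by omega⟩)
  | Sum.inr (j, 3) => s(⟨q + 4 * j.val, by omega⟩, ⟨q + 4 * j.val + 2, by omega⟩)
  | Sum.inr (j, 4) => s(⟨q + 4 * j.val + 1, by omega⟩, ⟨q + 4 * j.val + 3, by omega⟩)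

variable {q k : ℕ} {hq : 3 ≤ q}

lemma gad_adj (u v : Fin (q + 4 * k)) : (gad q k hq).Adj u v ↔
    (gadA q u.val v.val ∨ gadA q v.val u.val) := Iff.rfl

/-- neighbours, as natural numbers -/
def nb (q x y : ℕ) : Prop := gadA q x y ∨ gadA q y x

/-- height -/
def ht (q i v : ℕ) : ℕ :=
  if v < i then v else if v = 0 then 0 else if v < q then q - v
    else if (v - q) % 4 ≤ 1 then 1 else 2

lemma ht_lt {q i v : ℕ} (h : v < i) : ht q i v = v := by unfold ht; rw [if_pos h]

lemma ht_zero {q i : ℕ} : ht q i 0 = 0 := by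
  unfold ht
  split_ifs <;> simp_all

lemma ht_gt {q i v : ℕ} (h : i ≤ v) (h0 : v ≠ 0) (hv : v < q) : ht q i v = q - v := by
  unfold ht; rw [if_neg (by omega), if_neg h0, if_pos hv]

lemma ht_tri {q i v : ℕ} (hi : i < q) (hv : q ≤ v) (h : (v - q) % 4 ≤ 1) : ht q i v = 1 := by
  unfold ht; rw [if_neg (by omega), if_neg (by omega), if_neg (by omega), if_pos h]

lemma ht_leaf {q i v : ℕ} (hi : i < q) (hv : q ≤ v) (h : ¬ (v - q) % 4 ≤ 1) : ht q i v = 2 := by
  unfold ht; rw [if_neg (by omega), if_neg (by omega), if_neg (by omega), if_neg h]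

lemma ht_pos {q i v : ℕ} (_hi : i < q) (hv : v ≠ 0) : 1 ≤ ht q i v := by
  unfold ht
  split_ifs <;> omega

lemma nb_base {q x y : ℕ} (hx : x < q) (h0 : x ≠ 0) (h : nb q x y) :
    (y = x + 1 ∧ y < q) ∨ y + 1 = x ∨ (y = 0 ∧ x + 1 = q) := by
  unfold nb gadA at h
  omega

lemma nb_leaf {q x y : ℕ} (hq : 3 ≤ q) (hx : q ≤ x) (h2 : ¬ (x - q) % 4 ≤ 1) (h : nb q x y) :
    y + 2 = x := by
  unfold nb gadA at h
  omega

lemma nb_tri {q x y : ℕ} (hq : 3 ≤ q) (hx : q ≤ x) (h2 : (x - q) % 4 ≤ 1) (h : nb q x y) :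
    y = 0 ∨ ((x - q) % 4 = 0 ∧ y = x + 1) ∨ ((x - q) % 4 = 1 ∧ y + 1 = x) ∨ y = x + 2 := by
  unfold nb gadA at h
  omega

lemma base_next {q i x y : ℕ} (hi : i < q) (hx : x < q) (h0 : x ≠ 0) (hxi : x ≠ i)
    (hyi : y ≠ i) (h : nb q x y) (hle : ht q i y ≤ ht q i x) :
    (x < i ∧ y + 1 = x) ∨ (i < x ∧ ((y = x + 1 ∧ y < q) ∨ (y = 0 ∧ x + 1 = q))) := by
  have h1 := nb_base hx h0 h
  rcases lt_or_gt_of_ne hxi with hlt | hgt
  · rw [ht_lt hlt] at hle
    rcases h1 with h1 | h1 | h1
    · rw [ht_lt (by omega)] at hle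
      omega
    · omega
    · omega
  · rw [ht_gt (by omega) h0 hx] at hle
    rcases h1 with h1 | h1 | h1
    · omega
    · rw [ht_gt (by omega) (by omega) (by omega)] at hle
      omega
    · omega

lemma tri_next {q i x y : ℕ} (hq : 3 ≤ q) (hi : i < q) (hx : q ≤ x) (h2 : (x - q) % 4 ≤ 1) (h : nb q x y)
    (hle : ht q i y ≤ 1) :
    y = 0 ∨ ((x - q) % 4 = 0 ∧ y = x + 1) ∨ ((x - q) % 4 = 1 ∧ y + 1 = x) := by
  rcases nb_tri hq hx h2 h with h1 | h1 | h1 | h1
  · omega
  · omega
  · omega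
  · rw [ht_leaf hi (by omega) (by omega)] at hle
    omega

/-- arithmetic core of `gad_free` -/
lemma core {q i x y z y' z' : ℕ} (hq : 3 ≤ q) (hi : i < q)
    (hxi : x ≠ i) (hyi : y ≠ i) (hzi : z ≠ i)
    (h1 : nb q x y) (h2 : nb q x z) (h3 : nb q y y') (h4 : nb q z z')
    (e1 : ht q i y ≤ ht q i x) (e2 : ht q i z ≤ ht q i x) (e3 : ht q i y' ≤ ht q i x)
    (e4 : ht q i z' ≤ ht q i x) (n1 : z ≠ y) (n2 : y' ≠ z) (n3 : z' ≠ y) (n4 : y' ≠ x)
    (n5 : z' ≠ x) : False := by
  by_cases h0 : x = 0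
  · subst h0
    rw [ht_zero] at e1 e2
    have a1 : y = 0 := by
      by_contra hcon
      have := ht_pos hi hcon
      omega
    have a2 : z = 0 := by
      by_contra hcon
      have := ht_pos hi hcon
      omega
    omega
  by_cases c1 : x < q
  · have b1 := base_next hi c1 h0 hxi hyi h1 e1
    have b2 := base_next hi c1 h0 hxi hzi h2 e2
    omega
  have c1' : q ≤ x := by omega
  by_cases c2 : (x - q) % 4 ≤ 1
  · rw [ht_tri hi c1' c2] at e1 e2 e3 e4
    have b1 := tri_next hq hi c1' c2 h1 e1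
    have b2 := tri_next hq hi c1' c2 h2 e2
    rcases b1 with b1 | b1
    · rcases b2 with b2 | b2
      · omega
      · have b3 := tri_next (x := z) hq hi (by omega) (by omega) h4 e4
        omega
    · rcases b2 with b2 | b2
      · have b3 := tri_next (x := y) hq hi (by omega) (by omega) h3 e3
        omega
      · omega
  · have b1 := nb_leaf hq c1' c2 h1
    have b2 := nb_leaf hq c1' c2 h2
    omega

/-- No cycle of length `4, …, q - 1`. -/
lemma gad_free {m : ℕ} (h4 : 4 ≤ m) (hm : m < q) : ¬ (cycleGraph m).IsContained (gad q k hq) := by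
  intro hc
  obtain ⟨f, hinj, hadj⟩ := fun_of_contained (by omega) hc
  have : NeZero m := ⟨by omega⟩
  have h3 : ((3 : ℕ) : ZMod m) ≠ 0 := natCast_ne_zero (by omega) (by omega)
  have h2 : ((2 : ℕ) : ZMod m) ≠ 0 := natCast_ne_zero (by omega) (by omega)
  -- a missing vertex of the base cycle
  obtain ⟨i, hi, hmiss⟩ : ∃ i, i < q ∧ ∀ a, (f a).val ≠ i := by
    by_contra hcon
    push Not at hcon
    choose g hg using hcon
    have : Function.Injective (fun i : Fin q => g i.val i.isLt) := by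
      intro a b hab
      have h1 := hg a.val a.isLt
      have h2 := hg b.val b.isLt
      simp only at hab
      rw [hab, h2] at h1
      exact Fin.ext h1.symm
    have hcard := Fintype.card_le_of_injective _ this
    rw [Fintype.card_fin, ZMod.card] at hcard
    omega
  obtain ⟨a, ha⟩ := Finite.exists_max (fun a => ht q i (f a).val)
  have hadj1 := hadj a
  have hadj0 := hadj (a - 1)
  rw [sub_add_cancel] at hadj0
  have hne1 : f (a - 1) ≠ f (a + 1) := by
    intro h
    have := hinj h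
    apply h2
    have h5 : a - 1 + 1 = a + 1 + 1 := by rw [this]
    have h6 : a = a + ((2 : ℕ) : ZMod m) := by
      rw [sub_add_cancel] at h5
      push_cast
      rw [show a + 1 + 1 = a + 2 by ring] at h5
      exact h5
    simpa using h6.symm
  have hadj2 := hadj (a + 1)
  have hadjm := hadj (a - 1 - 1)
  rw [sub_add_cancel] at hadjm
  have hne2 : f (a + 1 + 1) ≠ f (a - 1) := by
    intro h
    have := hinj h
    apply h3
    have h5 : a + 1 + 1 + 1 = a - 1 + 1 := by rw [this]
    rw [sub_add_cancel, show a + 1 + 1 + 1 = a + ((3 : ℕ) : ZMod m) by push_cast; ring] at h5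
    simpa using h5
  have hne3 : f (a - 1 - 1) ≠ f (a + 1) := by
    intro h
    have := hinj h
    apply h3
    have h5 : a - 1 - 1 + 1 + 1 = a + 1 + 1 + 1 := by rw [this]
    rw [sub_add_cancel, sub_add_cancel,
      show a + 1 + 1 + 1 = a + ((3 : ℕ) : ZMod m) by push_cast; ring] at h5
    simpa using h5.symm
  have hne4 : f (a + 1 + 1) ≠ f a := by
    intro h
    have := hinj h
    apply h2
    rw [show a + 1 + 1 = a + ((2 : ℕ) : ZMod m) by push_cast; ring] at this
    simpa using this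
  have hne5 : f (a - 1 - 1) ≠ f a := by
    intro h
    have := hinj h
    apply h2
    have h5 : a - 1 - 1 + 1 + 1 = a + 1 + 1 := by rw [this]
    rw [sub_add_cancel, sub_add_cancel,
      show a + 1 + 1 = a + ((2 : ℕ) : ZMod m) by push_cast; ring] at h5
    simpa using h5.symm
  have m0 := hmiss a
  have m1 := hmiss (a + 1)
  have m2 := hmiss (a - 1)
  have e1 := ha (a + 1)
  have e2 := ha (a - 1)
  have e3 := ha (a + 1 + 1)
  have e4 := ha (a - 1 - 1)
  rw [ne_eq, Fin.ext_iff] at hne1 hne2 hne3 hne4 hne5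
  rw [gad_adj] at hadj0 hadj1 hadj2 hadjm
  exact core hq hi m0 m1 m2 hadj1 hadj0.symm hadj2 hadjm.symm e1 e2 e3 e4 hne1 hne2 hne3 hne4 hne5

/-- segments of the base cycle -/
lemma seg (x y : Fin (q + 4 * k)) (hxy : x.val ≤ y.val) (hy : y.val < q) :
    PP (gad q k hq) (fun v => x.val ≤ v.val ∧ v.val ≤ y.val) x y (y.val - x.val) := by
  have h := PP.of_fun (G := gad q k hq) (S := fun v => x.val ≤ v.val ∧ v.val ≤ y.val)
    (fun j => if hj : x.val + j < q + 4 * k then ⟨x.val + j, hj⟩ else x) (y.val - x.val)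
    (fun j hj => by
      rw [dif_pos (by omega), dif_pos (by omega), gad_adj]
      unfold gadA
      simp only
      omega)
    (fun i j hi hj hij => by
      rw [dif_pos (by omega), dif_pos (by omega), Fin.ext_iff] at hij
      simp only at hij
      omega)
    (fun j hj => by
      rw [dif_pos (by omega)]
      simp only
      omega)
  have e1 : (if hj : x.val + 0 < q + 4 * k then (⟨x.val + 0, hj⟩ : Fin (q + 4 * k)) else x) = x := by
    rw [dif_pos (by omega)]
    rfl
  have e2 : (if hj : x.val + (y.val - x.val) < q + 4 * k then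
      (⟨x.val + (y.val - x.val), hj⟩ : Fin (q + 4 * k)) else x) = y := by
    rw [dif_pos (by omega)]
    apply Fin.ext
    simp only
    omega
  rw [e1, e2] at h
  exact h

lemma A_succ {q u v : ℕ} (h : v < q) (h2 : v = u + 1) : gadA q u v := Or.inl ⟨h, h2⟩

lemma A_close {q u v : ℕ} (h : u = 0) (h2 : v + 1 = q) : gadA q u v := Or.inr (Or.inl ⟨h, h2⟩)

lemma A_zero {q u v : ℕ} (h : u = 0) (h1 : q ≤ v) (h2 : (v - q) % 4 ≤ 1) : gadA q u v :=
  Or.inr (Or.inr (Or.inl ⟨h, h1, h2⟩))

lemma A_tt {q u v : ℕ} (h : q ≤ u) (h1 : (u - q) % 4 = 0) (h2 : v = u + 1) : gadA q u v :=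
  Or.inr (Or.inr (Or.inr (Or.inl ⟨h, h1, h2⟩)))

lemma A_tl {q u v : ℕ} (h : q ≤ u) (h1 : (u - q) % 4 ≤ 1) (h2 : v = u + 2) : gadA q u v :=
  Or.inr (Or.inr (Or.inr (Or.inr ⟨h, h1, h2⟩)))

lemma z0_val : (z0 q k hq).val = 0 := rfl

/-- going up to the vertex `0` -/
lemma up (x : Fin (q + 4 * k)) (hx : 1 ≤ x.val) (hxq : x.val < q) :
    PP (gad q k hq) (fun v => v.val < q ∧ (v.val = 0 ∨ x.val ≤ v.val)) x (z0 q k hq)
      (q - x.val) := by
  obtain ⟨w, hw⟩ : ∃ w : Fin (q + 4 * k), w.val = q - 1 := ⟨⟨q - 1, by omega⟩, rfl⟩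
  have h1 : PP (gad q k hq) (fun v => x.val ≤ v.val ∧ v.val ≤ w.val) x w
      (w.val - x.val) := seg x w (by omega) (by omega)
  have h2 : PP (gad q k hq) (fun v => v.val = 0 ∨ v.val = q - 1) w (z0 q k hq) 1 := by
    refine PP.one ?_ ?_ ?_
    · exact Or.inr (A_close rfl (by omega))
    · right; exact hw
    · left; rfl
  have h3 := h1.trans h2 (by
    intro v hv hv'
    apply Fin.ext
    omega)
  rw [show w.val - x.val + 1 = q - x.val by omega] at h3
  refine h3.mono ?_
  intro v hv
  omega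

/-- going down to the vertex `0` -/
lemma down (x : Fin (q + 4 * k)) (hxq : x.val < q) :
    PP (gad q k hq) (fun v => v.val < q) x (z0 q k hq) x.val := by
  have h1 := (seg (hq := hq) (z0 q k hq) x (by rw [z0_val]; omega) hxq).symm
  rw [z0_val, Nat.sub_zero] at h1
  refine h1.mono ?_
  intro v hv
  have := hv.2
  omega

/-- paths from `0` into a gadget -/
lemma gpath (g : Fin (q + 4 * k)) (hg : q ≤ g.val) :
    ∃ s, ((s = 1 ∧ (g.val - q) % 4 ≤ 1) ∨ (s = 2 ∧ 2 ≤ (g.val - q) % 4)) ∧
      PP (gad q k hq) (fun v => v.val = 0 ∨ (q ≤ v.val ∧ (v.val - q) / 4 = (g.val - q) / 4))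
        (z0 q k hq) g s ∧
      PP (gad q k hq) (fun v => v.val = 0 ∨ (q ≤ v.val ∧ (v.val - q) / 4 = (g.val - q) / 4))
        (z0 q k hq) g (s + 1) := by
  have hg2 := g.isLt
  have hzg : z0 q k hq ≠ g := by
    intro h
    have := congrArg Fin.val h
    rw [z0_val] at this
    omega
  have hc : (g.val - q) % 4 = 0 ∨ (g.val - q) % 4 = 1 ∨ (g.val - q) % 4 = 2 ∨
      (g.val - q) % 4 = 3 := by omega
  rcases hc with hc | hc | hc | hc
  · obtain ⟨w, hw⟩ : ∃ w : Fin (q + 4 * k), w.val = g.val + 1 := ⟨⟨g.val + 1, by omega⟩, rfl⟩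
    refine ⟨1, by omega, ?_, ?_⟩
    · exact PP.one (Or.inl (A_zero rfl hg (by omega))) (Or.inl rfl) (Or.inr ⟨hg, rfl⟩)
    · exact PP.two (b := w) (Or.inl (A_zero rfl (by omega) (by omega)))
        (Or.inr (A_tt hg hc hw)) hzg (Or.inl rfl) (Or.inr (by omega))
        (Or.inr ⟨hg, rfl⟩)
  · obtain ⟨w, hw⟩ : ∃ w : Fin (q + 4 * k), w.val = g.val - 1 := ⟨⟨g.val - 1, by omega⟩, rfl⟩
    refine ⟨1, by omega, ?_, ?_⟩
    · exact PP.one (Or.inl (A_zero rfl hg (by omega))) (Or.inl rfl) (Or.inr ⟨hg, rfl⟩)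
    · exact PP.two (b := w) (Or.inl (A_zero rfl (by omega) (by omega)))
        (Or.inl (A_tt (by omega) (by omega) (by omega))) hzg (Or.inl rfl) (Or.inr (by omega))
        (Or.inr ⟨hg, rfl⟩)
  · obtain ⟨w, hw⟩ : ∃ w : Fin (q + 4 * k), w.val = g.val - 1 := ⟨⟨g.val - 1, by omega⟩, rfl⟩
    obtain ⟨w2, hw2⟩ : ∃ w : Fin (q + 4 * k), w.val = g.val - 2 := ⟨⟨g.val - 2, by omega⟩, rfl⟩
    have hz2 : z0 q k hq ≠ w2 := by
      intro h
      have := congrArg Fin.val h
      rw [z0_val] at this
      omega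
    have hwg : w ≠ g := by
      intro h
      have := congrArg Fin.val h
      omega
    refine ⟨2, by omega, ?_, ?_⟩
    · exact PP.two (b := w2) (Or.inl (A_zero rfl (by omega) (by omega)))
        (Or.inl (A_tl (by omega) (by omega) (by omega))) hzg (Or.inl rfl) (Or.inr (by omega))
        (Or.inr ⟨hg, rfl⟩)
    · exact PP.three (b := w) (c := w2) (Or.inl (A_zero rfl (by omega) (by omega)))
        (Or.inr (A_tt (by omega) (by omega) (by omega)))
        (Or.inl (A_tl (by omega) (by omega) (by omega))) hz2 hzg hwg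
        (Or.inl rfl) (Or.inr (by omega)) (Or.inr (by omega)) (Or.inr ⟨hg, rfl⟩)
  · obtain ⟨w, hw⟩ : ∃ w : Fin (q + 4 * k), w.val = g.val - 3 := ⟨⟨g.val - 3, by omega⟩, rfl⟩
    obtain ⟨w2, hw2⟩ : ∃ w : Fin (q + 4 * k), w.val = g.val - 2 := ⟨⟨g.val - 2, by omega⟩, rfl⟩
    have hz2 : z0 q k hq ≠ w2 := by
      intro h
      have := congrArg Fin.val h
      rw [z0_val] at this
      omega
    have hwg : w ≠ g := by
      intro h
      have := congrArg Fin.val h
      omega
    refine ⟨2, by omega, ?_, ?_⟩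
    · exact PP.two (b := w2) (Or.inl (A_zero rfl (by omega) (by omega)))
        (Or.inl (A_tl (by omega) (by omega) (by omega))) hzg (Or.inl rfl) (Or.inr (by omega))
        (Or.inr ⟨hg, rfl⟩)
    · exact PP.three (b := w) (c := w2) (Or.inl (A_zero rfl (by omega) (by omega)))
        (Or.inl (A_tt (by omega) (by omega) (by omega)))
        (Or.inl (A_tl (by omega) (by omega) (by omega))) hz2 hzg hwg
        (Or.inl rfl) (Or.inr (by omega)) (Or.inr (by omega)) (Or.inr ⟨hg, rfl⟩)

lemma not_A {q x y : ℕ} (h : ¬ gadA q x y) :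
    ¬ (y < q ∧ y = x + 1) ∧ ¬ (x = 0 ∧ y + 1 = q) ∧ ¬ (x = 0 ∧ q ≤ y ∧ (y - q) % 4 ≤ 1) ∧
      ¬ (q ≤ x ∧ (x - q) % 4 = 0 ∧ y = x + 1) ∧ ¬ (q ≤ x ∧ (x - q) % 4 ≤ 1 ∧ y = x + 2) := by
  unfold gadA at h
  tauto

lemma same_cases {q x y : ℕ} (hxq : q ≤ x) (hxy : x < y) (hsame : (x - q) / 4 = (y - q) / 4)
    (h : ¬ gadA q x y) : ((x - q) % 4 = 0 ∧ y = x + 3) ∨
            ((x - q) % 4 = 1 ∧ y = x + 1) ∨
            ((x - q) % 4 = 2 ∧ y = x + 1) := by
  obtain ⟨-, -, -, h4, h5⟩ := not_A h
  omega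

/-- Nonadjacent vertices are joined by a path of length in `[3, q - 2]`. -/
lemma gad_path (hq7 : 7 ≤ q) (x y : Fin (q + 4 * k)) (hxy : x.val < y.val)
    (hn : ¬ (gad q k hq).Adj x y) :
    ∃ L, 3 ≤ L ∧ L + 2 ≤ q ∧ PP (gad q k hq) (fun _ => True) x y L := by
  have hn' : ¬ gadA q x.val y.val := fun h => hn (Or.inl h)
  obtain ⟨n1, n2, n3, n4, n5⟩ := not_A hn'
  have hxlt := x.isLt
  have hylt := y.isLt
  by_cases hyq : y.val < q
  · -- both in the base
    by_cases h3 : 3 ≤ y.val - x.val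
    · refine ⟨y.val - x.val, h3, by omega, (seg x y hxy.le hyq).mono (fun _ _ => trivial)⟩
    · have hd : y.val = x.val + 2 := by omega
      have h1 := up (hq := hq) y (by omega) hyq
      have h2 := (seg (hq := hq) (z0 q k hq) x (by rw [z0_val]; omega) (by omega))
      rw [z0_val, Nat.sub_zero] at h2
      have h4 := h1.trans h2 (by
        intro v hv hv'
        apply Fin.ext
        rw [z0_val]
        omega)
      exact ⟨_, by omega, by omega, (h4.symm).mono (fun _ _ => trivial)⟩
  · have hyq' : q ≤ y.val := by omega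
    obtain ⟨s, hs, hs1, hs2⟩ := gpath (hq := hq) y hyq'
    by_cases hxq : x.val < q
    · by_cases hx0 : x.val = 0
      · have hxz : x = z0 q k hq := Fin.ext hx0
        rw [hxz]
        exact ⟨s + 1, by omega, by omega, hs2.mono (fun _ _ => trivial)⟩
      · -- distance a to zero
        obtain ⟨a, ha1, ha2, ha3⟩ : ∃ a, 1 ≤ a ∧ 2 * a ≤ q ∧
            PP (gad q k hq) (fun v => v.val < q) x (z0 q k hq) a := by
          by_cases hh : 2 * x.val ≤ q
          · exact ⟨x.val, by omega, hh, down x hxq⟩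
          · exact ⟨q - x.val, by omega, by omega,
              (up x (by omega) hxq).mono (fun v hv => hv.1)⟩
        have hdis : ∀ v : Fin (q + 4 * k), v.val < q →
            (v.val = 0 ∨ (q ≤ v.val ∧ (v.val - q) / 4 = (y.val - q) / 4)) → v = z0 q k hq := by
          intro v h1 h2
          apply Fin.ext
          rw [z0_val]
          omega
        by_cases h3 : 3 ≤ a + s
        · exact ⟨a + s, h3, by omega, (ha3.trans hs1 hdis).mono (fun _ _ => trivial)⟩
        · exact ⟨a + (s + 1), by omega, by omega,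
            (ha3.trans hs2 hdis).mono (fun _ _ => trivial)⟩
    · have hxq' : q ≤ x.val := by omega
      have hxz : x ≠ z0 q k hq := by
        intro h
        have := congrArg Fin.val h
        rw [z0_val] at this
        omega
      have hyz : z0 q k hq ≠ y := by
        intro h
        have := congrArg Fin.val h
        rw [z0_val] at this
        omega
      have hxyne : x ≠ y := by
        intro h
        rw [h] at hxy
        omega
      by_cases hsame : (x.val - q) / 4 = (y.val - q) / 4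
      · -- same gadget
        have hcases := same_cases hxq' hxy hsame hn'
        rcases hcases with ⟨h1, h2⟩ | ⟨h1, h2⟩ | ⟨h1, h2⟩
        · obtain ⟨w, hw⟩ : ∃ w : Fin (q + 4 * k), w.val = x.val + 1 :=
            ⟨⟨x.val + 1, by omega⟩, rfl⟩
          have hxw : x ≠ w := by
            intro h
            have := congrArg Fin.val h
            omega
          exact ⟨3, le_rfl, by omega, PP.three (b := z0 q k hq) (c := w)
            (Or.inr (A_zero rfl (by omega) (by omega)))
            (Or.inl (A_zero rfl (by omega) (by omega)))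
            (Or.inl (A_tl (by omega) (by omega) (by omega)))
            hxw hxyne hyz trivial trivial trivial trivial⟩
        · obtain ⟨w, hw⟩ : ∃ w : Fin (q + 4 * k), w.val = x.val - 1 :=
            ⟨⟨x.val - 1, by omega⟩, rfl⟩
          have hxw : x ≠ w := by
            intro h
            have := congrArg Fin.val h
            omega
          exact ⟨3, le_rfl, by omega, PP.three (b := z0 q k hq) (c := w)
            (Or.inr (A_zero rfl (by omega) (by omega)))
            (Or.inl (A_zero rfl (by omega) (by omega)))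
            (Or.inl (A_tl (by omega) (by omega) (by omega)))
            hxw hxyne hyz trivial trivial trivial trivial⟩
        · obtain ⟨w, hw⟩ : ∃ w : Fin (q + 4 * k), w.val = x.val - 1 :=
            ⟨⟨x.val - 1, by omega⟩, rfl⟩
          obtain ⟨w2, hw2⟩ : ∃ w : Fin (q + 4 * k), w.val = x.val - 2 :=
            ⟨⟨x.val - 2, by omega⟩, rfl⟩
          have hxw : x ≠ w := by
            intro h
            have := congrArg Fin.val h
            omega
          have hyw : w2 ≠ y := by
            intro h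
            have := congrArg Fin.val h
            omega
          exact ⟨3, le_rfl, by omega, PP.three (b := w2) (c := w)
            (Or.inr (A_tl (by omega) (by omega) (by omega)))
            (Or.inl (A_tt (by omega) (by omega) (by omega)))
            (Or.inl (A_tl (by omega) (by omega) (by omega)))
            hxw hxyne hyw trivial trivial trivial trivial⟩
      · obtain ⟨t, ht, ht1, ht2⟩ := gpath (hq := hq) x hxq'
        have hdis : ∀ v : Fin (q + 4 * k),
            (v.val = 0 ∨ (q ≤ v.val ∧ (v.val - q) / 4 = (x.val - q) / 4)) →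
            (v.val = 0 ∨ (q ≤ v.val ∧ (v.val - q) / 4 = (y.val - q) / 4)) → v = z0 q k hq := by
          intro v h1 h2
          apply Fin.ext
          rw [z0_val]
          omega
        by_cases h3 : 3 ≤ t + s
        · exact ⟨t + s, h3, by omega, (ht1.symm.trans hs1 hdis).mono (fun _ _ => trivial)⟩
        · exact ⟨t + (s + 1), by omega, by omega,
            (ht1.symm.trans hs2 hdis).mono (fun _ _ => trivial)⟩

lemma gad_edges : (gad q k hq).edgeSet.ncard ≤ q + 5 * k := by
  have key : ∀ u v : Fin (q + 4 * k), gadA q u.val v.val → s(u, v) ∈ Set.range (edgeFun q k hq) := by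
    intro u v h
    have hu := u.isLt
    have hv := v.isLt
    unfold gadA at h
    rcases h with h | h | h | h | h
    · refine ⟨Sum.inl ⟨u.val, by omega⟩, ?_⟩
      simp only [edgeFun]
      rw [dif_pos (by omega)]
      congr 1
      ext <;> simp [h.2]
    · refine ⟨Sum.inl ⟨v.val, by omega⟩, ?_⟩
      simp only [edgeFun]
      rw [dif_neg (by omega)]
      congr 1
      ext <;> simp [h.1]
    · by_cases h0 : (v.val - q) % 4 = 0
      · refine ⟨Sum.inr (⟨(v.val - q) / 4, by omega⟩, 0), ?_⟩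
        simp only [edgeFun]
        congr 1
        ext
        · simp [h.1]
        · first | (apply Fin.ext; dsimp only; omega) | (dsimp only; omega)
      · refine ⟨Sum.inr (⟨(v.val - q) / 4, by omega⟩, 1), ?_⟩
        simp only [edgeFun]
        congr 1
        ext
        · simp [h.1]
        · first | (apply Fin.ext; dsimp only; omega) | (dsimp only; omega)
    · refine ⟨Sum.inr (⟨(u.val - q) / 4, by omega⟩, 2), ?_⟩
      simp only [edgeFun]
      congr 1
      ext
      · first | (apply Fin.ext; dsimp only; omega) | (dsimp only; omega)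
      · first | (apply Fin.ext; dsimp only; omega) | (dsimp only; omega)
    · by_cases h0 : (u.val - q) % 4 = 0
      · refine ⟨Sum.inr (⟨(u.val - q) / 4, by omega⟩, 3), ?_⟩
        simp only [edgeFun]
        congr 1
        ext
        · first | (apply Fin.ext; dsimp only; omega) | (dsimp only; omega)
        · first | (apply Fin.ext; dsimp only; omega) | (dsimp only; omega)
      · refine ⟨Sum.inr (⟨(u.val - q) / 4, by omega⟩, 4), ?_⟩
        simp only [edgeFun]
        congr 1
        ext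
        · first | (apply Fin.ext; dsimp only; omega) | (dsimp only; omega)
        · first | (apply Fin.ext; dsimp only; omega) | (dsimp only; omega)
  have hsub : (gad q k hq).edgeSet ⊆ Set.range (edgeFun q k hq) := by
    intro e he
    induction e using Sym2.ind with
    | _ u v =>
    rw [SimpleGraph.mem_edgeSet, gad_adj] at he
    rcases he with he | he
    · exact key u v he
    · rw [Sym2.eq_swap]
      exact key v u he
  calc (gad q k hq).edgeSet.ncard ≤ (Set.range (edgeFun q k hq)).ncard :=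
        Set.ncard_le_ncard hsub (Set.toFinite _)
    _ ≤ Nat.card (Fin q ⊕ (Fin k × Fin 5)) := by
        rw [← Nat.card_coe_set_eq]
        exact Finite.card_range_le _
    _ = q + 5 * k := by simp; ring

end Pool.Agent.R41
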