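import Mathlib

/-!
Decomposition of an even graph of maximum degree at most `2 k` into `k` graphs all of whose
degrees are `0` or `2` (Petersen). The lemmas `konig` and `orient` are copied from
`Pool/Agent/H931R3/LAPet.lean` and `Pool/Agent/W111/LAR/Dec.lean`.
-/

set_option autoImplicit false

namespace Pool.Agent.R41.Even

open SimpleGraph

/-- Koenig: a regular bipartite multigraph is the union of perfect matchings. -/
theorem konig {V E : Type} [Fintype V] [DecidableEq V] [DecidableEq E] (l r : E → V) :
    ∀ (m : ℕ) (A : Finset E), (∀ v, (A.filter (fun e => l e = v)).card = m) →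
    (∀ v, (A.filter (fun e => r e = v)).card = m) →
    ∃ ℓ : E → ℕ, (∀ e ∈ A, ℓ e < m) ∧
      (∀ e ∈ A, ∀ e' ∈ A, l e = l e' → ℓ e = ℓ e' → e = e') ∧
      (∀ e ∈ A, ∀ e' ∈ A, r e = r e' → ℓ e = ℓ e' → e = e') := by
  intro m
  induction m with
  | zero =>
    intro A h1 _
    have hA : ∀ e, e ∉ A := by
      intro e he
      have := h1 (l e)
      rw [Finset.card_eq_zero] at this
      have h2 : e ∈ A.filter (fun x => l x = l e) := Finset.mem_filter.mpr ⟨he, rfl⟩
      rw [this] at h2
      exact absurd h2 (Finset.notMem_empty _)
    exact ⟨fun _ => 0, fun e he => absurd he (hA e), fun e he => absurd he (hA e),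
      fun e he => absurd he (hA e)⟩
  | succ m ih =>
    intro A h1 h2
    let t : V → Finset V := fun v => (A.filter (fun e => l e = v)).image r
    have hall : ∀ S : Finset V, S.card ≤ (S.biUnion t).card := by
      intro S
      have hB : (A.filter (fun e => l e ∈ S)).card = S.card * (m + 1) := by
        rw [Finset.card_eq_sum_card_fiberwise (f := l) (t := S)]
        · have : ∀ v ∈ S, ((A.filter (fun e => l e ∈ S)).filter (fun e => l e = v)).card
              = m + 1 := by
            intro v hv
            rw [← h1 v, Finset.filter_filter]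
            congr 1
            ext e
            simp only [Finset.mem_filter]
            constructor
            · rintro ⟨a, _, b⟩; exact ⟨a, b⟩
            · rintro ⟨a, b⟩; exact ⟨a, b ▸ hv, b⟩
          rw [Finset.sum_congr rfl this, Finset.sum_const, smul_eq_mul]
        · intro e he
          have := (Finset.mem_filter.mp he).2
          exact this
      have hB2 : (A.filter (fun e => l e ∈ S)).card ≤ (m + 1) * (S.biUnion t).card := by
        refine Finset.card_le_mul_card_image_of_maps_to (f := r) ?_ (m + 1) ?_
        · intro e he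
          obtain ⟨ha, hs⟩ := Finset.mem_filter.mp he
          rw [Finset.mem_biUnion]
          exact ⟨l e, hs, Finset.mem_image.mpr ⟨e, Finset.mem_filter.mpr ⟨ha, rfl⟩, rfl⟩⟩
        · intro w _
          rw [← h2 w]
          refine Finset.card_le_card ?_
          intro e he
          simp only [Finset.mem_filter] at he ⊢
          exact ⟨he.1.1, he.2⟩
      rw [hB] at hB2
      nlinarith
    obtain ⟨g, hg1, hg2⟩ := (Finset.all_card_le_biUnion_card_iff_exists_injective t).mp hall
    have hg3 : ∀ v, ∃ e, e ∈ A ∧ l e = v ∧ r e = g v := by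
      intro v
      have := hg2 v
      simp only [t, Finset.mem_image, Finset.mem_filter] at this
      obtain ⟨e, ⟨h1, h2⟩, h3⟩ := this
      exact ⟨e, h1, h2, h3⟩
    choose e he1 he2 he3 using hg3
    have hgb : Function.Bijective g := Finite.injective_iff_bijective.mp hg1
    let A' : Finset E := A.filter (fun x => ∀ v, x ≠ e v)
    have hA' : ∀ x, x ∈ A' ↔ x ∈ A ∧ ∀ v, x ≠ e v := fun x => Finset.mem_filter
    have c1 : ∀ v, (A'.filter (fun x => l x = v)).card = m := by
      intro v
      have h3 : A'.filter (fun x => l x = v) = (A.filter (fun x => l x = v)).erase (e v) := by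
        ext x
        rw [Finset.mem_filter, hA', Finset.mem_erase, Finset.mem_filter]
        constructor
        · rintro ⟨⟨a, b⟩, d⟩; exact ⟨b v, a, d⟩
        · rintro ⟨a, b, d⟩
          refine ⟨⟨b, ?_⟩, d⟩
          rintro w rfl
          rw [he2] at d
          exact a (by rw [d])
      rw [h3, Finset.card_erase_of_mem (Finset.mem_filter.mpr ⟨he1 v, he2 v⟩), h1 v]
      rfl
    have c2 : ∀ w, (A'.filter (fun x => r x = w)).card = m := by
      intro w
      obtain ⟨v, rfl⟩ := hgb.2 w
      have h3 : A'.filter (fun x => r x = g v) = (A.filter (fun x => r x = g v)).erase (e v) := by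
        ext x
        rw [Finset.mem_filter, hA', Finset.mem_erase, Finset.mem_filter]
        constructor
        · rintro ⟨⟨a, b⟩, d⟩; exact ⟨b v, a, d⟩
        · rintro ⟨a, b, d⟩
          refine ⟨⟨b, ?_⟩, d⟩
          rintro w rfl
          rw [he3] at d
          exact a (by rw [hg1 d])
      rw [h3, Finset.card_erase_of_mem (Finset.mem_filter.mpr ⟨he1 v, he3 v⟩), h2 (g v)]
      rfl
    obtain ⟨ℓ, l1, l2, l3⟩ := ih A' c1 c2
    have hout : ∀ x ∈ A, x ∉ A' → ∃ v, x = e v := by
      intro x hx hx'
      rw [hA'] at hx'
      by_contra hcon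
      push Not at hcon
      exact hx' ⟨hx, hcon⟩
    refine ⟨fun x => if x ∈ A' then ℓ x else m, ?_, ?_, ?_⟩
    · intro x _
      by_cases h : x ∈ A'
      · simp only [h, if_true]
        have := l1 x h
        omega
      · simp only [h, if_false]
        omega
    · intro x hx y hy hl hxy
      by_cases h : x ∈ A'
      · by_cases h' : y ∈ A'
        · simp only [h, h', if_true] at hxy
          exact l2 x h y h' hl hxy
        · simp only [h, h', if_true, if_false] at hxy
          have := l1 x h
          omega
      · by_cases h' : y ∈ A'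
        · simp only [h, h', if_true, if_false] at hxy
          have := l1 y h'
          omega
        · obtain ⟨v, rfl⟩ := hout x hx h
          obtain ⟨w, rfl⟩ := hout y hy h'
          rw [he2, he2] at hl
          rw [hl]
    · intro x hx y hy hl hxy
      by_cases h : x ∈ A'
      · by_cases h' : y ∈ A'
        · simp only [h, h', if_true] at hxy
          exact l3 x h y h' hl hxy
        · simp only [h, h', if_true, if_false] at hxy
          have := l1 x h
          omega
      · by_cases h' : y ∈ A'
        · simp only [h, h', if_true, if_false] at hxy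
          have := l1 y h'
          omega
        · obtain ⟨v, rfl⟩ := hout x hx h
          obtain ⟨w, rfl⟩ := hout y hy h'
          rw [he3, he3] at hl
          rw [hg1 hl]

open Finset in
/-- Balanced orientation of a regular multigraph of even degree. -/
theorem orient {V E : Type} [Fintype V] [DecidableEq V] [Fintype E] [DecidableEq E] (p q : E → V)
    (k : ℕ) (h : ∀ v, (univ.filter (fun e => p e = v)).card +
      (univ.filter (fun e => q e = v)).card = 2 * k) :
    ∃ t : E → Bool, (∀ v, (univ.filter (fun e => (if t e then p e else q e) = v)).card = k) ∧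
      ∀ v, (univ.filter (fun e => (if t e then q e else p e) = v)).card = k := by
  classical
  let T : E → Finset (V × Fin k) := fun e => ({p e, q e} : Finset V) ×ˢ univ
  have hE : ∀ (s : Finset E) (W : Finset V), (∀ e ∈ s, p e ∈ W ∧ q e ∈ W) →
      s.card ≤ W.card * k := by
    intro s W hW
    have h1 : s.card = ∑ v ∈ W, (s.filter (fun e => p e = v)).card :=
      card_eq_sum_card_fiberwise (fun e he => (hW e he).1)
    have h2 : s.card = ∑ v ∈ W, (s.filter (fun e => q e = v)).card :=
      card_eq_sum_card_fiberwise (fun e he => (hW e he).2)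
    have h3 : ∑ v ∈ W, ((s.filter (fun e => p e = v)).card +
        (s.filter (fun e => q e = v)).card) ≤ ∑ v ∈ W, 2 * k := by
      refine sum_le_sum fun v _ => ?_
      rw [← h v]
      exact add_le_add (card_le_card (filter_subset_filter _ (subset_univ _)))
        (card_le_card (filter_subset_filter _ (subset_univ _)))
    rw [sum_add_distrib, ← h1, ← h2, sum_const, smul_eq_mul] at h3
    have h4 : W.card * (2 * k) = 2 * (W.card * k) := by ring
    omega
  have hall : ∀ s : Finset E, s.card ≤ (s.biUnion T).card := by
    intro s
    have h1 : s.biUnion T = (s.biUnion (fun e => ({p e, q e} : Finset V))) ×ˢ univ := by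
      ext ⟨v, i⟩
      simp [T]
    rw [h1, card_product, card_univ, Fintype.card_fin]
    refine hE s _ fun e he => ⟨?_, ?_⟩
    · exact mem_biUnion.2 ⟨e, he, by simp⟩
    · exact mem_biUnion.2 ⟨e, he, by simp⟩
  obtain ⟨f, hf, hfT⟩ := (Finset.all_card_le_biUnion_card_iff_exists_injective T).1 hall
  have htot : Fintype.card E = Fintype.card V * k := by
    have h1 : (univ : Finset E).card = ∑ v ∈ (univ : Finset V), (univ.filter (fun e => p e = v)).card :=
      card_eq_sum_card_fiberwise (fun e _ => mem_univ _)
    have h2 : (univ : Finset E).card = ∑ v ∈ (univ : Finset V), (univ.filter (fun e => q e = v)).card :=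
      card_eq_sum_card_fiberwise (fun e _ => mem_univ _)
    have h3 : ∑ v ∈ (univ : Finset V), ((univ.filter (fun e => p e = v)).card +
        (univ.filter (fun e => q e = v)).card) = ∑ v ∈ (univ : Finset V), 2 * k :=
      sum_congr rfl fun v _ => h v
    rw [sum_add_distrib, ← h1, ← h2, sum_const, smul_eq_mul, card_univ, card_univ] at h3
    have h4 : Fintype.card V * (2 * k) = 2 * (Fintype.card V * k) := by ring
    omega
  have hbij : Function.Bijective f :=
    (Fintype.bijective_iff_injective_and_card f).2 ⟨hf, by
      rw [htot, Fintype.card_prod, Fintype.card_fin]⟩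
  have hmem : ∀ e, (f e).1 = p e ∨ (f e).1 = q e := by
    intro e
    have := hfT e
    simp only [T, mem_product, mem_insert, mem_singleton, mem_univ, and_true] at this
    exact this
  refine ⟨fun e => decide ((f e).1 = p e), ?_⟩
  have htail : ∀ e, (if decide ((f e).1 = p e) = true then p e else q e) = (f e).1 := by
    intro e
    by_cases h1 : (f e).1 = p e
    · simp [h1]
    · rcases hmem e with h2 | h2
      · exact absurd h2 h1
      · rw [if_neg (by simpa using h1), h2]
  have h1 : ∀ v, (univ.filter (fun e => (if decide ((f e).1 = p e) = true then p e else q e)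
      = v)).card = k := by
    intro v
    have h2 : (univ.filter (fun e => (if decide ((f e).1 = p e) = true then p e else q e)
      = v)).card = (({v} : Finset V) ×ˢ (univ : Finset (Fin k))).card := by
      refine card_bij (fun e _ => f e) ?_ ?_ ?_
      · intro e he
        rw [mem_filter, htail] at he
        rw [mem_product, mem_singleton]
        exact ⟨he.2, mem_univ _⟩
      · intro e _ e' _ h
        exact hf h
      · intro x hx
        obtain ⟨e, he⟩ := hbij.2 x
        refine ⟨e, ?_, he⟩
        rw [mem_filter, htail, he]
        simp only [mem_product, mem_singleton, mem_univ, and_true] at hx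
        exact ⟨mem_univ _, hx⟩
    rw [h2, card_product]
    simp
  refine ⟨h1, fun v => ?_⟩
  have h2 : (univ.filter (fun e => (if decide ((f e).1 = p e) = true then p e else q e)
      = v)).card + (univ.filter (fun e => (if decide ((f e).1 = p e) = true then q e else p e)
      = v)).card = 2 * k := by
    rw [← h v]
    simp only [card_filter]
    rw [← sum_add_distrib, ← sum_add_distrib]
    refine sum_congr rfl fun e _ => ?_
    by_cases h3 : (f e).1 = p e
    · simp [h3]
    · simp [h3, add_comm]
  have h5 := h1 v
  have h6 : (univ.filter (fun e => (if decide ((f e).1 = p e) = true then q e else p e)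
      = v)).card = k := by omega
  exact h6


open Finset

/-- An even graph (given by its edge set `D`) all of whose degrees are at most `2 k` is the union
of `k` graphs all of whose degrees are `0` or `2`. -/
theorem even_split {V : Type} [Fintype V] [DecidableEq V] (D : Finset (Sym2 V))
    (hloop : ∀ e ∈ D, ¬ e.IsDiag) (k : ℕ)
    (hev : ∀ v, Even (D.filter (fun e => v ∈ e)).card)
    (hdeg : ∀ v, (D.filter (fun e => v ∈ e)).card ≤ 2 * k) :
    ∃ ℓ : Sym2 V → ℕ, (∀ e ∈ D, ℓ e < k) ∧
      ∀ i v, (∃ e ∈ D, ℓ e = i ∧ v ∈ e) → (D.filter (fun e => ℓ e = i ∧ v ∈ e)).card = 2 := by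
  classical
  let d : V → ℕ := fun v => (D.filter (fun e => v ∈ e)).card
  let E1 := {e : Sym2 V // e ∈ D}
  let p1 : E1 → V := fun e => e.1.out.1
  let q1 : E1 → V := fun e => e.1.out.2
  have hpq : ∀ e : E1, s(p1 e, q1 e) = e.1 := fun e => Quot.out_eq e.1
  have hne : ∀ e : E1, p1 e ≠ q1 e := by
    intro e h
    apply hloop e.1 e.2
    rw [← hpq e]
    exact Sym2.mk_isDiag_iff.2 h
  have hmem : ∀ (e : E1) (v : V), v ∈ e.1 ↔ p1 e = v ∨ q1 e = v := by
    intro e v
    rw [← hpq e, Sym2.mem_iff]
    constructor
    · rintro (h | h)
      · exact Or.inl h.symm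
      · exact Or.inr h.symm
    · rintro (h | h)
      · exact Or.inl h.symm
      · exact Or.inr h.symm
  let L := Σ v : V, Fin (k - d v / 2)
  let E := E1 ⊕ L
  let p : E → V := Sum.elim p1 (fun l => l.1)
  let q : E → V := Sum.elim q1 (fun l => l.1)
  have hreal : ∀ v, (univ.filter (fun e : E1 => p1 e = v)).card +
      (univ.filter (fun e : E1 => q1 e = v)).card = d v := by
    intro v
    rw [← card_union_of_disjoint]
    · refine card_bij (fun e _ => e.1) ?_ ?_ ?_
      · intro e he
        rw [mem_union, mem_filter, mem_filter] at he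
        rw [mem_filter]
        refine ⟨e.2, (hmem e v).2 ?_⟩
        rcases he with h | h
        · exact Or.inl h.2
        · exact Or.inr h.2
      · intro e _ e' _ h
        exact Subtype.ext h
      · intro e he
        rw [mem_filter] at he
        refine ⟨⟨e, he.1⟩, ?_, rfl⟩
        rw [mem_union, mem_filter, mem_filter]
        rcases (hmem ⟨e, he.1⟩ v).1 he.2 with h | h
        · exact Or.inl ⟨mem_univ _, h⟩
        · exact Or.inr ⟨mem_univ _, h⟩
    · rw [Finset.disjoint_left]
      intro e h1 h2
      exact hne e ((mem_filter.1 h1).2.trans (mem_filter.1 h2).2.symm)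
  have hL : ∀ v, (univ.filter (fun l : L => l.1 = v)).card = k - d v / 2 := by
    intro v
    have h2 : (univ.filter (fun l : L => l.1 = v)).card =
        (univ : Finset (Fin (k - d v / 2))).card := by
      symm
      refine card_bij (fun i _ => (⟨v, i⟩ : L)) ?_ ?_ ?_
      · intro i _
        simp
      · intro i _ j _ h
        exact eq_of_heq (Sigma.mk.inj_iff.1 h).2
      · intro x hx
        obtain ⟨_, hx⟩ := mem_filter.1 hx
        subst hx
        exact ⟨x.2, mem_univ _, rfl⟩
    rw [h2, card_univ, Fintype.card_fin]
  obtain ⟨t, ht1, ht2⟩ := orient p q k (by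
    intro v
    have h1 : (univ.filter (fun e : E => p e = v)).card =
        (univ.filter (fun e : E1 => p1 e = v)).card + (univ.filter (fun l : L => l.1 = v)).card := by
      simp only [card_filter]
      rw [Fintype.sum_sum_type]
      rfl
    have h2 : (univ.filter (fun e : E => q e = v)).card =
        (univ.filter (fun e : E1 => q1 e = v)).card + (univ.filter (fun l : L => l.1 = v)).card := by
      simp only [card_filter]
      rw [Fintype.sum_sum_type]
      rfl
    have h3 := hreal v
    have h4 := hL v
    have h5 : d v ≤ 2 * k := hdeg v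
    obtain ⟨r, hr⟩ : Even (d v) := hev v
    rw [h1, h2, h4]
    omega)
  obtain ⟨ℓ, hℓ, hl1, hl2⟩ := konig (fun e => if t e then p e else q e)
    (fun e => if t e then q e else p e) k univ ht1 ht2
  -- every colour appears at every vertex, as a tail and as a head
  have hsurj : ∀ (f : E → V), (∀ v, (univ.filter (fun e => f e = v)).card = k) →
      (∀ e ∈ (univ : Finset E), ∀ e' ∈ (univ : Finset E), f e = f e' → ℓ e = ℓ e' → e = e') →
      ∀ i < k, ∀ v, ∃ e, f e = v ∧ ℓ e = i := by
    intro f hf hinj i hi v
    have h1 : (univ.filter (fun e => f e = v)).image ℓ = range k := by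
      refine eq_of_subset_of_card_le ?_ ?_
      · intro j hj
        obtain ⟨e, _, rfl⟩ := mem_image.1 hj
        exact mem_range.2 (hℓ e (mem_univ _))
      · rw [card_image_of_injOn, hf v, card_range]
        intro e he e' he' h
        have h2 := (mem_filter.1 (mem_coe.1 he)).2
        have h3 := (mem_filter.1 (mem_coe.1 he')).2
        exact hinj e (mem_univ _) e' (mem_univ _) (h2.trans h3.symm) h
    have h2 : i ∈ (univ.filter (fun e => f e = v)).image ℓ := by
      rw [h1]; exact mem_range.2 hi
    obtain ⟨e, he, h3⟩ := mem_image.1 h2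
    exact ⟨e, (mem_filter.1 he).2, h3⟩
  refine ⟨fun e => if h : e ∈ D then ℓ (Sum.inl ⟨e, h⟩) else 0, ?_, ?_⟩
  · intro e he
    simp only [he, dif_pos]
    exact hℓ _ (mem_univ _)
  · rintro i v ⟨e0, he0, hi0, hv0⟩
    simp only [he0, dif_pos] at hi0
    have hik : i < k := by rw [← hi0]; exact hℓ _ (mem_univ _)
    obtain ⟨a, ha1, ha2⟩ := hsurj _ ht1 hl1 i hik v
    obtain ⟨b, hb1, hb2⟩ := hsurj _ ht2 hl2 i hik v
    -- the edge `e0` is one of `a`, `b`
    have h0 : Sum.inl ⟨e0, he0⟩ = a ∨ Sum.inl ⟨e0, he0⟩ = b := by
      have h1 : (if t (Sum.inl ⟨e0, he0⟩) then p (Sum.inl ⟨e0, he0⟩) else q (Sum.inl ⟨e0, he0⟩)) = v ∨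
          (if t (Sum.inl ⟨e0, he0⟩) then q (Sum.inl ⟨e0, he0⟩) else p (Sum.inl ⟨e0, he0⟩)) = v := by
        rcases (hmem ⟨e0, he0⟩ v).1 hv0 with h | h
        · by_cases ht : t (Sum.inl ⟨e0, he0⟩) = true
          · left; rw [if_pos ht]; exact h
          · right; rw [if_neg ht]; exact h
        · by_cases ht : t (Sum.inl ⟨e0, he0⟩) = true
          · right; rw [if_pos ht]; exact h
          · left; rw [if_neg ht]; exact h
      rcases h1 with h | h
      · left
        exact hl1 _ (mem_univ _) _ (mem_univ _) (h.trans ha1.symm) (hi0.trans ha2.symm)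
      · right
        exact hl2 _ (mem_univ _) _ (mem_univ _) (h.trans hb1.symm) (hi0.trans hb2.symm)
    -- a loop at `v` would be both `a` and `b`
    have hloop : ∀ l : L, l.1 = v → ℓ (Sum.inr l) = i → False := by
      intro l hl hli
      have h1 : (Sum.inr l : E) = a := hl1 _ (mem_univ _) _ (mem_univ _) (by
        rw [ha1]
        show (if t (Sum.inr l) then l.1 else l.1) = v
        rw [ite_self, hl]) (hli.trans ha2.symm)
      have h2 : (Sum.inr l : E) = b := hl2 _ (mem_univ _) _ (mem_univ _) (by
        rw [hb1]
        show (if t (Sum.inr l) then l.1 else l.1) = v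
        rw [ite_self, hl]) (hli.trans hb2.symm)
      rcases h0 with h | h
      · rw [← h1] at h; exact absurd h (by simp)
      · rw [← h2] at h; exact absurd h (by simp)
    rcases a with a | a
    swap
    · exfalso
      refine hloop a ?_ ha2
      have : (if t (Sum.inr a) then a.1 else a.1) = v := ha1
      rwa [ite_self] at this
    rcases b with b | b
    swap
    · exfalso
      refine hloop b ?_ hb2
      have : (if t (Sum.inr b) then b.1 else b.1) = v := hb1
      rwa [ite_self] at this
    have hab : a ≠ b := by
      rintro rfl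
      by_cases ht : t (Sum.inl a) = true
      · rw [if_pos ht] at ha1 hb1
        exact hne a (ha1.trans hb1.symm)
      · rw [if_neg ht] at ha1 hb1
        exact hne a (hb1.trans ha1.symm)
    have hset : (D.filter (fun e => (if h : e ∈ D then ℓ (Sum.inl ⟨e, h⟩) else 0) = i ∧ v ∈ e)) =
        {a.1, b.1} := by
      ext e
      rw [mem_filter, mem_insert, mem_singleton]
      constructor
      · rintro ⟨heD, hei, hev⟩
        simp only [heD, dif_pos] at hei
        rcases (hmem ⟨e, heD⟩ v).1 hev with h | h
        · by_cases ht : t (Sum.inl ⟨e, heD⟩) = true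
          · left
            have := hl1 (Sum.inl ⟨e, heD⟩) (mem_univ _) (Sum.inl a) (mem_univ _) (by
              rw [ha1, if_pos ht]; exact h) (hei.trans ha2.symm)
            exact congrArg Subtype.val (Sum.inl.inj this)
          · right
            have := hl2 (Sum.inl ⟨e, heD⟩) (mem_univ _) (Sum.inl b) (mem_univ _) (by
              rw [hb1, if_neg ht]; exact h) (hei.trans hb2.symm)
            exact congrArg Subtype.val (Sum.inl.inj this)
        · by_cases ht : t (Sum.inl ⟨e, heD⟩) = true
          · right
            have := hl2 (Sum.inl ⟨e, heD⟩) (mem_univ _) (Sum.inl b) (mem_univ _) (by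
              rw [hb1, if_pos ht]; exact h) (hei.trans hb2.symm)
            exact congrArg Subtype.val (Sum.inl.inj this)
          · left
            have := hl1 (Sum.inl ⟨e, heD⟩) (mem_univ _) (Sum.inl a) (mem_univ _) (by
              rw [ha1, if_neg ht]; exact h) (hei.trans ha2.symm)
            exact congrArg Subtype.val (Sum.inl.inj this)
      · rintro (rfl | rfl)
        · refine ⟨a.2, by simp only [a.2, dif_pos]; exact ha2, (hmem a v).2 ?_⟩
          by_cases ht : t (Sum.inl a) = true
          · rw [if_pos ht] at ha1; exact Or.inl ha1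
          · rw [if_neg ht] at ha1; exact Or.inr ha1
        · refine ⟨b.2, by simp only [b.2, dif_pos]; exact hb2, (hmem b v).2 ?_⟩
          by_cases ht : t (Sum.inl b) = true
          · rw [if_pos ht] at hb1; exact Or.inr hb1
          · rw [if_neg ht] at hb1; exact Or.inl hb1
    rw [hset, card_pair]
    exact fun h => hab (Subtype.ext h)

end Pool.Agent.R41.Even
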