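import Mathlib

/-!
MP_b4b0f8: the number of components of a minimum spanning subgraph with all degrees odd of a
`(2 k + 1)`-regular graph is at least `k + 1`: the counting part.
-/

set_option autoImplicit false

namespace Pool.Agent.R41.OF

open Finset SimpleGraph

set_option linter.unusedSectionVars false

variable {V : Type} [Fintype V] [DecidableEq V]

/-- In a finite forest without isolated vertices, a path can be extended to a leaf. -/
lemma to_leaf {T : SimpleGraph V} [DecidableRel T.Adj] (hac : T.IsAcyclic)
    (hdeg : ∀ v, 1 ≤ T.degree v) {u a : V} (hua : T.Adj u a) :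
    ∀ n : ℕ, ∀ (z : V) (p : T.Walk a z), p.IsPath → u ∉ p.support →
      Fintype.card V ≤ p.length + n →
      ∃ (z' : V) (p' : T.Walk a z'), p'.IsPath ∧ u ∉ p'.support ∧ T.degree z' = 1 := by
  intro n
  induction n with
  | zero =>
    intro z p hp _ h
    have := hp.length_lt
    omega
  | succ n ih =>
    intro z p hp hu h
    by_cases h1 : T.degree z = 1
    · exact ⟨z, p, hp, hu, h1⟩
    · have h2 : 1 < (T.neighborFinset z).card := by
        have := hdeg z
        rw [card_neighborFinset_eq_degree]
        omega
      have hfull : (Walk.cons hua p).IsPath := hp.cons hu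
      obtain ⟨z', hz', hne⟩ := Finset.exists_mem_ne h2 (Walk.cons hua p).penultimate
      rw [mem_neighborFinset] at hz'
      have hns : z' ∉ (Walk.cons hua p).support := fun hs =>
        hne (hac.eq_penultimate_of_adj_end hfull hz' hs)
      rw [Walk.support_cons, List.mem_cons, not_or] at hns
      refine ih z' (p.concat hz') (hp.concat hns.2 hz') ?_ ?_
      · rw [Walk.support_concat, List.mem_append, List.mem_singleton, not_or]
        exact ⟨hu, fun h => hns.1 h.symm⟩
      · rw [Walk.length_concat]
        omega

/-- A component containing a vertex of degree `d` has at least `d` leaves. -/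
lemma leaves_card {T : SimpleGraph V} [DecidableRel T.Adj] [DecidableRel T.Reachable]
    (hac : T.IsAcyclic) (hdeg : ∀ v, 1 ≤ T.degree v) (u : V) :
    T.degree u ≤ (univ.filter (fun z => T.degree z = 1 ∧ T.Reachable u z)).card := by
  have h1 : ∀ a, ∃ z, T.Adj u a → ∃ p : T.Walk a z, p.IsPath ∧ u ∉ p.support ∧ T.degree z = 1 := by
    intro a
    by_cases ha : T.Adj u a
    · obtain ⟨z, p, h1, h2, h3⟩ := to_leaf hac hdeg ha (Fintype.card V) a Walk.nil Walk.IsPath.nil
        (by simpa using ha.ne) (by simp)
      exact ⟨z, fun _ => ⟨p, h1, h2, h3⟩⟩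
    · exact ⟨a, fun h => absurd h ha⟩
  choose f hf using h1
  rw [← card_neighborFinset_eq_degree]
  refine Finset.card_le_card_of_injOn f ?_ ?_
  · intro a ha
    rw [Finset.mem_coe, mem_neighborFinset] at ha
    obtain ⟨p, hp, hu, hd⟩ := hf a ha
    rw [Finset.mem_coe, Finset.mem_filter]
    exact ⟨mem_univ _, hd, ha.reachable.trans p.reachable⟩
  · intro a ha b hb hab
    rw [Finset.mem_coe, mem_neighborFinset] at ha hb
    obtain ⟨p, hp, hu, hd⟩ := hf a ha
    obtain ⟨q, hq, hu', hd'⟩ := hf b hb
    have e1 : (Walk.cons ha p).IsPath := hp.cons hu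
    have key : ∀ (z z' : V) (hz : z = z') (p : T.Walk a z) (q : T.Walk b z'),
        (Walk.cons ha p).IsPath → (Walk.cons hb q).IsPath → a = b := by
      rintro z _ rfl p q h1 h2
      have := hac.subsingleton_path u z |>.elim ⟨_, h1⟩ ⟨_, h2⟩
      have h3 := congrArg Subtype.val this
      have h4 := congrArg Walk.snd h3
      simpa using h4
    exact key _ _ hab p q e1 (hq.cons hu')

lemma closed_reach {T : SimpleGraph V} {S : Set V} (hS : ∀ a ∈ S, ∀ b, T.Adj a b → b ∈ S) :
    ∀ {a b : V} (_ : T.Walk a b), a ∈ S → b ∈ S := by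
  intro a b p
  induction p with
  | nil => exact id
  | cons h p ih => exact fun ha => ih (hS _ ha _ h)

lemma unique_nb {T : SimpleGraph V} [DecidableRel T.Adj] {l a b : V} (h : T.degree l = 1)
    (ha : T.Adj l a) (hb : T.Adj l b) : a = b := by
  rw [← card_neighborFinset_eq_degree, Finset.card_eq_one] at h
  obtain ⟨c, hc⟩ := h
  have h1 : a ∈ T.neighborFinset l := (mem_neighborFinset _ _ _).2 ha
  have h2 : b ∈ T.neighborFinset l := (mem_neighborFinset _ _ _).2 hb
  rw [hc, Finset.mem_singleton] at h1 h2
  rw [h1, h2]

/-- Two leaves of a component with a vertex that is not a leaf are not adjacent. -/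
lemma leaves_nonadj {T : SimpleGraph V} [DecidableRel T.Adj] {u l l' : V}
    (hu : T.degree u ≠ 1) (hl : T.degree l = 1) (hl' : T.degree l' = 1) (h : T.Reachable u l) :
    ¬ T.Adj l l' := by
  intro hadj
  obtain ⟨p⟩ := h.symm
  have h1 : u ∈ ({l, l'} : Set V) := by
    refine closed_reach (T := T) (S := {l, l'}) ?_ p (by simp)
    rintro a (rfl | rfl) b hab
    · exact Or.inr (unique_nb hl hab hadj)
    · exact Or.inl (unique_nb hl' hab hadj.symm)
  rcases h1 with rfl | rfl
  · exact hu hl
  · exact hu hl'

/-- The number of edges of a forest. -/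
lemma forest_card {T : SimpleGraph V} [DecidableRel T.Adj] [Fintype T.ConnectedComponent]
    (hac : T.IsAcyclic) :
    T.edgeFinset.card + Fintype.card T.ConnectedComponent ≤ Fintype.card V := by
  classical
  let r : V → V := fun v => (T.connectedComponentMk v).out
  have hr : ∀ v, T.Reachable v (r v) := fun v => by
    have : T.connectedComponentMk (r v) = T.connectedComponentMk v := Quot.out_eq _
    exact (ConnectedComponent.exact this).symm
  have hrr : ∀ v w, T.Reachable v w → r v = r w := fun v w h => by
    show (T.connectedComponentMk v).out = (T.connectedComponentMk w).out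
    rw [ConnectedComponent.sound h]
  have hp : ∀ v, ∃ p : T.Walk v (r v), p.IsPath := fun v => (hr v).exists_isPath
  choose f hf using hp
  have h1 : Fintype.card T.ConnectedComponent ≤ (univ.filter (fun v => r v = v)).card := by
    rw [← card_univ]
    refine Finset.card_le_card_of_injOn (fun c => c.out) ?_ ?_
    · intro c _
      rw [Finset.mem_coe, Finset.mem_filter]
      refine ⟨mem_univ _, ?_⟩
      show (T.connectedComponentMk c.out).out = c.out
      have : T.connectedComponentMk c.out = c := Quot.out_eq c
      rw [this]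
    · intro c _ c' _ h
      have h2 : T.connectedComponentMk c.out = c := Quot.out_eq c
      have h3 : T.connectedComponentMk c'.out = c' := Quot.out_eq c'
      simp only at h
      rw [← h2, ← h3, h]
  have h2 : T.edgeFinset.card ≤ (univ.filter (fun v => r v ≠ v)).card := by
    refine Finset.card_le_card_of_surjOn (fun v => s(v, (f v).snd)) ?_
    intro e he
    rw [Finset.mem_coe, mem_edgeFinset] at he
    induction e using Sym2.ind with
    | _ a b =>
    rw [mem_edgeSet] at he
    have hab : r a = r b := hrr a b he.reachable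
    by_cases hb : b ∈ (f a).support
    · refine ⟨a, ?_, ?_⟩
      · rw [Finset.mem_coe, Finset.mem_filter]
        refine ⟨mem_univ _, fun h => ?_⟩
        have h5 : ∀ (z : V) (p : T.Walk a z), z = a → p.IsPath → b ∈ p.support → False := by
          rintro _ p rfl hp hb
          rw [Walk.isPath_iff_nil] at hp
          rw [hp.eq_nil] at hb
          simp at hb
          exact he.ne hb.symm
        exact h5 _ (f a) h (hf a) hb
      · show s(a, (f a).snd) = s(a, b)
        rw [← hac.eq_snd_of_adj_start (hf a) he hb]
    · refine ⟨b, ?_, ?_⟩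
      · rw [Finset.mem_coe, Finset.mem_filter]
        refine ⟨mem_univ _, fun h => ?_⟩
        rw [← hab] at h
        apply hb
        have h5 : ∀ (z : V) (p : T.Walk a z), z = b → b ∈ p.support := by
          rintro _ p rfl
          exact p.end_mem_support
        exact h5 _ (f a) h
      · show s(b, (f b).snd) = s(a, b)
        have h5 : ∀ (z z' : V) (p : T.Walk a z) (q : T.Walk b z'), z = z' → p.IsPath → q.IsPath →
            b ∉ p.support → q.snd = a := by
          rintro z _ p q rfl hp hq hb
          have := hac.subsingleton_path b z |>.elim ⟨_, hp.cons (h := he.symm) hb⟩ ⟨_, hq⟩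
          have h3 := congrArg Subtype.val this
          have h4 := congrArg Walk.snd h3
          simpa using h4.symm
        rw [h5 _ _ (f a) (f b) hab (hf a) (hf b) hb, Sym2.eq_swap]
  have h3 : (univ.filter (fun v => r v = v)).card + (univ.filter (fun v => r v ≠ v)).card =
      Fintype.card V := by
    rw [← card_univ]
    exact Finset.card_filter_add_card_filter_not _
  omega

omit [Fintype V] [DecidableEq V] in
lemma len_one {T : SimpleGraph V} {a b : V} (p : T.Walk a b) (h : a ≠ b) : 1 ≤ p.length := by
  match p with
  | Walk.nil => exact absurd rfl h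
  | Walk.cons _ q => simp only [Walk.length_cons]; omega

omit [Fintype V] [DecidableEq V] in
lemma len_two {T : SimpleGraph V} {a b : V} (p : T.Walk a b) (h : a ≠ b) (h' : ¬ T.Adj a b) :
    2 ≤ p.length := by
  match p with
  | Walk.nil => exact absurd rfl h
  | Walk.cons h1 Walk.nil => exact absurd h1 h'
  | Walk.cons _ (Walk.cons _ q) => simp only [Walk.length_cons]; omega

/-- The exchange property used below. -/
def Exch (G T : SimpleGraph V) : Prop :=
  ∀ (x x' w w' : V) (p : T.Walk x x') (q : T.Walk w w'), p.IsPath → q.IsPath →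
    ¬ T.Reachable x w → G.Adj x w → G.Adj x' w' → s(x, w) ≠ s(x', w') → p.length + q.length ≤ 2

/-- The neighbours of a vertex in another component. -/
lemma nb_bound {G T : SimpleGraph V} [DecidableRel G.Adj] [DecidableRel T.Adj] {d : ℕ}
    (hac : T.IsAcyclic) (hex : Exch G T) (hd : ∀ v, T.degree v ≤ d) (l : V) (W : Finset V)
    (hW : ∀ w ∈ W, G.Adj l w ∧ ¬ T.Reachable l w)
    (hW2 : ∀ w ∈ W, ∀ w' ∈ W, T.Reachable w w') : W.card ≤ d + 1 := by
  have hlen : ∀ w ∈ W, ∀ w' ∈ W, w ≠ w' → ∀ q : T.Walk w w', q.IsPath → q.length ≤ 2 := by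
    intro w hw w' hw' hne q hq
    have := hex l l w w' Walk.nil q Walk.IsPath.nil hq (hW w hw).2 (hW w hw).1 (hW w' hw').1
      (fun h => hne (Sym2.congr_right.1 h))
    simpa using this
  have hins : ∀ c : V, W ⊆ insert c (T.neighborFinset c) → W.card ≤ d + 1 := by
    intro c hc
    refine (Finset.card_le_card hc).trans ((Finset.card_insert_le _ _).trans ?_)
    rw [card_neighborFinset_eq_degree]
    exact Nat.add_le_add_right (hd c) 1
  rcases W.eq_empty_or_nonempty with rfl | ⟨w1, hw1⟩
  · simp
  by_cases hz : ∀ z ∈ W, z ≠ w1 → T.Adj w1 z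
  · refine hins w1 fun w hw => ?_
    by_cases h : w = w1
    · rw [h]; exact Finset.mem_insert_self _ _
    · exact Finset.mem_insert_of_mem ((mem_neighborFinset _ _ _).2 (hz w hw h))
  · push Not at hz
    obtain ⟨z, hzW, hzne, hznadj⟩ := hz
    -- the path from `w1` to `z` has length two
    have step : ∀ w ∈ W, w ≠ w1 → ¬ T.Adj w1 w → ∃ c, T.Adj w1 c ∧ T.Adj c w := by
      intro w hw hne hnadj
      obtain ⟨q, hq⟩ := (hW2 w1 hw1 w hw).exists_isPath
      have hl := hlen w1 hw1 w hw (Ne.symm hne) q hq
      match q, hl with
      | Walk.nil, _ => exact absurd rfl hne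
      | Walk.cons h Walk.nil, _ => exact absurd h hnadj
      | Walk.cons h (Walk.cons h' Walk.nil), _ => exact ⟨_, h, h'⟩
      | Walk.cons _ (Walk.cons _ (Walk.cons _ q)), hl => simp only [Walk.length_cons] at hl; omega
    obtain ⟨c, hc1, hc2⟩ := step z hzW hzne hznadj
    refine hins c fun w hw => ?_
    rw [Finset.mem_insert, mem_neighborFinset]
    by_cases hwc : w = c
    · exact Or.inl hwc
    right
    by_cases hw1' : w = w1
    · rw [hw1']; exact hc1.symm
    by_cases hwz : w = z
    · rw [hwz]; exact hc2
    by_cases hadj : T.Adj w1 w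
    · exfalso
      -- the path `z c w1 w`
      have hq : (Walk.cons hc2.symm (Walk.cons hc1.symm (Walk.cons hadj Walk.nil))).IsPath := by
        simp only [Walk.cons_isPath_iff, Walk.isPath_iff_nil, Walk.nil_nil, Walk.support_cons,
          Walk.support_nil, List.mem_cons, List.not_mem_nil, or_false, not_or, true_and]
        exact ⟨⟨hadj.ne, ⟨hc1.ne', Ne.symm hwc⟩⟩, ⟨hc2.ne', hzne, Ne.symm hwz⟩⟩
      have := hlen z hzW w hw (Ne.symm hwz) _ hq
      simp only [Walk.length_cons] at this
      omega
    · obtain ⟨c', hc1', hc2'⟩ := step w hw hw1' hadj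
      by_cases hcc : c' = c
      · rw [← hcc]; exact hc2'
      exfalso
      have hzc' : z ≠ c' := fun h => hznadj (h ▸ hc1')
      have hq : (Walk.cons hc2.symm (Walk.cons hc1.symm (Walk.cons hc1'
          (Walk.cons hc2' Walk.nil)))).IsPath := by
        simp only [Walk.cons_isPath_iff, Walk.isPath_iff_nil, Walk.nil_nil, Walk.support_cons,
          Walk.support_nil, List.mem_cons, List.not_mem_nil, or_false, not_or, true_and]
        exact ⟨⟨⟨hc2'.ne, ⟨hc1'.ne, Ne.symm hw1'⟩⟩, ⟨hc1.ne', Ne.symm hcc, Ne.symm hwc⟩⟩,
          ⟨hc2.ne', hzne, hzc', Ne.symm hwz⟩⟩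
      have := hlen z hzW w hw (Ne.symm hwz) _ hq
      simp only [Walk.length_cons] at this
      omega

/-- The main counting: the number of edges of `T`. -/
theorem count {G T : SimpleGraph V} [DecidableRel G.Adj] [DecidableRel T.Adj] [Nonempty V] {k : ℕ}
    (hTG : T ≤ G) (hac : T.IsAcyclic) (hex : Exch G T)
    (hind : ∀ x y, G.Adj x y → T.Reachable x y → T.Adj x y)
    (hodd : ∀ v, Odd (T.degree v)) (hreg : ∀ v, G.degree v = 2 * k + 1) :
    T.edgeFinset.card + (k + 1) ≤ Fintype.card V := by
  classical
  have hdeg1 : ∀ v, 1 ≤ T.degree v := fun v => (hodd v).pos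
  obtain ⟨u, hu⟩ := Finite.exists_max (fun v => T.degree v)
  by_cases h1 : T.degree u = 1
  · -- a perfect matching
    have h2 : ∀ v, T.degree v = 1 := fun v => le_antisymm (h1 ▸ hu v) (hdeg1 v)
    have h3 := T.sum_degrees_eq_twice_card_edges
    simp only [h2, Finset.sum_const, Finset.card_univ, smul_eq_mul, mul_one] at h3
    have h4 := G.degree_lt_card_verts u
    rw [hreg] at h4
    omega
  · have h3 : 3 ≤ T.degree u := by
      obtain ⟨r, hr⟩ := hodd u
      omega
    set L := univ.filter (fun z => T.degree z = 1 ∧ T.Reachable u z) with hL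
    have hLc : T.degree u ≤ L.card := leaves_card hac hdeg1 u
    have hk : 0 < k := by
      have h4 : T.degree u ≤ G.degree u := by
        rw [← card_neighborFinset_eq_degree, ← card_neighborFinset_eq_degree]
        refine Finset.card_le_card fun w hw => ?_
        rw [mem_neighborFinset] at hw ⊢
        exact hTG hw
      rw [hreg] at h4
      omega
    -- pairs
    let S : Finset (V × V) := (L ×ˢ univ).filter
      (fun x => G.Adj x.1 x.2 ∧ ¬ T.Reachable x.1 x.2)
    have hSm : ∀ x : V × V, x ∈ S ↔ (T.degree x.1 = 1 ∧ T.Reachable u x.1) ∧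
        (G.Adj x.1 x.2 ∧ ¬ T.Reachable x.1 x.2) := by
      intro x
      simp [S, hL]
    have hScard : S.card = 2 * k * L.card := by
      have h4 : S.card = ∑ l ∈ L, (S.filter (fun x => x.1 = l)).card :=
        Finset.card_eq_sum_card_fiberwise (fun x hx => by
          have := (hSm x).1 hx
          rw [hL, Finset.mem_coe, Finset.mem_filter]
          exact ⟨mem_univ _, this.1⟩)
      have h5 : ∀ l ∈ L, (S.filter (fun x => x.1 = l)).card = 2 * k := by
        intro l hl
        rw [hL, Finset.mem_filter] at hl
        have h6 : (S.filter (fun x => x.1 = l)).card =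
            ((G.neighborFinset l) \ (T.neighborFinset l)).card := by
          refine Finset.card_bij (fun x _ => x.2) ?_ ?_ ?_
          · rintro ⟨a, b⟩ hx
            rw [Finset.mem_filter, hSm] at hx
            obtain ⟨⟨⟨_, _⟩, h8, h9⟩, h10⟩ := hx
            simp only at h8 h9 h10
            rw [h10] at h8 h9
            rw [Finset.mem_sdiff, mem_neighborFinset, mem_neighborFinset]
            exact ⟨h8, fun h => h9 h.reachable⟩
          · rintro ⟨a, b⟩ hx ⟨a', b'⟩ hx' h
            rw [Finset.mem_filter] at hx hx'
            simp only at h hx hx'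
            rw [hx.2, hx'.2, h]
          · intro b hb
            rw [Finset.mem_sdiff, mem_neighborFinset, mem_neighborFinset] at hb
            refine ⟨(l, b), ?_, rfl⟩
            rw [Finset.mem_filter, hSm]
            exact ⟨⟨hl.2, hb.1, fun h => hb.2 (hind l b hb.1 h)⟩, rfl⟩
        rw [h6, Finset.card_sdiff_of_subset, card_neighborFinset_eq_degree,
          card_neighborFinset_eq_degree, hreg, hl.2.1]
        · rfl
        · intro w hw
          rw [mem_neighborFinset] at hw ⊢
          exact hTG hw
      rw [h4, Finset.sum_congr rfl h5, Finset.sum_const, smul_eq_mul, mul_comm]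
    -- fibers over the components
    have hfib : ∀ j : T.ConnectedComponent,
        (S.filter (fun x => T.connectedComponentMk x.2 = j)).card ≤ L.card + 1 := by
      intro j
      set F := S.filter (fun x => T.connectedComponentMk x.2 = j) with hF
      have hFm : ∀ x, x ∈ F → ((T.degree x.1 = 1 ∧ T.Reachable u x.1) ∧
          (G.Adj x.1 x.2 ∧ ¬ T.Reachable x.1 x.2)) ∧ T.connectedComponentMk x.2 = j := by
        intro x hx
        rw [hF, Finset.mem_filter, hSm] at hx
        exact hx
      by_cases hA : ∃ l w w', (l, w) ∈ F ∧ (l, w') ∈ F ∧ w ≠ w'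
      · obtain ⟨l, w, w', hw, hw', hne⟩ := hA
        obtain ⟨⟨⟨a1, a2⟩, a3, a4⟩, a5⟩ := hFm _ hw
        obtain ⟨⟨⟨b1, b2⟩, b3, b4⟩, b5⟩ := hFm _ hw'
        simp only at a1 a2 a3 a4 a5 b1 b2 b3 b4 b5
        have hall : ∀ x ∈ F, x.1 = l := by
          rintro ⟨l', w''⟩ hx
          obtain ⟨⟨⟨c1, c2⟩, c3, c4⟩, c5⟩ := hFm _ hx
          simp only at c1 c2 c3 c4 c5
          by_contra hll
          simp only at hll
          obtain ⟨p, hp⟩ := (a2.symm.trans c2).exists_isPath
          have hpl : 2 ≤ p.length := len_two p (Ne.symm hll) (leaves_nonadj h1 a1 c1 a2)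
          have fin : ∀ v, T.connectedComponentMk v = j → G.Adj l v → ¬ T.Reachable l v →
              v = w'' := by
            intro v hv hlv hnr
            by_contra hvw
            obtain ⟨q, hq⟩ := (ConnectedComponent.exact (hv.trans c5.symm)).exists_isPath
            have hql : 1 ≤ q.length := len_one q hvw
            have hne2 : s(l, v) ≠ s(l', w'') := by
              intro h
              rcases Sym2.eq_iff.1 h with ⟨h5, _⟩ | ⟨h5, _⟩
              · exact hll h5.symm
              · apply hnr
                have : T.Reachable w'' v := ConnectedComponent.exact (c5.trans hv.symm)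
                rw [← h5] at this
                exact this
            have := hex l l' v w'' p q hp hq hnr hlv c3 hne2
            omega
          exact hne ((fin w a5 a3 a4).trans (fin w' b5 b3 b4).symm)
        have hinj : F.card = (F.image Prod.snd).card := by
          rw [Finset.card_image_of_injOn]
          intro x hx y hy hxy
          rw [Finset.mem_coe] at hx hy
          exact Prod.ext ((hall x hx).trans (hall y hy).symm) hxy
        have hb := nb_bound (d := T.degree u) hac hex hu l (F.image Prod.snd) (by
          intro v hv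
          obtain ⟨x, hx, rfl⟩ := Finset.mem_image.1 hv
          obtain ⟨⟨_, c3, c4⟩, _⟩ := hFm _ hx
          rw [hall x hx] at c3 c4
          exact ⟨c3, c4⟩) (by
          intro v hv v' hv'
          obtain ⟨x, hx, rfl⟩ := Finset.mem_image.1 hv
          obtain ⟨y, hy, rfl⟩ := Finset.mem_image.1 hv'
          exact ConnectedComponent.exact ((hFm _ hx).2.trans (hFm _ hy).2.symm))
        rw [hinj]
        omega
      · push Not at hA
        have : F.card ≤ L.card := by
          refine Finset.card_le_card_of_injOn Prod.fst ?_ ?_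
          · intro x hx
            have := hFm x hx
            rw [hL, Finset.mem_coe, Finset.mem_filter]
            exact ⟨mem_univ _, this.1.1⟩
          · rintro ⟨a, b⟩ hx ⟨a', b'⟩ hy hxy
            simp only at hxy
            subst hxy
            rw [hA a b b' hx hy]
        omega
    have hle : S.card ≤ (L.card + 1) *
        ((univ : Finset T.ConnectedComponent).erase (T.connectedComponentMk u)).card := by
      refine Finset.card_le_mul_card_image_of_maps_to (f := fun x => T.connectedComponentMk x.2)
        ?_ _ ?_
      · intro x hx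
        rw [hSm] at hx
        rw [Finset.mem_erase]
        refine ⟨fun h => ?_, mem_univ _⟩
        exact hx.2.2 (hx.1.2.symm.trans (ConnectedComponent.exact h).symm)
      · intro j _
        exact hfib j
    rw [Finset.card_erase_of_mem (mem_univ _), card_univ, hScard] at hle
    have hforest := forest_card hac
    have hcomp : k + 1 ≤ Fintype.card T.ConnectedComponent := by
      by_contra hlt
      push Not at hlt
      have h6 : Fintype.card T.ConnectedComponent - 1 ≤ k - 1 := by omega
      have h7 : 2 * k * L.card ≤ (L.card + 1) * (k - 1) :=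
        hle.trans (Nat.mul_le_mul_left _ h6)
      obtain ⟨j, rfl⟩ : ∃ j, k = j + 1 := ⟨k - 1, by omega⟩
      rw [Nat.add_sub_cancel] at h7
      have h8 : 3 ≤ L.card := h3.trans hLc
      nlinarith
    omega

end Pool.Agent.R41.OF
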