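import Mathlib

/-!
MP_007251: odd induced subgraphs of cographs.
-/

set_option autoImplicit false
set_option linter.unusedSectionVars false

namespace Pool.Agent.R41.OddInd

open Finset

variable {V : Type*} [Fintype V] [DecidableEq V]

/-- In characteristic two a symmetric double sum is its diagonal. -/
lemma sum_symm (g : V → V → ZMod 2) (hg : ∀ i j, g i j = g j i) :
    ∑ i, ∑ j, g i j = ∑ i, g i i := by
  have h1 : ∑ i, ∑ j, g i j = ∑ p : V × V, g p.1 p.2 := (Fintype.sum_prod_type' _).symm
  rw [h1, ← Finset.sum_filter_add_sum_filter_not Finset.univ (fun p : V × V => p.1 = p.2)]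
  have h2 : ∑ p : V × V with ¬ p.1 = p.2, g p.1 p.2 = 0 := by
    refine Finset.sum_involution (fun p _ => p.swap) ?_ ?_ ?_ ?_
    · rintro ⟨i, j⟩ _
      simp only [Prod.swap]
      rw [hg j i]
      exact CharTwo.add_self_eq_zero _
    · rintro ⟨i, j⟩ h _ h3
      simp only [Finset.mem_filter, Finset.mem_univ, true_and] at h
      exact h (Prod.ext_iff.1 h3).2
    · rintro ⟨i, j⟩ h
      simp only [Finset.mem_filter, Finset.mem_univ, true_and] at h ⊢
      exact fun h' => h h'.symm
    · rintro ⟨i, j⟩ _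
      rfl
  rw [h2, add_zero]
  have h3 : (Finset.univ.filter (fun p : V × V => p.1 = p.2)) =
      Finset.univ.image (fun i : V => (i, i)) := by
    ext ⟨i, j⟩
    simp [Prod.ext_iff, eq_comm]
  rw [h3, Finset.sum_image]
  intro i _ j _ hij
  exact (Prod.ext_iff.1 hij).1

/-- The diagonal of a symmetric matrix over `𝔽₂` lies in its column space. -/
lemma diag_mem_range (M : V → V → ZMod 2) (hM : ∀ i j, M i j = M j i) :
    ∃ x : V → ZMod 2, ∀ i, ∑ j, M i j * x j = M i i := by
  classical
  let L : (V → ZMod 2) →ₗ[ZMod 2] (V → ZMod 2) :=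
    { toFun := fun x i => ∑ j, M i j * x j
      map_add' := by
        intro x y
        funext i
        simp [mul_add, Finset.sum_add_distrib]
      map_smul' := by
        intro c x
        funext i
        simp only [Pi.smul_apply, smul_eq_mul, RingHom.id_apply, Finset.mul_sum]
        exact Finset.sum_congr rfl fun j _ => by ring }
  by_contra hcon
  have hnot : (fun i => M i i) ∉ LinearMap.range L := by
    rintro ⟨x, hx⟩
    exact hcon ⟨x, fun i => congrFun hx i⟩
  obtain ⟨f, hf1, hf2⟩ := Submodule.exists_le_ker_of_notMem hnot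
  have hrep : ∀ v : V → ZMod 2, f v = ∑ i, v i * f (Pi.single i 1) := by
    intro v
    have h1 : v = ∑ i, v i • (Pi.single i (1 : ZMod 2) : V → ZMod 2) := by
      funext j
      simp [Finset.sum_apply, Pi.single_apply]
    conv_lhs => rw [h1]
    rw [map_sum]
    exact Finset.sum_congr rfl fun i _ => by rw [map_smul, smul_eq_mul]
  apply hf1
  set y : V → ZMod 2 := fun i => f (Pi.single i 1) with hy
  have h0 : f (L y) = 0 := by
    have := hf2 (LinearMap.mem_range_self L y)
    simpa using this
  rw [hrep] at h0 ⊢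
  have h2 : ∑ i, L y i * y i = ∑ i, ∑ j, (y i * M i j * y j) := by
    refine Finset.sum_congr rfl fun i _ => ?_
    show (∑ j, M i j * y j) * y i = _
    rw [Finset.sum_mul]
    exact Finset.sum_congr rfl fun j _ => by ring
  have h3 := sum_symm (fun i j => y i * M i j * y j) (fun i j => by
    rw [hM i j]; ring)
  have hsq : ∀ a : ZMod 2, a * a = a := by decide
  have h4 : ∑ i, y i * M i i * y i = ∑ i, M i i * y i := by
    refine Finset.sum_congr rfl fun i _ => ?_
    calc y i * M i i * y i = M i i * (y i * y i) := by ring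
      _ = M i i * y i := by rw [hsq]
  calc ∑ i, M i i * y i = ∑ i, y i * M i i * y i := h4.symm
    _ = ∑ i, ∑ j, y i * M i j * y j := h3.symm
    _ = ∑ i, L y i * y i := h2.symm
    _ = 0 := h0

variable (G : SimpleGraph V) [DecidableRel G.Adj]

/-- number of neighbours of `v` in `S` -/
def nb (S : Finset V) (v : V) : ℕ := #{w ∈ S | G.Adj v w}

lemma nb_cast (S : Finset V) (v : V) :
    (nb G S v : ZMod 2) = ∑ w, if G.Adj v w ∧ w ∈ S then (1 : ZMod 2) else 0 := by
  unfold nb
  rw [show S.filter (fun w => G.Adj v w) = Finset.univ.filter (fun w => G.Adj v w ∧ w ∈ S) by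
    ext w; simp [and_comm], Finset.card_filter, Nat.cast_sum]
  exact Finset.sum_congr rfl fun w _ => by split_ifs <;> simp

lemma odd_iff (m : ℕ) : Odd m ↔ (m : ZMod 2) = 1 := by
  rw [← ZMod.natCast_eq_one_iff_odd]

lemma even_iff (m : ℕ) : Even m ↔ (m : ZMod 2) = 0 := by
  rw [← ZMod.natCast_eq_zero_iff_even]

/-- Gallai: partition into an odd part `O` and an even part. -/
lemma gallai : ∃ O : Finset V, (∀ v ∈ O, Odd (nb G O v)) ∧
    (∀ v, v ∉ O → Even (nb G Oᶜ v)) := by
  classical
  let d : V → ZMod 2 := fun v => ∑ w, if G.Adj v w then (1 : ZMod 2) else 0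
  let M : V → V → ZMod 2 := fun i j => if i = j then d i + 1 else if G.Adj i j then 1 else 0
  have hM : ∀ i j, M i j = M j i := by
    intro i j
    simp only [M]
    by_cases hij : i = j
    · subst hij; rfl
    · rw [if_neg hij, if_neg (show ¬ j = i from fun h => hij h.symm)]
      by_cases h : G.Adj i j
      · rw [if_pos h, if_pos h.symm]
      · rw [if_neg h, if_neg (fun h' => h h'.symm)]
  have hMx : ∀ (x : V → ZMod 2) i, ∑ j, M i j * x j =
      (d i + 1) * x i + ∑ j, if G.Adj i j then x j else 0 := by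
    intro x i
    have h1 : ∀ j, M i j * x j = (if i = j then (d i + 1) * x j else 0) +
        (if G.Adj i j then x j else 0) := by
      intro j
      simp only [M]
      by_cases hij : i = j
      · subst hij
        simp
      · simp only [if_neg hij]
        split_ifs <;> simp
    simp_rw [h1, Finset.sum_add_distrib]
    simp
  obtain ⟨x, hx⟩ := diag_mem_range M hM
  have hone := hMx (fun _ => 1)
  -- the solution of `M z = d`
  let z : V → ZMod 2 := fun v => x v + 1
  have h2 : ∀ a : ZMod 2, a + a = 0 := CharTwo.add_self_eq_zero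
  have hz : ∀ v, (d v + 1) * z v + ∑ w, (if G.Adj v w then z w else 0) = d v := by
    intro v
    have h3 := hx v
    have h4 := hMx z v
    have h5 : ∑ j, M v j * z j = ∑ j, M v j * x j + ∑ j, M v j * 1 := by
      rw [← Finset.sum_add_distrib]
      exact Finset.sum_congr rfl fun j _ => by simp only [z]; ring
    rw [← h4, h5, h3, hone v]
    have h6 : M v v = d v + 1 := by simp [M]
    rw [h6]
    have h7 : (∑ j, if G.Adj v j then (1 : ZMod 2) else 0) = d v := rfl
    rw [h7]
    linear_combination h2 (d v + 1)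
  refine ⟨Finset.univ.filter (fun v => z v = 1), ?_, ?_⟩
  · intro v hv
    simp only [Finset.mem_filter, Finset.mem_univ, true_and] at hv
    rw [odd_iff, nb_cast]
    have h3 := hz v
    rw [hv, mul_one] at h3
    have h4 : (∑ w, if G.Adj v w ∧ w ∈ Finset.univ.filter (fun v => z v = 1) then (1 : ZMod 2)
        else 0) = ∑ w, (if G.Adj v w then z w else 0) := by
      refine Finset.sum_congr rfl fun w _ => ?_
      have h01 : z w = 0 ∨ z w = 1 := by
        have : ∀ a : ZMod 2, a = 0 ∨ a = 1 := by decide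
        exact this _
      rcases h01 with h | h <;> by_cases hvw : G.Adj v w <;> simp [h, hvw]
    rw [h4]
    linear_combination h3 - h2 1
  · intro v hv
    simp only [Finset.mem_filter, Finset.mem_univ, true_and] at hv
    have hv0 : z v = 0 := by
      have : ∀ a : ZMod 2, a = 0 ∨ a = 1 := by decide
      exact (this _).resolve_right hv
    rw [even_iff, nb_cast]
    have h3 := hz v
    rw [hv0, mul_zero, zero_add] at h3
    have h4 : (∑ w, if G.Adj v w ∧ w ∈ (Finset.univ.filter (fun v => z v = 1))ᶜ then (1 : ZMod 2)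
        else 0) = d v + ∑ w, (if G.Adj v w then z w else 0) := by
      rw [← Finset.sum_add_distrib]
      refine Finset.sum_congr rfl fun w _ => ?_
      have h01 : z w = 0 ∨ z w = 1 := by
        have : ∀ a : ZMod 2, a = 0 ∨ a = 1 := by decide
        exact this _
      rcases h01 with h | h <;> by_cases hvw : G.Adj v w <;> simp [h, hvw, h2]
    rw [h4, h3]
    exact h2 _

/-- `S` induces an odd subgraph -/
def OddOn (S : Finset V) : Prop := ∀ v ∈ S, Odd (nb G S v)

lemma nb_union {S T : Finset V} (h : Disjoint S T) (v : V) :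
    nb G (S ∪ T) v = nb G S v + nb G T v := by
  unfold nb
  rw [Finset.filter_union, Finset.card_union_of_disjoint]
  exact Finset.disjoint_filter_filter h

lemma nb_all {S : Finset V} {v : V} (h : ∀ w ∈ S, G.Adj v w) : nb G S v = S.card := by
  unfold nb
  rw [Finset.filter_true_of_mem h]

lemma nb_none {S : Finset V} {v : V} (h : ∀ w ∈ S, ¬ G.Adj v w) : nb G S v = 0 := by
  unfold nb
  rw [Finset.filter_false_of_mem h, Finset.card_empty]

/-- handshake: an odd induced subgraph has an even number of vertices -/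
lemma OddOn.even {S : Finset V} (h : OddOn G S) : Even S.card := by
  rw [even_iff]
  have h1 : (S.card : ZMod 2) = ∑ v ∈ S, (nb G S v : ZMod 2) := by
    rw [Finset.card_eq_sum_ones, Nat.cast_sum]
    refine Finset.sum_congr rfl fun v hv => ?_
    rw [(odd_iff _).1 (h v hv)]
    simp
  have h2 : ∑ v ∈ S, (nb G S v : ZMod 2) =
      ∑ v, ∑ w, if (v ∈ S ∧ G.Adj v w ∧ w ∈ S) then (1 : ZMod 2) else 0 := by
    simp_rw [nb_cast]
    rw [← Finset.sum_filter_add_sum_filter_not Finset.univ (fun v => v ∈ S)]
    have h3 : ∑ v ∈ Finset.univ.filter (fun v => ¬ v ∈ S), ∑ w,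
        (if (v ∈ S ∧ G.Adj v w ∧ w ∈ S) then (1 : ZMod 2) else 0) = 0 := by
      refine Finset.sum_eq_zero fun v hv => ?_
      rw [Finset.mem_filter] at hv
      exact Finset.sum_eq_zero fun w _ => if_neg (fun h => hv.2 h.1)
    rw [h3, add_zero, Finset.filter_mem_eq_inter, Finset.univ_inter]
    refine Finset.sum_congr rfl fun v hv => Finset.sum_congr rfl fun w _ => ?_
    simp [hv]
  rw [h1, h2, sum_symm (fun v w => if (v ∈ S ∧ G.Adj v w ∧ w ∈ S) then (1 : ZMod 2) else 0)]
  · simp
  · intro v w
    by_cases h : v ∈ S ∧ G.Adj v w ∧ w ∈ S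
    · rw [if_pos h, if_pos ⟨h.2.2, h.2.1.symm, h.1⟩]
    · rw [if_neg h, if_neg (fun h' => h ⟨h'.2.2, h'.2.1.symm, h'.1⟩)]

/-- Gallai's partition of a subset. -/
lemma gallai_on (U : Finset V) : ∃ O ⊆ U, OddOn G O ∧ ∀ v ∈ U \ O, Even (nb G (U \ O) v) := by
  classical
  let H : SimpleGraph V :=
    { Adj := fun u v => G.Adj u v ∧ u ∈ U ∧ v ∈ U
      symm := ⟨fun u v h => ⟨h.1.symm, h.2.2, h.2.1⟩⟩
      loopless := ⟨fun u h => h.1.ne rfl⟩ }
  obtain ⟨O, hO1, hO2⟩ := gallai H
  have hsub : O ⊆ U := by
    intro v hv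
    by_contra hvU
    have h1 := hO1 v hv
    have h2 : nb H O v = 0 := nb_none H (fun w _ h => hvU h.2.1)
    rw [h2] at h1
    exact absurd h1 (by decide)
  have hkey : ∀ (S : Finset V) (v : V), v ∈ U → nb H S v = nb G (S ∩ U) v := by
    intro S v hv
    unfold nb
    congr 1
    ext w
    simp only [Finset.mem_filter, Finset.mem_inter]
    constructor
    · rintro ⟨h1, h2, h3, h4⟩
      exact ⟨⟨h1, h4⟩, h2⟩
    · rintro ⟨⟨h1, h4⟩, h2⟩
      exact ⟨h1, h2, hv, h4⟩
  refine ⟨O, hsub, ?_, ?_⟩
  · intro v hv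
    have h1 := hO1 v hv
    rwa [hkey O v (hsub hv), Finset.inter_eq_left.2 hsub] at h1
  · intro v hv
    rw [Finset.mem_sdiff] at hv
    have h1 := hO2 v hv.2
    rw [hkey _ v hv.1] at h1
    have h2 : Oᶜ ∩ U = U \ O := by
      ext w
      simp [and_comm]
    rwa [h2] at h1

/-- A set of size at least one contains a subset of odd size missing at most one element. -/
lemma odd_subset (A : Finset V) (hA : A.Nonempty) :
    ∃ A' ⊆ A, Odd A'.card ∧ A.card ≤ A'.card + 1 := by
  rcases Nat.even_or_odd A.card with h | h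
  · obtain ⟨a, ha⟩ := hA
    refine ⟨A.erase a, Finset.erase_subset _ _, ?_, ?_⟩
    · rw [Finset.card_erase_of_mem ha]
      have : 0 < A.card := Finset.card_pos.2 ⟨a, ha⟩
      obtain ⟨m, hm⟩ := h
      exact ⟨m - 1, by omega⟩
    · rw [Finset.card_erase_of_mem ha]
      omega
  · exact ⟨A, subset_rfl, h, by omega⟩

/-- The bound for joins. -/
lemma join_bound (A B : Finset V) (hA : A.Nonempty) (hB : B.Nonempty) (hdisj : Disjoint A B)
    (hjoin : ∀ a ∈ A, ∀ b ∈ B, G.Adj a b) :
    ∃ S ⊆ A ∪ B, OddOn G S ∧ (A ∪ B).card ≤ 2 * S.card + 2 := by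
  obtain ⟨A', hA1, hA2, hA3⟩ := odd_subset A hA
  obtain ⟨B', hB1, hB2, hB3⟩ := odd_subset B hB
  obtain ⟨OA, hOA1, hOA2, hOA3⟩ := gallai_on G A'
  obtain ⟨OB, hOB1, hOB2, hOB3⟩ := gallai_on G B'
  have hd' : Disjoint A' B' := Finset.disjoint_of_subset_left hA1
    (Finset.disjoint_of_subset_right hB1 hdisj)
  have eOA := hOA2.even G
  have eOB := hOB2.even G
  have cA : (A' \ OA).card + OA.card = A'.card := Finset.card_sdiff_add_card_eq_card hOA1
  have cB : (B' \ OB).card + OB.card = B'.card := Finset.card_sdiff_add_card_eq_card hOB1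
  have oEA : Odd (A' \ OA).card := by
    rw [← cA] at hA2
    exact (Nat.odd_add.1 hA2).2 eOA
  have oEB : Odd (B' \ OB).card := by
    rw [← cB] at hB2
    exact (Nat.odd_add.1 hB2).2 eOB
  have dO : Disjoint OA OB := Finset.disjoint_of_subset_left hOA1
    (Finset.disjoint_of_subset_right hOB1 hd')
  have dE : Disjoint (A' \ OA) (B' \ OB) := Finset.disjoint_of_subset_left Finset.sdiff_subset
    (Finset.disjoint_of_subset_right Finset.sdiff_subset hd')
  have odd1 : OddOn G (OA ∪ OB) := by
    intro v hv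
    rw [nb_union G dO]
    rw [Finset.mem_union] at hv
    rcases hv with hv | hv
    · rw [nb_all G (S := OB) (fun w hw => hjoin v (hA1 (hOA1 hv)) w (hB1 (hOB1 hw)))]
      exact (hOA2 v hv).add_even eOB
    · rw [nb_all G (S := OA) (fun w hw => (hjoin w (hA1 (hOA1 hw)) v (hB1 (hOB1 hv))).symm)]
      exact eOA.add_odd (hOB2 v hv)
  have odd2 : OddOn G ((A' \ OA) ∪ (B' \ OB)) := by
    intro v hv
    rw [nb_union G dE]
    rw [Finset.mem_union] at hv
    rcases hv with hv | hv
    · rw [nb_all G (S := B' \ OB) (fun w hw => hjoin v (hA1 (Finset.sdiff_subset hv)) w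
        (hB1 (Finset.sdiff_subset hw)))]
      exact (hOA3 v hv).add_odd oEB
    · rw [nb_all G (S := A' \ OA) (fun w hw => (hjoin w (hA1 (Finset.sdiff_subset hw)) v
        (hB1 (Finset.sdiff_subset hv))).symm)]
      exact oEA.add_even (hOB3 v hv)
  have c1 : (OA ∪ OB).card = OA.card + OB.card := Finset.card_union_of_disjoint dO
  have c2 : ((A' \ OA) ∪ (B' \ OB)).card = (A' \ OA).card + (B' \ OB).card :=
    Finset.card_union_of_disjoint dE
  have c3 : (A ∪ B).card = A.card + B.card := Finset.card_union_of_disjoint hdisj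
  by_cases hcmp : (OA ∪ OB).card ≤ ((A' \ OA) ∪ (B' \ OB)).card
  · refine ⟨_, ?_, odd2, by omega⟩
    exact Finset.union_subset_union (Finset.sdiff_subset.trans hA1)
      (Finset.sdiff_subset.trans hB1)
  · refine ⟨_, ?_, odd1, by omega⟩
    exact Finset.union_subset_union (hOA1.trans hA1) (hOB1.trans hB1)

/-- no induced `P_4` (for a symmetric relation) -/
def NoP4 (R : V → V → Prop) : Prop :=
  ∀ a b c d : V, a ≠ b → a ≠ c → a ≠ d → b ≠ c → b ≠ d → c ≠ d →
    R a b → R b c → R c d → R a c ∨ R b d ∨ R a d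

/-- `U` splits into two nonempty parts with no `R`-edge between them -/
def Split (R : V → V → Prop) (U : Finset V) : Prop :=
  ∃ A ⊆ U, A.Nonempty ∧ (U \ A).Nonempty ∧ ∀ a ∈ A, ∀ b ∈ U \ A, ¬ R a b

lemma split_extend (R : V → V → Prop) (hR : ∀ a b, R a b → R b a) (hP : NoP4 R) (U : Finset V)
    (v : V) (hv : v ∉ U) (hU : Split R U) :
    Split R (insert v U) ∨ Split (fun a b => ¬ R a b) (insert v U) := by
  classical
  by_cases hall : ∀ w ∈ U, R v w
  · right
    have hins : insert v U \ {v} = U := by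
      ext w
      simp only [Finset.mem_sdiff, Finset.mem_insert, Finset.mem_singleton]
      constructor
      · rintro ⟨h1 | h1, h2⟩
        · exact absurd h1 h2
        · exact h1
      · intro h1
        exact ⟨Or.inr h1, fun h => hv (h ▸ h1)⟩
    refine ⟨{v}, by simp, by simp, ?_, ?_⟩
    · rw [hins]
      obtain ⟨A, hA1, hA2, -⟩ := hU
      exact hA2.mono hA1
    · rw [hins]
      intro a ha b hb
      rw [Finset.mem_singleton] at ha
      subst ha
      simpa using hall b hb
  push Not at hall
  obtain ⟨w, hwU, hw⟩ := hall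
  -- closed sets containing `w`
  let P : Finset V → Prop := fun A => A ⊆ U ∧ w ∈ A ∧ (U \ A).Nonempty ∧
    ∀ a ∈ A, ∀ b ∈ U \ A, ¬ R a b
  have hex : ∃ A, P A := by
    obtain ⟨A, hA1, hA2, hA3, hA4⟩ := hU
    by_cases hwA : w ∈ A
    · exact ⟨A, hA1, hwA, hA3, hA4⟩
    · refine ⟨U \ A, Finset.sdiff_subset, Finset.mem_sdiff.2 ⟨hwU, hwA⟩, ?_, ?_⟩
      · rwa [Finset.sdiff_sdiff_eq_self hA1]
      · rw [Finset.sdiff_sdiff_eq_self hA1]
        intro a ha b hb h
        exact hA4 b hb a ha (hR _ _ h)
  obtain ⟨A, hAP, hmin⟩ :=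
    Finset.exists_min_image (Finset.univ.filter P) Finset.card (by
      obtain ⟨A, hA⟩ := hex
      exact ⟨A, Finset.mem_filter.2 ⟨Finset.mem_univ _, hA⟩⟩)
  obtain ⟨hA1, hA2, hA3, hA4⟩ := (Finset.mem_filter.1 hAP).2
  by_cases h1 : ∃ a ∈ A, R v a
  · by_cases h2 : ∃ c ∈ U \ A, R v c
    · -- an induced P4
      exfalso
      obtain ⟨c, hc, hvc⟩ := h2
      obtain ⟨a0, ha0, hva0⟩ := h1
      have hcross : ∃ b ∈ A, ¬ R v b ∧ ∃ a ∈ A, R v a ∧ R b a := by
        by_contra hcon
        push Not at hcon
        have hP2 : P (A.filter (fun x => ¬ R v x)) := by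
          refine ⟨(Finset.filter_subset _ _).trans hA1, Finset.mem_filter.2 ⟨hA2, hw⟩, ?_, ?_⟩
          · exact hA3.mono (Finset.sdiff_subset_sdiff subset_rfl (Finset.filter_subset _ _))
          · intro b hb a ha hba
            rw [Finset.mem_filter] at hb
            rw [Finset.mem_sdiff, Finset.mem_filter, not_and_not_right] at ha
            by_cases haA : a ∈ A
            · exact hcon b hb.1 hb.2 a haA (ha.2 haA) hba
            · exact hA4 b hb.1 a (Finset.mem_sdiff.2 ⟨ha.1, haA⟩) hba
        have h3 := hmin _ (Finset.mem_filter.2 ⟨Finset.mem_univ _, hP2⟩)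
        have h4 : (A.filter (fun x => ¬ R v x)).card < A.card := by
          apply Finset.card_lt_card
          refine ⟨Finset.filter_subset _ _, fun hsub => ?_⟩
          have := Finset.mem_filter.1 (hsub ha0)
          exact this.2 hva0
        omega
      obtain ⟨b, hb, hvb, a, ha, hva, hba⟩ := hcross
      rw [Finset.mem_sdiff] at hc
      have ne1 : b ≠ a := by rintro rfl; exact hvb hva
      have ne2 : b ≠ v := by rintro rfl; exact hv (hA1 hb)
      have ne3 : b ≠ c := by rintro rfl; exact hc.2 hb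
      have ne4 : a ≠ v := by rintro rfl; exact hv (hA1 ha)
      have ne5 : a ≠ c := by rintro rfl; exact hc.2 ha
      have ne6 : v ≠ c := by rintro rfl; exact hv hc.1
      rcases hP b a v c ne1 ne2 ne3 ne4 ne5 ne6 hba (hR _ _ hva) hvc with h | h | h
      · exact hvb (hR _ _ h)
      · exact hA4 a ha c (Finset.mem_sdiff.2 hc) h
      · exact hA4 b hb c (Finset.mem_sdiff.2 hc) h
    · left
      push Not at h2
      refine ⟨U \ A, Finset.sdiff_subset.trans (Finset.subset_insert _ _), hA3, ?_, ?_⟩
      · exact ⟨v, Finset.mem_sdiff.2 ⟨Finset.mem_insert_self _ _, fun h =>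
          hv (Finset.mem_sdiff.1 h).1⟩⟩
      · intro a ha b hb hab
        rw [Finset.mem_sdiff, Finset.mem_insert] at hb
        rcases hb.1 with rfl | hbU
        · exact h2 a ha (hR _ _ hab)
        · have hbA : b ∈ A := by
            by_contra hbA
            exact hb.2 (Finset.mem_sdiff.2 ⟨hbU, hbA⟩)
          exact hA4 b hbA a ha (hR _ _ hab)
  · left
    push Not at h1
    refine ⟨A, hA1.trans (Finset.subset_insert _ _), ⟨w, hA2⟩, ?_, ?_⟩
    · exact ⟨v, Finset.mem_sdiff.2 ⟨Finset.mem_insert_self _ _, fun h => hv (hA1 h)⟩⟩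
    · intro a ha b hb hab
      rw [Finset.mem_sdiff, Finset.mem_insert] at hb
      rcases hb.1 with rfl | hbU
      · exact h1 a ha (hR _ _ hab)
      · exact hA4 a ha b (Finset.mem_sdiff.2 ⟨hbU, hb.2⟩) hab

/-- the complement of a `P_4`-free relation is `P_4`-free -/
lemma NoP4.compl {R : V → V → Prop} (hR : ∀ a b, R a b → R b a) (hP : NoP4 R) :
    NoP4 (fun a b => ¬ R a b) := by
  intro a b c d hab hac had hbc hbd hcd h1 h2 h3
  by_contra hcon
  push Not at hcon
  obtain ⟨h4, h5, h6⟩ := hcon
  -- the path `b d a c`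
  rcases hP b d a c hbd hab.symm hbc had.symm hcd.symm hac h5 (hR _ _ h6) h4 with h | h | h
  · exact h1 (hR _ _ h)
  · exact h3 (hR _ _ h)
  · exact h2 h

/-- Seinsche's theorem. -/
lemma seinsche (R : V → V → Prop) (hR : ∀ a b, R a b → R b a) (hP : NoP4 R) (U : Finset V)
    (hU : 2 ≤ U.card) : Split R U ∨ Split (fun a b => ¬ R a b) U := by
  classical
  induction U using Finset.induction_on with
  | empty => simp at hU
  | insert v U hv ih =>
    by_cases h2 : 2 ≤ U.card
    · rcases ih h2 with h | h
      · exact split_extend R hR hP U v hv h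
      · have h3 := split_extend (fun a b => ¬ R a b) (fun a b h h' => h (hR _ _ h'))
          (hP.compl hR) U v hv h
        rcases h3 with h3 | h3
        · exact Or.inr h3
        · left
          obtain ⟨A, h4, h5, h6, h7⟩ := h3
          exact ⟨A, h4, h5, h6, fun a ha b hb hab => h7 a ha b hb (fun h => h hab)⟩
    · have h1 : U.card = 1 := by
        rw [Finset.card_insert_of_notMem hv] at hU
        omega
      obtain ⟨u, rfl⟩ := Finset.card_eq_one.1 h1
      have hne : v ≠ u := fun h => hv (by simp [h])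
      have hsd : insert v {u} \ {v} = ({u} : Finset V) := by
        ext w
        simp only [Finset.mem_sdiff, Finset.mem_insert, Finset.mem_singleton]
        constructor
        · rintro ⟨h1 | h1, h2⟩
          · exact absurd h1 h2
          · exact h1
        · rintro rfl
          exact ⟨Or.inr rfl, hne.symm⟩
      by_cases hvu : R v u
      · right
        refine ⟨{v}, by simp, by simp, by rw [hsd]; simp, ?_⟩
        rw [hsd]
        intro a ha b hb
        rw [Finset.mem_singleton] at ha hb
        subst ha; subst hb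
        simpa using hvu
      · left
        refine ⟨{v}, by simp, by simp, by rw [hsd]; simp, ?_⟩
        rw [hsd]
        intro a ha b hb
        rw [Finset.mem_singleton] at ha hb
        subst ha; subst hb
        exact hvu

/-- Main lower bound: a `P_4`-free graph without isolated vertices has an odd induced subgraph on
at least a third of its vertices. -/
lemma lower_bound (hP : NoP4 G.Adj) (m : ℕ) : ∀ U : Finset V, U.card = m →
    (∀ v ∈ U, ∃ w ∈ U, G.Adj v w) → ∃ S ⊆ U, OddOn G S ∧ U.card ≤ 3 * S.card := by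
  induction m using Nat.strong_induction_on with
  | _ m ih =>
  intro U hUm hiso
  by_cases hU0 : U = ∅
  · exact ⟨∅, by simp, fun v hv => by simp at hv, by simp [hU0]⟩
  obtain ⟨u, hu⟩ := Finset.nonempty_iff_ne_empty.2 hU0
  obtain ⟨w, hw, huw⟩ := hiso u hu
  have hpair : ({u, w} : Finset V) ⊆ U := by
    intro x hx
    simp only [Finset.mem_insert, Finset.mem_singleton] at hx
    rcases hx with rfl | rfl <;> assumption
  have hpc : ({u, w} : Finset V).card = 2 := Finset.card_pair huw.ne
  have h2 : 2 ≤ U.card := hpc ▸ Finset.card_le_card hpair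
  rcases seinsche G.Adj (fun a b h => h.symm) hP U h2 with
    ⟨A, hA1, hA2, hA3, hA4⟩ | ⟨A, hA1, hA2, hA3, hA4⟩
  · -- disconnected
    have hcard : (U \ A).card + A.card = U.card := Finset.card_sdiff_add_card_eq_card hA1
    have hp1 := Finset.card_pos.2 hA2
    have hp2 := Finset.card_pos.2 hA3
    obtain ⟨S, hS1, hS2, hS3⟩ := ih A.card (by omega) A rfl (by
      intro v hv
      obtain ⟨x, hx, hvx⟩ := hiso v (hA1 hv)
      refine ⟨x, ?_, hvx⟩
      by_contra hxA
      exact hA4 v hv x (Finset.mem_sdiff.2 ⟨hx, hxA⟩) hvx)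
    obtain ⟨T, hT1, hT2, hT3⟩ := ih (U \ A).card (by omega) (U \ A) rfl (by
      intro v hv
      obtain ⟨x, hx, hvx⟩ := hiso v (Finset.sdiff_subset hv)
      refine ⟨x, ?_, hvx⟩
      rw [Finset.mem_sdiff]
      refine ⟨hx, fun hxA => ?_⟩
      exact hA4 x hxA v hv hvx.symm)
    have hdisj : Disjoint S T := by
      rw [Finset.disjoint_left]
      intro x hx hx'
      exact (Finset.mem_sdiff.1 (hT1 hx')).2 (hS1 hx)
    refine ⟨S ∪ T, Finset.union_subset (hS1.trans hA1) (hT1.trans Finset.sdiff_subset), ?_, ?_⟩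
    · intro v hv
      rw [nb_union G hdisj]
      rw [Finset.mem_union] at hv
      rcases hv with hv | hv
      · rw [nb_none G (S := T) (fun x hx => hA4 v (hS1 hv) x (hT1 hx)), add_zero]
        exact hS2 v hv
      · rw [nb_none G (S := S) (fun x hx h => hA4 x (hS1 hx) v (hT1 hv) h.symm), zero_add]
        exact hT2 v hv
    · rw [Finset.card_union_of_disjoint hdisj]
      omega
  · -- a join
    have hjoin : ∀ a ∈ A, ∀ b ∈ U \ A, G.Adj a b := fun a ha b hb => not_not.1 (hA4 a ha b hb)
    have hunion : A ∪ (U \ A) = U := Finset.union_sdiff_of_subset hA1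
    by_cases h6 : U.card ≤ 6
    · refine ⟨{u, w}, hpair, ?_, by omega⟩
      intro v hv
      simp only [Finset.mem_insert, Finset.mem_singleton] at hv
      have : nb G {u, w} v = 1 := by
        unfold nb
        rw [Finset.card_eq_one]
        rcases hv with rfl | rfl
        · refine ⟨w, ?_⟩
          ext x
          simp only [Finset.mem_filter, Finset.mem_insert, Finset.mem_singleton]
          constructor
          · rintro ⟨rfl | rfl, h⟩
            · exact absurd h (G.irrefl)
            · rfl
          · rintro rfl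
            exact ⟨Or.inr rfl, huw⟩
        · refine ⟨u, ?_⟩
          ext x
          simp only [Finset.mem_filter, Finset.mem_insert, Finset.mem_singleton]
          constructor
          · rintro ⟨rfl | rfl, h⟩
            · rfl
            · exact absurd h (G.irrefl)
          · rintro rfl
            exact ⟨Or.inl rfl, huw.symm⟩
      rw [this]
      exact odd_one
    · obtain ⟨S, hS1, hS2, hS3⟩ := join_bound G A (U \ A) hA2 hA3 Finset.disjoint_sdiff hjoin
      rw [hunion] at hS1 hS3
      exact ⟨S, hS1, hS2, by omega⟩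

end Pool.Agent.R41.OddInd
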