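import Pool.Agent.R41.OddForest
import Pool.Agent.R41.Even

/-!
MP_b4b0f8: a minimum set `M` of edges meeting every vertex an odd number of times is a forest with
the exchange property, and the final assembly.
-/

set_option autoImplicit false

namespace Pool.Agent.R41.OJ

open Finset SimpleGraph Pool.Agent.R41.OF

set_option linter.unusedSectionVars false

variable {V : Type} [Fintype V] [DecidableEq V]

/-- number of edges of `S` at `v` -/
def inc (S : Finset (Sym2 V)) (v : V) : ℕ := (S.filter (fun e => v ∈ e)).card

lemma inc_union {A B : Finset (Sym2 V)} (h : Disjoint A B) (v : V) :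
    inc (A ∪ B) v = inc A v + inc B v := by
  unfold inc
  rw [Finset.filter_union, Finset.card_union_of_disjoint]
  exact Finset.disjoint_filter_filter h

lemma card_symm {α : Type} [DecidableEq α] (A B : Finset α) :
    (symmDiff A B).card + 2 * (A ∩ B).card = A.card + B.card := by
  have h1 : (symmDiff A B).card = (A \ B).card + (B \ A).card := by
    show ((A \ B) ∪ (B \ A)).card = _
    exact Finset.card_union_of_disjoint disjoint_sdiff_sdiff
  have h2 := Finset.card_sdiff_add_card_inter A B
  have h3 := Finset.card_sdiff_add_card_inter B A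
  rw [Finset.inter_comm] at h3
  omega

lemma inc_symm (A B : Finset (Sym2 V)) (v : V) :
    inc (symmDiff A B) v + 2 * inc (A ∩ B) v = inc A v + inc B v := by
  unfold inc
  rw [← card_symm]
  congr 1
  · congr 1
    ext e
    simp only [Finset.mem_filter, Finset.mem_symmDiff]
    tauto
  · congr 2
    ext e
    simp only [Finset.mem_filter, Finset.mem_inter]
    tauto

/-- `M` is a minimum set of edges of `G` meeting every vertex an odd number of times. -/
structure MinJoin (G : SimpleGraph V) (M : Finset (Sym2 V)) : Prop where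
  sub : ∀ e ∈ M, e ∈ G.edgeSet
  odd : ∀ v, Odd (inc M v)
  min : ∀ M' : Finset (Sym2 V), (∀ e ∈ M', e ∈ G.edgeSet) → (∀ v, Odd (inc M' v)) →
    M.card ≤ M'.card

lemma MinJoin.exch {G : SimpleGraph V} {M : Finset (Sym2 V)} (h : MinJoin G M)
    (F : Finset (Sym2 V)) (hF : ∀ e ∈ F, e ∈ G.edgeSet) (hev : ∀ v, Even (inc F v)) :
    2 * (M ∩ F).card ≤ F.card := by
  have h1 := h.min (symmDiff M F) (fun e he => by
    rw [Finset.mem_symmDiff] at he
    rcases he with he | he
    · exact h.sub e he.1
    · exact hF e he.1) (fun v => by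
    have h2 := inc_symm M F v
    obtain ⟨a, ha⟩ := h.odd v
    obtain ⟨b, hb⟩ := hev v
    rw [← Nat.not_even_iff_odd]
    rintro ⟨c, hc⟩
    omega)
  have h2 := card_symm M F
  omega

/-- indicator -/
def dl (v x : V) : ZMod 2 := if v = x then 1 else 0

lemma inc_trail {T : SimpleGraph V} {x y : V} (p : T.Walk x y) (hp : p.IsTrail) (v : V) :
    (inc p.edges.toFinset v : ZMod 2) = dl v x + dl v y := by
  have h1 : inc p.edges.toFinset v = p.edges.countP (fun e => v ∈ e) := by
    unfold inc
    rw [List.countP_eq_length_filter, ← List.toFinset_card_of_nodup (hp.edges_nodup.filter _)]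
    congr 1
    ext e
    simp
  have h2 := hp.even_countP_edges_iff v
  rw [← h1] at h2
  by_cases h3 : x ≠ y → v ≠ x ∧ v ≠ y
  · have h4 : Even (inc p.edges.toFinset v) := h2.2 h3
    rw [(ZMod.natCast_eq_zero_iff_even).2 h4]
    by_cases hxy : x = y
    · subst hxy
      exact (CharTwo.add_self_eq_zero _).symm
    · obtain ⟨h5, h6⟩ := h3 hxy
      unfold dl
      rw [if_neg h5, if_neg h6, add_zero]
  · have h4 : Odd (inc p.edges.toFinset v) := by
      rw [← Nat.not_even_iff_odd]
      exact fun h => h3 (h2.1 h)
    rw [(ZMod.natCast_eq_one_iff_odd).2 h4]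
    push Not at h3
    obtain ⟨hxy, h5⟩ := h3
    unfold dl
    by_cases h6 : v = x
    · have h7 : v ≠ y := fun h => hxy (h6.symm.trans h)
      rw [if_pos h6, if_neg h7, add_zero]
    · rw [if_neg h6, if_pos (h5 h6), zero_add]

lemma inc_single {a b : V} (hab : a ≠ b) (v : V) :
    (inc {s(a, b)} v : ZMod 2) = dl v a + dl v b := by
  unfold inc dl
  rw [Finset.filter_singleton]
  by_cases h1 : v = a
  · have h2 : v ≠ b := fun h => hab (h1.symm.trans h)
    rw [if_pos h1, if_neg h2]
    subst h1
    simp
  · by_cases h2 : v = b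
    · rw [if_neg h1, if_pos h2]
      subst h2
      simp
    · rw [if_neg h1, if_neg h2]
      have : v ∉ s(a, b) := by rw [Sym2.mem_iff]; tauto
      rw [if_neg this]
      simp

/-- The graph with edge set `M`. -/
abbrev mg (M : Finset (Sym2 V)) : SimpleGraph V := SimpleGraph.fromEdgeSet (M : Set (Sym2 V))

lemma walk_edges_sub {M : Finset (Sym2 V)} {x y : V} (p : (mg M).Walk x y) :
    p.edges.toFinset ⊆ M := by
  intro e he
  rw [List.mem_toFinset] at he
  have := p.edges_subset_edgeSet he
  rw [SimpleGraph.edgeSet_fromEdgeSet] at this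
  exact this.1

variable {G : SimpleGraph V} {M : Finset (Sym2 V)}

lemma MinJoin.adj_iff (h : MinJoin G M) (a b : V) : (mg M).Adj a b ↔ s(a, b) ∈ M := by
  rw [SimpleGraph.fromEdgeSet_adj]
  constructor
  · exact fun h => h.1
  · intro h1
    exact ⟨h1, (G.mem_edgeSet.1 (h.sub _ h1)).ne⟩

lemma MinJoin.le (h : MinJoin G M) : mg M ≤ G := by
  intro a b hab
  exact h.sub _ ((h.adj_iff a b).1 hab)

lemma MinJoin.acyclic (h : MinJoin G M) : (mg M).IsAcyclic := by
  intro v c hc
  have h1 := h.exch c.edges.toFinset (fun e he => h.sub e (walk_edges_sub c he)) (fun w => by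
    rw [← ZMod.natCast_eq_zero_iff_even, inc_trail c hc.isTrail]
    exact CharTwo.add_self_eq_zero _)
  rw [Finset.inter_eq_right.2 (walk_edges_sub c),
    List.toFinset_card_of_nodup hc.isTrail.edges_nodup, Walk.length_edges] at h1
  have := hc.three_le_length
  omega

lemma MinJoin.induced (h : MinJoin G M) (x y : V) (hxy : G.Adj x y)
    (hr : (mg M).Reachable x y) : (mg M).Adj x y := by
  by_contra hn
  obtain ⟨p, hp⟩ := hr.exists_isPath
  have hl := len_two p hxy.ne hn
  have hnM : s(x, y) ∉ M := fun h1 => hn ((h.adj_iff x y).2 h1)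
  have hdis : Disjoint p.edges.toFinset {s(x, y)} := by
    rw [Finset.disjoint_singleton_right]
    exact fun h1 => hnM (walk_edges_sub p h1)
  have h1 := h.exch (p.edges.toFinset ∪ {s(x, y)}) (fun e he => by
    rw [Finset.mem_union, Finset.mem_singleton] at he
    rcases he with he | he
    · exact h.sub e (walk_edges_sub p he)
    · rw [he]; exact hxy) (fun w => by
    rw [← ZMod.natCast_eq_zero_iff_even, inc_union hdis, Nat.cast_add, inc_trail p hp.isTrail,
      inc_single hxy.ne]
    exact CharTwo.add_self_eq_zero _)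
  have h2 : p.edges.toFinset ⊆ M ∩ (p.edges.toFinset ∪ {s(x, y)}) :=
    Finset.subset_inter (walk_edges_sub p) Finset.subset_union_left
  have h3 := Finset.card_le_card h2
  rw [Finset.card_union_of_disjoint hdis, Finset.card_singleton,
    List.toFinset_card_of_nodup hp.isTrail.edges_nodup, Walk.length_edges] at h1
  rw [List.toFinset_card_of_nodup hp.isTrail.edges_nodup, Walk.length_edges] at h3
  omega

lemma MinJoin.exchange (h : MinJoin G M) : Exch G (mg M) := by
  intro x x' w w' p q hp hq hnr hxw hxw' hne
  have hPQ : Disjoint p.edges.toFinset q.edges.toFinset := by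
    rw [Finset.disjoint_left]
    intro e h1 h2
    rw [List.mem_toFinset] at h1 h2
    induction e using Sym2.ind with
    | _ a b =>
    have h3 := p.fst_mem_support_of_mem_edges h1
    have h4 := q.fst_mem_support_of_mem_edges h2
    exact hnr ((p.takeUntil a h3).reachable.trans (q.takeUntil a h4).reachable.symm)
  have hn1 : s(x, w) ∉ M := fun h1 => hnr ((h.adj_iff x w).2 h1).reachable
  have hn2 : s(x', w') ∉ M := fun h1 =>
    hnr ((p.reachable.trans ((h.adj_iff x' w').2 h1).reachable).trans q.reachable.symm)
  have hd1 : Disjoint (p.edges.toFinset ∪ q.edges.toFinset) {s(x, w)} := by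
    rw [Finset.disjoint_singleton_right, Finset.mem_union]
    rintro (h1 | h1)
    · exact hn1 (walk_edges_sub p h1)
    · exact hn1 (walk_edges_sub q h1)
  have hd2 : Disjoint (p.edges.toFinset ∪ q.edges.toFinset ∪ {s(x, w)}) {s(x', w')} := by
    rw [Finset.disjoint_singleton_right, Finset.mem_union, Finset.mem_union, Finset.mem_singleton]
    rintro ((h1 | h1) | h1)
    · exact hn2 (walk_edges_sub p h1)
    · exact hn2 (walk_edges_sub q h1)
    · exact hne h1.symm
  have h1 := h.exch (p.edges.toFinset ∪ q.edges.toFinset ∪ {s(x, w)} ∪ {s(x', w')})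
    (fun e he => by
      rw [Finset.mem_union, Finset.mem_union, Finset.mem_union, Finset.mem_singleton,
        Finset.mem_singleton] at he
      rcases he with ((he | he) | he) | he
      · exact h.sub e (walk_edges_sub p he)
      · exact h.sub e (walk_edges_sub q he)
      · rw [he]; exact hxw
      · rw [he]; exact hxw') (fun v => by
      rw [← ZMod.natCast_eq_zero_iff_even, inc_union hd2, inc_union hd1, inc_union hPQ,
        Nat.cast_add, Nat.cast_add, Nat.cast_add, inc_trail p hp.isTrail, inc_trail q hq.isTrail,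
        inc_single hxw.ne, inc_single hxw'.ne]
      have h2 : ∀ a b c d : ZMod 2, a + b + (c + d) + (a + c) + (b + d) = 0 := by decide
      exact h2 _ _ _ _)
  have h2 : p.edges.toFinset ∪ q.edges.toFinset ⊆
      M ∩ (p.edges.toFinset ∪ q.edges.toFinset ∪ {s(x, w)} ∪ {s(x', w')}) := by
    refine Finset.subset_inter (Finset.union_subset (walk_edges_sub p) (walk_edges_sub q)) ?_
    exact Finset.subset_union_left.trans Finset.subset_union_left
  have h3 := Finset.card_le_card h2
  rw [Finset.card_union_of_disjoint hd2, Finset.card_union_of_disjoint hd1,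
    Finset.card_union_of_disjoint hPQ, Finset.card_singleton, Finset.card_singleton,
    List.toFinset_card_of_nodup hp.isTrail.edges_nodup, Walk.length_edges,
    List.toFinset_card_of_nodup hq.isTrail.edges_nodup, Walk.length_edges] at h1
  rw [Finset.card_union_of_disjoint hPQ,
    List.toFinset_card_of_nodup hp.isTrail.edges_nodup, Walk.length_edges,
    List.toFinset_card_of_nodup hq.isTrail.edges_nodup, Walk.length_edges] at h3
  omega

lemma deg_eq_inc (T : SimpleGraph V) [DecidableRel T.Adj] (v : V) :
    T.degree v = inc T.edgeFinset v := by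
  unfold inc
  rw [← SimpleGraph.card_incidenceFinset_eq_degree, SimpleGraph.incidenceFinset_eq_filter]

/-- The main inequality. -/
theorem MinJoin.card_le [DecidableRel G.Adj] [Nonempty V] (h : MinJoin G M) {k : ℕ}
    (hreg : ∀ v, G.degree v = 2 * k + 1) : M.card + (k + 1) ≤ Fintype.card V := by
  classical
  have hE : ∀ inst : Fintype (mg M).edgeSet, @SimpleGraph.edgeFinset V (mg M) inst = M := by
    intro inst
    ext e
    rw [SimpleGraph.mem_edgeFinset]
    induction e using Sym2.ind with
    | _ a b => exact (h.adj_iff a b)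
  have h1 := count (T := mg M) h.le h.acyclic h.exchange h.induced (fun v => by
    rw [deg_eq_inc, hE]
    exact h.odd v) hreg
  rw [hE] at h1
  exact h1

/-- A minimum set exists. -/
theorem exists_minJoin [DecidableRel G.Adj] (hodd : ∀ v, Odd (G.degree v)) :
    ∃ M, MinJoin G M := by
  classical
  let P : Finset (Finset (Sym2 V)) := G.edgeFinset.powerset.filter (fun M => ∀ v, Odd (inc M v))
  have hP : P.Nonempty := by
    refine ⟨G.edgeFinset, ?_⟩
    rw [Finset.mem_filter]
    refine ⟨Finset.mem_powerset_self _, fun v => ?_⟩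
    rw [← deg_eq_inc]
    exact hodd v
  obtain ⟨M, hM, hmin⟩ := Finset.exists_min_image P Finset.card hP
  rw [Finset.mem_filter, Finset.mem_powerset] at hM
  refine ⟨M, fun e he => SimpleGraph.mem_edgeFinset.1 (hM.1 he), hM.2, fun M' h1 h2 => ?_⟩
  refine hmin M' ?_
  rw [Finset.mem_filter, Finset.mem_powerset]
  exact ⟨fun e he => SimpleGraph.mem_edgeFinset.2 (h1 e he), h2⟩

end Pool.Agent.R41.OJ
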