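import Mathlib

/-!
MP_aba9fe: definitions (multigraphs, unique shortest paths, minors, spectator floor).
-/

set_option autoImplicit false

namespace Pool.Agent.R41.Sp

/-- A graph with multiple edges and without loops on the vertex set `V`: `mult x y` is the number
of (parallel) edges joining `x` and `y`; these edges are numbered `0, 1, …, mult x y - 1`. -/
@[ext] structure MGraph (V : Type) where
  mult : V → V → ℕ
  symm : ∀ x y, mult x y = mult y x
  loopless : ∀ x, mult x x = 0

namespace MGraph

variable {V : Type}

/-- `v 0, …, v (q - 1)` are the vertices of a path of order `q`, and `e i`, for `i + 1 < q`, is the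
number of the edge from `v i` to `v (i + 1)` used by the path. -/
structure IsPath (G : MGraph V) (q : ℕ) (v : ℕ → V) (e : ℕ → ℕ) : Prop where
  pos : 0 < q
  inj : ∀ i < q, ∀ j < q, v i = v j → i = j
  edge : ∀ i, i + 1 < q → e i < G.mult (v i) (v (i + 1))

/-- The path is a unique shortest path: no path with the same end vertices has smaller order, and
every path with the same end vertices and the same order has the same vertices and edges. -/
structure IsUSP (G : MGraph V) (q : ℕ) (v : ℕ → V) (e : ℕ → ℕ) : Prop where
  path : G.IsPath q v e
  short : ∀ (q' : ℕ) (v' : ℕ → V) (e' : ℕ → ℕ), G.IsPath q' v' e' → v' 0 = v 0 →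
    v' (q' - 1) = v (q - 1) → q ≤ q'
  uniq : ∀ (v' : ℕ → V) (e' : ℕ → ℕ), G.IsPath q v' e' → v' 0 = v 0 → v' (q - 1) = v (q - 1) →
    (∀ i < q, v' i = v i) ∧ ∀ i, i + 1 < q → e' i = e i

/-- The parade number: the largest order of a unique shortest path. -/
noncomputable def usp (G : MGraph V) : ℕ := sSup {q | ∃ v e, G.IsUSP q v e}

/-- The spectator number. -/
noncomputable def sp (G : MGraph V) : ℕ := Nat.card V - G.usp

/-- `F` is a supergraph of `G` (on the same vertex set): it arises from `G` by adding edges. -/
def IsSupergraph (G F : MGraph V) : Prop := ∀ x y, G.mult x y ≤ F.mult x y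

/-- Deletion of the vertex `w` (used for isolated vertices only). -/
def delVertex (H : MGraph V) (w : V) : MGraph {x : V // x ≠ w} where
  mult x y := H.mult x y
  symm x y := H.symm x y
  loopless x := H.loopless x

open Classical in
/-- Deletion of one edge joining `a` and `b`. -/
noncomputable def delEdge (H : MGraph V) (a b : V) : MGraph V where
  mult x y := if s(x, y) = s(a, b) then H.mult x y - 1 else H.mult x y
  symm x y := by
    rw [Sym2.eq_swap, H.symm x y]
  loopless x := by
    rw [H.loopless x]
    simp

open Classical in
/-- Contraction of the edges between `a` and `b` (used only if there is exactly one such edge):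
the vertex `b` is identified with `a`. -/
noncomputable def contract (H : MGraph V) (a b : V) : MGraph {x : V // x ≠ b} where
  mult x y := if x = y then 0 else
    H.mult x y + (if x.1 = a then H.mult b y else 0) + (if y.1 = a then H.mult x b else 0)
  symm x y := by
    by_cases h : x = y
    · rw [if_pos h, if_pos h.symm]
    · rw [if_neg h, if_neg (Ne.symm h), H.symm x y, H.symm b y, H.symm x b]
      omega
  loopless x := by rw [if_pos rfl]

end MGraph

/-- `Minor G H`: the graph `G` is (isomorphic to a graph) obtained from `H` by a sequence of the
operations: delete an isolated vertex; delete an edge; contract an edge that has no edge parallel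
to it. -/
inductive Minor {V : Type} (G : MGraph V) : {W : Type} → MGraph W → Prop
  | iso {W : Type} (H : MGraph W) (φ : V ≃ W) (h : ∀ x y, G.mult x y = H.mult (φ x) (φ y)) :
      Minor G H
  | delVertex {W : Type} (H : MGraph W) (w : W) (hw : ∀ x, H.mult x w = 0)
      (h : Minor G (H.delVertex w)) : Minor G H
  | delEdge {W : Type} (H : MGraph W) (a b : W) (hab : 0 < H.mult a b)
      (h : Minor G (H.delEdge a b)) : Minor G H
  | contract {W : Type} (H : MGraph W) (a b : W) (hab : H.mult a b = 1)
      (h : Minor G (H.contract a b)) : Minor G H

/-- The spectator floor: the least spectator number of a finite graph `H` having `G` as a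
minor. -/
noncomputable def sf {V : Type} (G : MGraph V) : ℕ :=
  sInf {s | ∃ (W : Type) (_ : Finite W) (_ : Nonempty W) (H : MGraph W), Minor G H ∧ H.sp = s}

end Pool.Agent.R41.Sp
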