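import Pool.Agent.R41.SpDefs

/-!
MP_aba9fe: labellings and minors.
-/

set_option autoImplicit false

namespace Pool.Agent.R41.Sp

/-- A labelling of `H` by integers: the even labels are `0, 2, …, 2 (q - 1)`, each of them used
exactly once, adjacent vertices have labels at distance at most two, and there are no parallel
edges between vertices with even labels. -/
structure Lab {W : Type} (H : MGraph W) (q : ℕ) (μ : W → ℤ) : Prop where
  ex : ∀ i : ℕ, i < q → ∃ x, μ x = 2 * i
  rng : ∀ x, Even (μ x) → 0 ≤ μ x ∧ μ x < 2 * q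
  inj : ∀ x y, Even (μ x) → μ x = μ y → x = y
  lip : ∀ x y, 0 < H.mult x y → -2 ≤ μ x - μ y ∧ μ x - μ y ≤ 2
  one : ∀ x y, Even (μ x) → Even (μ y) → H.mult x y ≤ 1

variable {W : Type} {H : MGraph W} {q : ℕ} {μ : W → ℤ}

lemma Lab.mono {H' : MGraph W} (h : Lab H q μ) (hle : ∀ x y, H'.mult x y ≤ H.mult x y) :
    Lab H' q μ where
  ex := h.ex
  rng := h.rng
  inj := h.inj
  lip x y hxy := h.lip x y (lt_of_lt_of_le hxy (hle x y))
  one x y hx hy := (hle x y).trans (h.one x y hx hy)

/-- Labels outside the range can be moved to its ends. -/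
lemma Lab.clip (h : Lab H q μ) :
    ∃ ν : W → ℤ, Lab H q ν ∧ ∀ x, -1 ≤ ν x ∧ (ν x ≤ 2 * q - 1 ∨ ν x ≤ -1) := by
  let c : ℤ → ℤ := fun m => if m < -1 then -1 else if 2 * (q : ℤ) - 1 < m then 2 * q - 1 else m
  have hc : ∀ m : ℤ, c m = if m < -1 then (-1 : ℤ) else
      if 2 * (q : ℤ) - 1 < m then 2 * (q : ℤ) - 1 else m := fun m => rfl
  have h1 : ∀ x, Even (c (μ x)) → Even (μ x) ∧ c (μ x) = μ x := by
    intro x hx
    rw [Int.even_iff] at hx ⊢
    rw [hc] at hx ⊢
    split_ifs at hx ⊢ with h1 h2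
    · omega
    · omega
    · exact ⟨hx, rfl⟩
  have h2 : ∀ x, Even (μ x) → c (μ x) = μ x := by
    intro x hx
    have := h.rng x hx
    rw [hc]
    split_ifs with h1 h2
    · omega
    · rw [Int.even_iff] at hx; omega
    · rfl
  refine ⟨fun x => c (μ x), ⟨?_, ?_, ?_, ?_, ?_⟩, ?_⟩
  · intro i hi
    obtain ⟨x, hx⟩ := h.ex i hi
    exact ⟨x, by rw [h2 x (hx ▸ even_two_mul _), hx]⟩
  · intro x hx
    obtain ⟨h3, h4⟩ := h1 x hx
    simp only [h4]
    exact h.rng x h3
  · intro x y hx hxy
    obtain ⟨h3, h4⟩ := h1 x hx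
    obtain ⟨h5, h6⟩ := h1 y (hxy ▸ hx)
    rw [h4, h6] at hxy
    exact h.inj x y h3 hxy
  · intro x y hxy
    have h3 := h.lip x y hxy
    simp only [hc]
    split_ifs <;> omega
  · intro x y hx hy
    exact h.one x y (h1 x hx).1 (h1 y hy).1
  · intro x
    simp only [hc]
    split_ifs <;> omega

/-- Removing the even label `2 j`. -/
lemma Lab.drop (h : Lab H (q + 1) μ) (j : ℕ) (hj : j ≤ q) :
    Lab H q (fun x => if μ x < 2 * j then μ x else if μ x = 2 * j then 2 * j - 1 else μ x - 2) := by
  let c : ℤ → ℤ := fun m => if m < 2 * j then m else if m = 2 * j then 2 * j - 1 else m - 2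
  have hc : ∀ m, c m = if m < 2 * j then m else if m = 2 * j then 2 * j - 1 else m - 2 :=
    fun m => rfl
  show Lab H q (fun x => c (μ x))
  have h1 : ∀ x, Even (c (μ x)) → Even (μ x) ∧ μ x ≠ 2 * j := by
    intro x hx
    rw [Int.even_iff] at hx ⊢
    rw [hc] at hx
    split_ifs at hx with h1 h2 <;> constructor <;> omega
  refine ⟨?_, ?_, ?_, ?_, ?_⟩
  · intro i hi
    by_cases hij : i < j
    · obtain ⟨x, hx⟩ := h.ex i (by omega)
      refine ⟨x, ?_⟩
      simp only [hc, hx]
      rw [if_pos (by omega)]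
    · obtain ⟨x, hx⟩ := h.ex (i + 1) (by omega)
      refine ⟨x, ?_⟩
      simp only [hc, hx]
      rw [if_neg (by push_cast; omega), if_neg (by push_cast; omega)]
      push_cast
      ring
  · intro x hx
    obtain ⟨h3, h4⟩ := h1 x hx
    have h5 := h.rng x h3
    rw [Int.even_iff] at hx h3
    push_cast at h5
    simp only [hc] at hx ⊢
    split_ifs at hx ⊢ <;> constructor <;> omega
  · intro x y hx hxy
    obtain ⟨h3, h4⟩ := h1 x hx
    obtain ⟨h5, h6⟩ := h1 y (by
      have hx' : Even (c (μ x)) := hx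
      have hxy' : c (μ x) = c (μ y) := hxy
      rwa [hxy'] at hx')
    apply h.inj x y h3
    rw [Int.even_iff] at h3 h5
    simp only [hc] at hxy
    split_ifs at hxy <;> omega
  · intro x y hxy
    have h3 := h.lip x y hxy
    simp only [hc]
    split_ifs <;> omega
  · intro x y hx hy
    exact h.one x y (h1 x hx).1 (h1 y hy).1

/-- Deleting a vertex with an odd label. -/
lemma Lab.delete (h : Lab H q μ) (w : W) (hw : ¬ Even (μ w)) :
    Lab (H.delVertex w) q (fun x => μ x.1) := by
  refine ⟨?_, fun x hx => h.rng x.1 hx, fun x y hx hxy => Subtype.ext (h.inj x.1 y.1 hx hxy),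
    fun x y hxy => h.lip x.1 y.1 hxy, fun x y hx hy => h.one x.1 y.1 hx hy⟩
  intro i hi
  obtain ⟨x, hx⟩ := h.ex i hi
  refine ⟨⟨x, ?_⟩, hx⟩
  rintro rfl
  exact hw (hx ▸ even_two_mul _)

open Classical in
/-- Contracting an edge between two vertices with the same (odd) label. -/
lemma Lab.contract (h : Lab H q μ) (a b : W) (hab : a ≠ b) (hμ : μ a = μ b) :
    Lab (H.contract a b) q (fun x => μ x.1) := by
  have hodd : ¬ Even (μ b) := fun he => hab (h.inj b a he hμ.symm).symm
  refine ⟨?_, fun x hx => h.rng x.1 hx, fun x y hx hxy => Subtype.ext (h.inj x.1 y.1 hx hxy),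
    ?_, ?_⟩
  · intro i hi
    obtain ⟨x, hx⟩ := h.ex i hi
    refine ⟨⟨x, ?_⟩, hx⟩
    rintro rfl
    exact hodd (hx ▸ even_two_mul _)
  · intro x y hxy
    have h1 : (H.contract a b).mult x y = if x = y then 0 else
      H.mult x y + (if x.1 = a then H.mult b y else 0) + (if y.1 = a then H.mult x b else 0) := rfl
    rw [h1] at hxy
    split_ifs at hxy with h2 h3 h4 h4
    · omega
    · exact absurd (Subtype.ext (h3.trans h4.symm)) h2
    · by_cases h5 : 0 < H.mult x y
      · exact h.lip _ _ h5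
      · have h6 := h.lip b y.1 (by omega)
        rw [h3, hμ]
        exact h6
    · by_cases h5 : 0 < H.mult x y
      · exact h.lip _ _ h5
      · have h6 := h.lip x.1 b (by omega)
        rw [h4, hμ]
        exact h6
    · exact h.lip x.1 y.1 (by omega)
  · intro x y hx hy
    have h1 : (H.contract a b).mult x y = if x = y then 0 else
      H.mult x y + (if x.1 = a then H.mult b y else 0) + (if y.1 = a then H.mult x b else 0) := rfl
    rw [h1]
    have hxa : x.1 ≠ a := fun h => hodd (by rw [← hμ, ← h]; exact hx)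
    have hya : y.1 ≠ a := fun h => hodd (by rw [← hμ, ← h]; exact hy)
    rw [if_neg hxa, if_neg hya]
    split_ifs
    · omega
    · exact h.one x.1 y.1 hx hy

open Classical in
/-- Contracting the edge between the vertices with labels `2 j` and `2 j + 2`. -/
lemma Lab.merge (h : Lab H (q + 1) μ) (a b : W) (j : ℕ) (hj : j < q)
    (hμ : (μ a = 2 * j ∧ μ b = 2 * j + 2) ∨ (μ a = 2 * j + 2 ∧ μ b = 2 * j)) :
    Lab (H.contract a b) q (fun x => if μ x.1 ≤ 2 * j + 1 then μ x.1 else μ x.1 - 2) := by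
  let c : ℤ → ℤ := fun m => if m ≤ 2 * j + 1 then m else m - 2
  have hc : ∀ m, c m = if m ≤ 2 * j + 1 then m else m - 2 := fun m => rfl
  show Lab (H.contract a b) q (fun x => c (μ x.1))
  have hmult : ∀ x y : {x : W // x ≠ b}, (H.contract a b).mult x y = if x = y then 0 else
      H.mult x y + (if x.1 = a then H.mult b y else 0) + (if y.1 = a then H.mult x b else 0) :=
    fun x y => rfl
  have hev : ∀ x, Even (c (μ x)) ↔ Even (μ x) := by
    intro x
    rw [Int.even_iff, Int.even_iff, hc]
    split_ifs <;> omega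
  have hea : Even (μ a) := by
    rw [Int.even_iff]; omega
  have heb : Even (μ b) := by
    rw [Int.even_iff]; omega
  refine ⟨?_, ?_, ?_, ?_, ?_⟩
  · intro i hi
    by_cases hij : i < j
    · obtain ⟨x, hx⟩ := h.ex i (by omega)
      refine ⟨⟨x, ?_⟩, ?_⟩
      · rintro rfl; omega
      · simp only [hc, hx]
        rw [if_pos (by omega)]
    by_cases hij' : i = j
    · subst hij'
      refine ⟨⟨a, ?_⟩, ?_⟩
      · rintro rfl; omega
      · simp only [hc]
        rcases hμ with h1 | h1
        · rw [if_pos (by omega)]; exact h1.1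
        · rw [if_neg (by omega)]; omega
    · obtain ⟨x, hx⟩ := h.ex (i + 1) (by omega)
      push_cast at hx
      refine ⟨⟨x, ?_⟩, ?_⟩
      · rintro rfl; omega
      · simp only [hc, hx]
        rw [if_neg (by omega)]
        ring
  · intro x hx
    have h1 := (hev x.1).1 hx
    have h5 := h.rng x.1 h1
    rw [Int.even_iff] at h1
    push_cast at h5
    simp only [hc]
    split_ifs <;> constructor <;> omega
  · intro x y hx hxy
    have h1 := (hev x.1).1 hx
    have h2 := (hev y.1).1 (hxy ▸ hx)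
    apply Subtype.ext
    by_cases hne : μ x.1 = μ y.1
    · exact h.inj _ _ h1 hne
    · exfalso
      -- the labels are `2 j` and `2 j + 2`
      have hb : ∀ z : {x : W // x ≠ b}, μ z.1 ≠ μ b := fun z hz =>
        z.2 (h.inj b z.1 heb hz.symm).symm
      have hbx := hb x
      have hby := hb y
      rw [Int.even_iff] at h1 h2
      simp only [hc] at hxy
      split_ifs at hxy <;> omega
  · intro x y hxy
    rw [hmult] at hxy
    have hl : ∀ u v : W, 0 < H.mult u v → -2 ≤ c (μ u) - c (μ v) ∧ c (μ u) - c (μ v) ≤ 2 := by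
      intro u v huv
      have h3 := h.lip u v huv
      simp only [hc]
      split_ifs <;> omega
    have hcab : c (μ a) = c (μ b) := by
      simp only [hc]
      rcases hμ with h1 | h1 <;> rw [h1.1, h1.2] <;> split_ifs <;> omega
    split_ifs at hxy with h2 h3 h4 h4
    · omega
    · exact absurd (Subtype.ext (h3.trans h4.symm)) h2
    · by_cases h5 : 0 < H.mult x y
      · exact hl _ _ h5
      · have h6 := hl b y.1 (by omega)
        rw [h3, hcab]
        exact h6
    · by_cases h5 : 0 < H.mult x y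
      · exact hl _ _ h5
      · have h6 := hl x.1 b (by omega)
        rw [h4, hcab]
        exact h6
    · exact hl x.1 y.1 (by omega)
  · intro x y hx hy
    have h1 := (hev x.1).1 hx
    have h2 := (hev y.1).1 hy
    -- an even vertex is not adjacent to both `a` and `b`
    have key : ∀ z : W, Even (μ z) → z ≠ a → z ≠ b → H.mult a z + H.mult b z ≤ 1 := by
      intro z hz hza hzb
      have h3 := h.one a z hea hz
      have h4 := h.one b z heb hz
      by_contra hcon
      have h5 := h.lip a z (by omega)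
      have h6 := h.lip b z (by omega)
      have h7 : μ z ≠ μ a := fun h' => hza (h.inj z a hz h')
      have h8 : μ z ≠ μ b := fun h' => hzb (h.inj z b hz h')
      rw [Int.even_iff] at hz
      omega
    rw [hmult]
    split_ifs with h3 h4 h5 h5
    · omega
    · exact absurd (Subtype.ext (h4.trans h5.symm)) h3
    · have hya : y.1 ≠ a := h5
      have := key y.1 h2 hya y.2
      rw [h4]
      omega
    · have := key x.1 h1 h4 x.2
      rw [h5, H.symm x.1 a, H.symm x.1 b]
      omega
    · have := h.one x.1 y.1 h1 h2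
      omega

lemma Lab.iso {V : Type} {G : MGraph V} (h : Lab H q μ) (φ : V ≃ W)
    (hφ : ∀ x y, G.mult x y = H.mult (φ x) (φ y)) : Lab G q (fun x => μ (φ x)) where
  ex i hi := by
    obtain ⟨x, hx⟩ := h.ex i hi
    exact ⟨φ.symm x, by simpa using hx⟩
  rng x hx := h.rng _ hx
  inj x y hx hxy := φ.injective (h.inj _ _ hx hxy)
  lip x y hxy := h.lip _ _ (hφ x y ▸ hxy)
  one x y hx hy := (hφ x y).le.trans (h.one _ _ hx hy)

lemma card_ne (w : W) [Finite W] : Nat.card {x : W // x ≠ w} + 1 = Nat.card W := by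
  classical
  have := Fintype.ofFinite W
  rw [Nat.card_eq_fintype_card, Nat.card_eq_fintype_card, Fintype.card_subtype_compl,
    Fintype.card_subtype_eq]
  have : 0 < Fintype.card W := Fintype.card_pos_iff.2 ⟨w⟩
  omega

open Classical in
/-- Labellings of minors. -/
theorem minor_lab {V : Type} {G : MGraph V} {W : Type} {H : MGraph W} (h : Minor G H) :
    Finite W → ∀ (q : ℕ) (μ : W → ℤ), Lab H q μ →
      ∃ (q' : ℕ) (ν : V → ℤ), Lab G q' ν ∧ Nat.card V + q ≤ Nat.card W + q' := by
  induction h with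
  | iso H φ hφ =>
    intro _ q μ hμ
    exact ⟨q, _, hμ.iso φ hφ, by rw [Nat.card_congr φ]⟩
  | @delVertex W H w hw _ ih =>
    intro hfin q μ hμ
    have hcard := card_ne w
    by_cases hev : Even (μ w)
    · obtain ⟨h1, h2⟩ := hμ.rng w hev
      obtain ⟨r, hr⟩ := hev
      obtain ⟨q, rfl⟩ : ∃ q', q = q' + 1 := ⟨q - 1, by omega⟩
      obtain ⟨j, hj⟩ : ∃ j : ℕ, (j : ℤ) = r := ⟨r.toNat, by omega⟩
      have h3 := (hμ.drop j (by omega)).delete w (by
        rw [Int.even_iff]
        split_ifs <;> omega)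
      obtain ⟨q', ν, h4, h5⟩ := ih inferInstance _ _ h3
      exact ⟨q', ν, h4, by omega⟩
    · obtain ⟨q', ν, h4, h5⟩ := ih inferInstance _ _ (hμ.delete w hev)
      exact ⟨q', ν, h4, by omega⟩
  | @delEdge W H a b hab _ ih =>
    intro hfin q μ hμ
    refine ih hfin q μ (hμ.mono fun x y => ?_)
    show (if s(x, y) = s(a, b) then H.mult x y - 1 else H.mult x y) ≤ H.mult x y
    split_ifs <;> omega
  | @contract W H a b hab _ ih =>
    intro hfin q μ hμ
    have hcard := card_ne b
    have hne : a ≠ b := by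
      rintro rfl
      rw [H.loopless] at hab
      omega
    obtain ⟨μ, hμ, hclip⟩ := hμ.clip
    have hl := hμ.lip a b (by omega)
    by_cases heq : μ a = μ b
    · obtain ⟨q', ν, h4, h5⟩ := ih inferInstance _ _ (hμ.contract a b hne heq)
      exact ⟨q', ν, h4, by omega⟩
    · have hca := hclip a
      have hcb := hclip b
      obtain ⟨q, rfl⟩ : ∃ q', q = q' + 1 := ⟨q - 1, by omega⟩
      push_cast at hca hcb
      by_cases hee : Even (μ a) ∧ Even (μ b)
      · obtain ⟨⟨r, hr⟩, ⟨s, hs⟩⟩ := hee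
        have h1 := hμ.rng a ⟨r, hr⟩
        have h2 := hμ.rng b ⟨s, hs⟩
        push_cast at h1 h2
        obtain ⟨j, hj⟩ : ∃ j : ℕ, (j : ℤ) = min r s := ⟨(min r s).toNat, by omega⟩
        have h3 := hμ.merge a b j (by omega) (by omega)
        obtain ⟨q', ν, h4, h5⟩ := ih inferInstance _ _ h3
        exact ⟨q', ν, h4, by omega⟩
      · -- remove the even label between
        have hpar : ¬ (μ a % 2 = 0 ∧ μ b % 2 = 0) := fun hh =>
          hee ⟨Int.even_iff.2 hh.1, Int.even_iff.2 hh.2⟩
        obtain ⟨j, hj⟩ : ∃ j : ℕ, (2 * (j : ℤ) = μ a ∨ 2 * (j : ℤ) = μ b ∨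
            (2 * (j : ℤ) - 1 = μ a ∧ 2 * (j : ℤ) + 1 = μ b) ∨
            (2 * (j : ℤ) - 1 = μ b ∧ 2 * (j : ℤ) + 1 = μ a)) := by
          by_cases h1 : μ a % 2 = 0
          · exact ⟨(μ a / 2).toNat, by omega⟩
          by_cases h2 : μ b % 2 = 0
          · exact ⟨(μ b / 2).toNat, by omega⟩
          exact ⟨((min (μ a) (μ b) + 1) / 2).toNat, by omega⟩
        have h3 := (hμ.drop j (by omega)).contract a b hne (by
          split_ifs <;> omega)
        obtain ⟨q', ν, h4, h5⟩ := ih inferInstance _ _ h3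
        exact ⟨q', ν, h4, by omega⟩

end Pool.Agent.R41.Sp
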