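import Pool.Agent.R41.SpLab

/-!
MP_aba9fe: unique shortest paths, labellings and supergraphs.
-/

set_option autoImplicit false
set_option linter.unusedSimpArgs false

namespace Pool.Agent.R41.Sp

variable {V : Type}

/-- `v 0, …, v (q - 1)` is a walk. -/
def IsWalk (G : MGraph V) (q : ℕ) (v : ℕ → V) : Prop := ∀ i, i + 1 < q → 0 < G.mult (v i) (v (i + 1))

/-- unique shortest path, in terms of walks -/
structure WU (G : MGraph V) (q : ℕ) (v : ℕ → V) : Prop where
  pos : 0 < q
  one : ∀ i, i + 1 < q → G.mult (v i) (v (i + 1)) = 1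
  uniq : ∀ (q' : ℕ) (v' : ℕ → V), 0 < q' → q' ≤ q → IsWalk G q' v' → v' 0 = v 0 →
    v' (q' - 1) = v (q - 1) → q' = q ∧ ∀ i < q, v' i = v i

lemma WU.walk {G : MGraph V} {q : ℕ} {v : ℕ → V} (h : WU G q v) : IsWalk G q v :=
  fun i hi => by rw [h.one i hi]; exact Nat.one_pos

/-- A walk contains a path. -/
lemma exists_path (G : MGraph V) : ∀ (n q : ℕ) (v : ℕ → V), q ≤ n → 0 < q → IsWalk G q v →
    ∃ (q' : ℕ) (v' : ℕ → V), 0 < q' ∧ q' ≤ q ∧ IsWalk G q' v' ∧ v' 0 = v 0 ∧
      v' (q' - 1) = v (q - 1) ∧ (∀ i < q', ∀ j < q', v' i = v' j → i = j) ∧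
      (q' = q → v' = v) := by
  intro n
  induction n with
  | zero => intro q v h1 h2; omega
  | succ n ih =>
    intro q v hq h0 hw
    by_cases hinj : ∀ i < q, ∀ j < q, v i = v j → i = j
    · exact ⟨q, v, h0, le_rfl, hw, rfl, rfl, hinj, fun _ => rfl⟩
    · push Not at hinj
      obtain ⟨i', hi', j', hj', hv', hne'⟩ := hinj
      obtain ⟨i, j, hij, hj, hv⟩ : ∃ i j, i < j ∧ j < q ∧ v i = v j := by
        rcases Nat.lt_or_ge i' j' with h | h
        · exact ⟨i', j', h, hj', hv'⟩
        · exact ⟨j', i', by omega, hi', hv'.symm⟩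
      obtain ⟨q', v', h1, h2, h3, h4, h5, h6, -⟩ := ih (q - (j - i))
        (fun k => if k ≤ i then v k else v (k + (j - i))) (by omega) (by omega) (by
          intro k hk
          by_cases h1 : k + 1 ≤ i
          · simp only [h1, show k ≤ i by omega, if_true]
            exact hw k (by omega)
          · by_cases h2 : k = i
            · simp only [h1, h2, le_refl, if_true, if_false]
              have h3 := hw j (by omega)
              rw [if_neg (by omega), hv]
              rwa [show i + 1 + (j - i) = j + 1 by omega]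
            · have h3 := hw (k + (j - i)) (by omega)
              simp only [h1, show ¬ k ≤ i by omega, if_false]
              rwa [show k + 1 + (j - i) = k + (j - i) + 1 by omega])
      refine ⟨q', v', h1, by omega, h3, ?_, ?_, h6, fun h => by omega⟩
      · rw [h4]; simp
      · rw [h5]
        by_cases h7 : q - (j - i) - 1 ≤ i
        · have h8 : q - (j - i) - 1 = i := by omega
          simp only [h8, le_refl, if_true]
          rw [hv]
          congr 1
          omega
        · simp only [h7, if_false]
          congr 1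
          omega

lemma wu_of_usp {G : MGraph V} {q : ℕ} {v : ℕ → V} {e : ℕ → ℕ} (h : G.IsUSP q v e) :
    WU G q v := by
  have hp : ∀ (q' : ℕ) (v' : ℕ → V), 0 < q' → IsWalk G q' v' →
      (∀ i < q', ∀ j < q', v' i = v' j → i = j) → G.IsPath q' v' (fun _ => 0) :=
    fun q' v' h0 h1 h2 => ⟨h0, h2, fun i hi => h1 i hi⟩
  refine ⟨h.path.pos, fun i hi => ?_, fun q' v' h0 hle hw h1 h2 => ?_⟩
  · have h1 := h.path.edge i hi
    by_contra hne
    -- use a parallel edge
    let e' : ℕ → ℕ := fun k => if k = i then (if e i = 0 then 1 else 0) else e k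
    have h2 := h.uniq v e' ⟨h.path.pos, h.path.inj, fun k hk => by
      by_cases hki : k = i
      · subst hki
        simp only [e', if_true]
        split_ifs <;> omega
      · simp only [e', hki, if_false]
        exact h.path.edge k hk⟩ rfl rfl
    have h3 := h2.2 i hi
    simp only [e', if_true] at h3
    split_ifs at h3 <;> omega
  · obtain ⟨r, w, a1, a2, a3, a4, a5, a6, a7⟩ := exists_path G q' q' v' le_rfl h0 hw
    have h3 := h.short r w (fun _ => 0) (hp r w a1 a3 a6) (a4.trans h1) (a5.trans h2)
    have h4 : q' = q := by omega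
    have h5 : r = q' := by omega
    have h6 := a7 h5
    refine ⟨h4, ?_⟩
    subst h4
    rw [h6] at a6 a3
    exact (h.uniq v' (fun _ => 0) (hp q' v' h0 hw (by rwa [h5] at a6)) h1 h2).1

lemma WU.inj {G : MGraph V} {q : ℕ} {v : ℕ → V} (h : WU G q v) :
    ∀ i < q, ∀ j < q, v i = v j → i = j := by
  have key : ∀ i j, i < j → j < q → v i ≠ v j := by
    intro i j hij hj hv
    have h1 := h.uniq (q - (j - i)) (fun k => if k ≤ i then v k else v (k + (j - i)))
      (by omega) (by omega) (by
        intro k hk
        by_cases h1 : k + 1 ≤ i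
        · simp only [h1, show k ≤ i by omega, if_true]
          exact h.walk k (by omega)
        · by_cases h2 : k = i
          · simp only [h1, h2, le_refl, if_true, if_false]
            have h3 := h.walk j (by omega)
            rw [if_neg (by omega), hv]
            rwa [show i + 1 + (j - i) = j + 1 by omega]
          · have h3 := h.walk (k + (j - i)) (by omega)
            simp only [h1, show ¬ k ≤ i by omega, if_false]
            rwa [show k + 1 + (j - i) = k + (j - i) + 1 by omega]) (by simp) (by
        by_cases h7 : q - (j - i) - 1 ≤ i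
        · have h8 : q - (j - i) - 1 = i := by omega
          simp only [h8, le_refl, if_true]
          rw [hv]
          congr 1
          omega
        · simp only [h7, if_false]
          congr 1
          omega)
    omega
  intro i hi j hj hv
  rcases Nat.lt_trichotomy i j with h1 | h1 | h1
  · exact absurd hv (key i j h1 hj)
  · exact h1
  · exact absurd hv.symm (key j i h1 hi)

lemma usp_of_wu {G : MGraph V} {q : ℕ} {v : ℕ → V} (h : WU G q v) :
    G.IsUSP q v (fun _ => 0) := by
  refine ⟨⟨h.pos, h.inj, fun i hi => h.walk i hi⟩, ?_, ?_⟩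
  · intro q' v' e' hp h1 h2
    by_contra hlt
    have := h.uniq q' v' hp.pos (by omega) (fun i hi => (Nat.zero_le _).trans_lt (hp.edge i hi))
      h1 h2
    omega
  · intro v' e' hp h1 h2
    have h3 := h.uniq q v' hp.pos le_rfl (fun i hi => (Nat.zero_le _).trans_lt (hp.edge i hi))
      h1 h2
    refine ⟨h3.2, fun i hi => ?_⟩
    have h4 := hp.edge i hi
    rw [h3.2 i (by omega), h3.2 (i + 1) hi, h.one i hi] at h4
    omega

/-- the set of orders of unique shortest paths -/
lemma usp_eq (G : MGraph V) : G.usp = sSup {q | ∃ v, WU G q v} := by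
  unfold MGraph.usp
  congr 1
  ext q
  constructor
  · rintro ⟨v, e, h⟩
    exact ⟨v, wu_of_usp h⟩
  · rintro ⟨v, h⟩
    exact ⟨v, _, usp_of_wu h⟩

lemma wu_le_card [Finite V] {G : MGraph V} {q : ℕ} {v : ℕ → V} (h : WU G q v) :
    q ≤ Nat.card V := by
  have h1 : Function.Injective (fun i : Fin q => v i.1) := by
    intro i j hij
    exact Fin.ext (h.inj i.1 i.2 j.1 j.2 hij)
  have := Nat.card_le_card_of_injective _ h1
  simpa using this

lemma wu_one (G : MGraph V) (x : V) : WU G 1 (fun _ => x) := by
  refine ⟨Nat.one_pos, fun i hi => by omega, fun q' v' h0 hle hw h1 h2 => ?_⟩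
  have h3 : q' = 1 := by omega
  refine ⟨h3, fun i hi => ?_⟩
  rw [show i = 0 by omega]
  exact h1

lemma bdd [Finite V] (G : MGraph V) : BddAbove {q | ∃ v, WU G q v} :=
  ⟨Nat.card V, fun _ ⟨_, h⟩ => wu_le_card h⟩

lemma usp_attained [Finite V] [Nonempty V] (G : MGraph V) : ∃ v, WU G G.usp v := by
  rw [usp_eq]
  obtain ⟨x⟩ := ‹Nonempty V›
  have hne : {q | ∃ v, WU G q v}.Nonempty := ⟨1, _, wu_one G x⟩
  exact Nat.sSup_mem hne (bdd G)

lemma le_usp [Finite V] {G : MGraph V} {q : ℕ} {v : ℕ → V} (h : WU G q v) : q ≤ G.usp := by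
  rw [usp_eq]
  exact le_csSup (bdd G) ⟨v, h⟩

lemma usp_le_card [Finite V] [Nonempty V] (G : MGraph V) : G.usp ≤ Nat.card V := by
  obtain ⟨v, h⟩ := usp_attained G
  exact wu_le_card h

lemma usp_pos [Finite V] [Nonempty V] (G : MGraph V) : 0 < G.usp := by
  obtain ⟨v, h⟩ := usp_attained G
  exact h.pos

/-- A unique shortest path without its last vertex is a unique shortest path. -/
lemma WU.pred {G : MGraph V} {q : ℕ} {v : ℕ → V} (h : WU G (q + 1) v) (hq : 0 < q) :
    WU G q v := by
  refine ⟨hq, fun i hi => h.one i (by omega), fun q' v' h0 hle hw h1 h2 => ?_⟩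
  have h3 := h.uniq (q' + 1) (fun k => if k < q' then v' k else v q) (by omega) (by omega) (by
    intro i hi
    by_cases h4 : i + 1 < q'
    · simp only [h4, show i < q' by omega, if_true]
      exact hw i h4
    · have h5 : i = q' - 1 := by omega
      simp only [h4, show i < q' by omega, if_true, if_false]
      rw [h5, h2]
      have := h.walk (q - 1) (by omega)
      rwa [show q - 1 + 1 = q by omega] at this) (by simp [h0, h1]) (by simp)
  refine ⟨by omega, fun i hi => ?_⟩
  have h4 := h3.2 i (by omega)
  rwa [if_pos (by omega)] at h4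

/-- **Intermediate values**: adding parallel edges decreases the parade number by steps of one. -/
theorem exists_supergraph [Finite V] [Nonempty V] (t : ℕ) (ht : 0 < t) :
    ∀ (N : ℕ) (F : MGraph V), {x : V × V | F.mult x.1 x.2 = 1}.ncard ≤ N → t ≤ F.usp →
      ∃ F' : MGraph V, F.IsSupergraph F' ∧ F'.usp = t := by
  classical
  intro N
  induction N with
  | zero =>
    intro F hN htF
    by_cases heq : F.usp = t
    · exact ⟨F, fun _ _ => le_rfl, heq⟩
    exfalso
    obtain ⟨v, hv⟩ := usp_attained F
    have h1 := hv.one 0 (by omega)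
    have h2 : (v 0, v 1) ∈ {x : V × V | F.mult x.1 x.2 = 1} := h1
    rw [Nat.le_zero, Set.ncard_eq_zero (Set.toFinite _)] at hN
    rw [hN] at h2
    exact h2
  | succ N ih =>
    intro F hN htF
    by_cases heq : F.usp = t
    · exact ⟨F, fun _ _ => le_rfl, heq⟩
    obtain ⟨v, hv⟩ := usp_attained F
    obtain ⟨q, hq⟩ : ∃ q, F.usp = q + 1 := ⟨F.usp - 1, by omega⟩
    rw [hq] at hv
    have hq0 : 0 < q := by omega
    have hone := hv.one (q - 1) (by omega)
    rw [show q - 1 + 1 = q by omega] at hone
    let F' : MGraph V :=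
      { mult := fun x y => if s(x, y) = s(v (q - 1), v q) then F.mult x y + 1 else F.mult x y
        symm := fun x y => by rw [Sym2.eq_swap, F.symm x y]
        loopless := fun x => by
          rw [if_neg, F.loopless]
          intro h
          have h1 : v (q - 1) = v q := by
            rcases Sym2.eq_iff.1 h with ⟨h1, h2⟩ | ⟨h1, h2⟩
            · exact h1.symm.trans h2
            · exact h2.symm.trans h1
          have := hv.inj (q - 1) (by omega) q (by omega) h1
          omega }
    have hF' : ∀ x y, F'.mult x y =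
      if s(x, y) = s(v (q - 1), v q) then F.mult x y + 1 else F.mult x y := fun x y => rfl
    have hpos : ∀ x y, 0 < F'.mult x y ↔ 0 < F.mult x y := by
      intro x y
      rw [hF']
      split_ifs with h
      · have : F.mult x y = 1 := by
          rcases Sym2.eq_iff.1 h with ⟨h1, h2⟩ | ⟨h1, h2⟩
          · rw [h1, h2]; exact hone
          · rw [h1, h2, F.symm]; exact hone
        omega
      · rfl
    have hsup : F.IsSupergraph F' := fun x y => by
      rw [hF']
      split_ifs <;> omega
    have hwu : WU F' q v := by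
      have h1 := hv.pred hq0
      refine ⟨hq0, fun i hi => ?_, fun q' v' h0 hle hw => h1.uniq q' v' h0 hle
        (fun i hi => (hpos _ _).1 (hw i hi))⟩
      rw [hF', if_neg]
      · exact h1.one i hi
      · intro h
        rcases Sym2.eq_iff.1 h with ⟨h2, h3⟩ | ⟨h2, h3⟩
        · have := hv.inj (i + 1) (by omega) q (by omega) h3
          omega
        · have := hv.inj i (by omega) q (by omega) h2
          omega
    have hlt : {x : V × V | F'.mult x.1 x.2 = 1}.ncard < {x : V × V | F.mult x.1 x.2 = 1}.ncard := by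
      refine Set.ncard_lt_ncard ?_ (Set.toFinite _)
      rw [Set.ssubset_iff_of_subset]
      · refine ⟨(v (q - 1), v q), hone, ?_⟩
        show ¬ F'.mult (v (q - 1)) (v q) = 1
        rw [hF', if_pos rfl, hone]
        omega
      · intro x hx
        have hx' : F'.mult x.1 x.2 = 1 := hx
        have h1 := (hpos x.1 x.2).1 (by omega)
        have h2 := hsup x.1 x.2
        show F.mult x.1 x.2 = 1
        omega
    obtain ⟨F'', h1, h2⟩ := ih F' (by omega) (by
      have := le_usp hwu
      omega)
    exact ⟨F'', fun x y => (hsup x y).trans (h1 x y), h2⟩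

/-- A labelling gives a supergraph with a unique shortest path. -/
theorem supergraph_of_lab {G : MGraph V} {q : ℕ} {μ : V → ℤ} (h : Lab G q μ) (hq : 0 < q) :
    ∃ F : MGraph V, G.IsSupergraph F ∧ ∃ v, WU F q v := by
  classical
  have hne : Nonempty V := ⟨(h.ex 0 hq).choose⟩
  have hv : ∀ i : ℕ, ∃ x, i < q → μ x = 2 * i := by
    intro i
    by_cases hi : i < q
    · obtain ⟨x, hx⟩ := h.ex i hi
      exact ⟨x, fun _ => hx⟩
    · exact ⟨hne.some, fun h => absurd h hi⟩
  choose v hv using hv
  let F : MGraph V :=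
    { mult := fun x y => if G.mult x y = 0 ∧ Even (μ x) ∧ Even (μ y) ∧
        (μ x - μ y = 2 ∨ μ y - μ x = 2) then 1 else G.mult x y
      symm := fun x y => by
        rw [G.symm x y]
        congr 1
        apply propext
        constructor
        · rintro ⟨h1, h2, h3, h4⟩; exact ⟨h1, h3, h2, h4.symm⟩
        · rintro ⟨h1, h2, h3, h4⟩; exact ⟨h1, h3, h2, h4.symm⟩
      loopless := fun x => by
        rw [if_neg, G.loopless]
        rintro ⟨_, _, _, h1⟩
        omega }
  have hF : ∀ x y, F.mult x y = if G.mult x y = 0 ∧ Even (μ x) ∧ Even (μ y) ∧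
      (μ x - μ y = 2 ∨ μ y - μ x = 2) then 1 else G.mult x y := fun x y => rfl
  have hlip : ∀ x y, 0 < F.mult x y → -2 ≤ μ x - μ y ∧ μ x - μ y ≤ 2 := by
    intro x y hxy
    rw [hF] at hxy
    split_ifs at hxy with h1
    · omega
    · exact h.lip x y hxy
  refine ⟨F, fun x y => ?_, v, hq, fun i hi => ?_, fun q' v' h0 hle hw h1 h2 => ?_⟩
  · rw [hF]
    split_ifs with h1
    · omega
    · exact le_rfl
  · have h1 := hv i (by omega)
    have h2 := hv (i + 1) hi
    have e1 : Even (μ (v i)) := by rw [h1]; exact even_two_mul _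
    have e2 : Even (μ (v (i + 1))) := by rw [h2]; exact even_two_mul _
    have h3 := h.one (v i) (v (i + 1)) e1 e2
    rw [hF]
    split_ifs with h4
    · rfl
    · have : G.mult (v i) (v (i + 1)) ≠ 0 := by
        intro h5
        apply h4
        refine ⟨h5, e1, e2, Or.inr ?_⟩
        rw [h1, h2]
        push_cast
        ring
      omega
  · -- the labels along the walk
    have hup : ∀ i, i < q' → μ (v' i) ≤ 2 * i := by
      intro i
      induction i with
      | zero =>
        intro _
        rw [h1, hv 0 hq]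
      | succ i ih =>
        intro hi
        have h3 := ih (by omega)
        have h4 := hlip _ _ (hw i hi)
        push_cast
        omega
    have hdown : ∀ j i, i + j + 1 = q' → 2 * ((q : ℤ) - 1) - 2 * j ≤ μ (v' i) := by
      intro j
      induction j with
      | zero =>
        intro i hi
        rw [show i = q' - 1 by omega, h2, hv (q - 1) (by omega), Nat.cast_sub (by omega)]
        push_cast
        omega
      | succ j ih =>
        intro i hi
        have h3 := ih (i + 1) (by omega)
        have h4 := hlip _ _ (hw i (by omega))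
        push_cast
        omega
    have h3 := hup (q' - 1) (by omega)
    rw [h2, hv (q - 1) (by omega)] at h3
    have h4 : q' = q := by omega
    refine ⟨h4, fun i hi => ?_⟩
    have h5 := hup i (by omega)
    have h6 := hdown (q' - 1 - i) i (by omega)
    have h7 := hv i hi
    have h8 : μ (v i) = μ (v' i) := by
      rw [h7]
      have : ((q' - 1 - i : ℕ) : ℤ) = (q : ℤ) - 1 - i := by omega
      omega
    exact (h.inj (v i) (v' i) (by rw [h7]; exact even_two_mul _) h8).symm

/-- distance from the vertex `a` (zero if there is no walk) -/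
noncomputable def dst (G : MGraph V) (a z : V) : ℕ :=
  sInf {r | ∃ w, IsWalk G (r + 1) w ∧ w 0 = a ∧ w r = z}

lemma dst_le {G : MGraph V} {a z : V} {r : ℕ} {w : ℕ → V} (h : IsWalk G (r + 1) w) (h0 : w 0 = a)
    (h1 : w r = z) : dst G a z ≤ r := Nat.sInf_le ⟨w, h, h0, h1⟩

lemma dst_spec {G : MGraph V} {a z : V} {r : ℕ} {w : ℕ → V} (h : IsWalk G (r + 1) w)
    (h0 : w 0 = a) (h1 : w r = z) :
    ∃ w', IsWalk G (dst G a z + 1) w' ∧ w' 0 = a ∧ w' (dst G a z) = z :=
  Nat.sInf_mem (s := {r | ∃ w, IsWalk G (r + 1) w ∧ w 0 = a ∧ w r = z}) ⟨r, w, h, h0, h1⟩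

/-- A unique shortest path gives a labelling. -/
theorem lab_of_wu {G : MGraph V} {q : ℕ} {v : ℕ → V} (h : WU G q v) : ∃ μ, Lab G q μ := by
  classical
  have hpos := h.pos
  let a := v 0
  -- reachability
  let R : V → Prop := fun z => ∃ r w, IsWalk G (r + 1) w ∧ w 0 = a ∧ w r = z
  have hext : ∀ (r : ℕ) (w : ℕ → V) (z : V), IsWalk G (r + 1) w → 0 < G.mult (w r) z →
      IsWalk G (r + 1 + 1) (fun k => if k ≤ r then w k else z) := by
    intro r w z hw hz i hi
    by_cases h1 : i + 1 ≤ r
    · simp only [h1, show i ≤ r by omega, if_true]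
      exact hw i (by omega)
    · have h2 : i = r := by omega
      simp only [h1, h2, le_refl, if_true, if_false]
      rw [if_neg (by omega)]
      exact hz
  have hRadj : ∀ x y, R x → 0 < G.mult x y → R y := by
    rintro x y ⟨r, w, h1, h2, h3⟩ hxy
    refine ⟨r + 1, _, hext r w y h1 (h3 ▸ hxy), ?_, ?_⟩
    · simp [h2]
    · simp
  have hdadj : ∀ x y, R x → 0 < G.mult x y → dst G a y ≤ dst G a x + 1 := by
    rintro x y ⟨r, w, h1, h2, h3⟩ hxy
    obtain ⟨w', g1, g2, g3⟩ := dst_spec h1 h2 h3
    refine dst_le (hext _ w' y g1 (g3.symm ▸ hxy)) ?_ ?_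
    · simp [g2]
    · simp
  have hRv : ∀ i < q, R (v i) := fun i hi => ⟨i, v, fun k hk => h.walk k (by omega), rfl, rfl⟩
  -- a walk to `v i` of length at most `i`
  have hkey : ∀ i < q, ∀ (r : ℕ) (w : ℕ → V), r ≤ i → IsWalk G (r + 1) w → w 0 = a → w r = v i →
      r = i ∧ ∀ k ≤ i, w k = v k := by
    intro i hi r w hr hw h0 h1
    have h2 := h.uniq (r + (q - i)) (fun k => if k ≤ r then w k else v (k + i - r))
      (by omega) (by omega) (by
        intro k hk
        by_cases h3 : k + 1 ≤ r
        · simp only [h3, show k ≤ r by omega, if_true]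
          exact hw k (by omega)
        · by_cases h4 : k = r
          · simp only [h3, h4, le_refl, if_true, if_false]
            rw [if_neg (by omega), h1]
            have := h.walk i (by omega)
            rwa [show r + 1 + i - r = i + 1 by omega]
          · simp only [h3, show ¬ k ≤ r by omega, if_false]
            have := h.walk (k + i - r) (by omega)
            rwa [show k + 1 + i - r = k + i - r + 1 by omega]) (by simp [h0, a]) (by
        by_cases h3 : r + (q - i) - 1 ≤ r
        · have h4 : r + (q - i) - 1 = r := by omega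
          simp only [h4, le_refl, if_true]
          rw [h1]
          congr 1
          omega
        · simp only [h3, if_false]
          congr 1
          omega)
    have h3 : r = i := by omega
    refine ⟨h3, fun k hk => ?_⟩
    have h4 := h2.2 k (by omega)
    rwa [if_pos (by omega)] at h4
  have hdv : ∀ i < q, dst G a (v i) = i := by
    intro i hi
    obtain ⟨r, w, h1, h2, h3⟩ := hRv i hi
    obtain ⟨w', g1, g2, g3⟩ := dst_spec h1 h2 h3
    have hle : dst G a (v i) ≤ i :=
      dst_le (w := v) (fun k hk => h.walk k (by omega)) rfl rfl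
    exact (hkey i hi _ w' hle g1 g2 g3).1
  -- a vertex adjacent to `v i` that is not on the path
  have hoff : ∀ i < q, ∀ z, (∀ k < q, z ≠ v k) → 0 < G.mult (v i) z →
      i ≤ dst G a z ∧ dst G a z ≤ i + 1 := by
    intro i hi z hz hadj
    refine ⟨?_, ?_⟩
    · by_contra hlt
      push Not at hlt
      obtain ⟨r, w, h1, h2, h3⟩ := hRadj _ _ (hRv i hi) hadj
      obtain ⟨w', g1, g2, g3⟩ := dst_spec h1 h2 h3
      have h4 := hkey i hi (dst G a z + 1) (fun k => if k ≤ dst G a z then w' k else v i) (by omega)
        (hext _ w' (v i) g1 (by rw [g3, G.symm]; exact hadj)) (by simp [g2]) (by simp)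
      have h5 := h4.2 (dst G a z) (by omega)
      rw [if_pos le_rfl, g3] at h5
      exact hz _ (by omega) h5
    · have := hdadj _ _ (hRv i hi) hadj
      rwa [hdv i hi] at this
  let μ : V → ℤ := fun z => if z ∈ {x | ∃ k < q, x = v k} then 2 * (dst G a z : ℤ)
    else 2 * (dst G a z : ℤ) - 1
  have hμv : ∀ k < q, μ (v k) = 2 * k := by
    intro k hk
    have : v k ∈ {x | ∃ k < q, x = v k} := ⟨k, hk, rfl⟩
    simp only [μ]
    rw [if_pos this, hdv k hk]
  have hμz : ∀ z, (∀ k < q, z ≠ v k) → μ z = 2 * (dst G a z : ℤ) - 1 := by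
    intro z hz
    have : z ∉ {x | ∃ k < q, x = v k} := fun ⟨k, hk, h⟩ => hz k hk h
    simp only [μ]
    rw [if_neg this]
  have hcase : ∀ z, (∃ k < q, z = v k) ∨ (∀ k < q, z ≠ v k) := by
    intro z
    by_cases hz : ∃ k < q, z = v k
    · exact Or.inl hz
    · right
      push Not at hz
      exact hz
  have heven : ∀ z, Even (μ z) → ∃ k < q, z = v k := by
    intro z hz
    rcases hcase z with h1 | h1
    · exact h1
    · rw [hμz z h1, Int.even_iff] at hz
      omega
  have hvv : ∀ i < q, ∀ j < q, 0 < G.mult (v i) (v j) → i ≤ j + 1 := by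
    intro i hi j hj hadj
    have := hdadj _ _ (hRv j hj) (by rwa [G.symm])
    rwa [hdv i hi, hdv j hj] at this
  refine ⟨μ, ⟨fun i hi => ⟨v i, hμv i hi⟩, ?_, ?_, ?_, ?_⟩⟩
  · intro x hx
    obtain ⟨k, hk, rfl⟩ := heven x hx
    rw [hμv k hk]
    omega
  · intro x y hx hxy
    obtain ⟨k, hk, rfl⟩ := heven x hx
    obtain ⟨l, hl, rfl⟩ := heven y (hxy ▸ hx)
    rw [hμv k hk, hμv l hl] at hxy
    rw [show k = l by omega]
  · intro x y hxy
    have hyx : 0 < G.mult y x := by rwa [G.symm]
    rcases hcase x with ⟨i, hi, rfl⟩ | hx <;> rcases hcase y with ⟨j, hj, rfl⟩ | hy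
    · have h1 := hvv i hi j hj hxy
      have h2 := hvv j hj i hi hyx
      rw [hμv i hi, hμv j hj]
      omega
    · have h1 := hoff i hi y hy hxy
      rw [hμv i hi, hμz y hy]
      omega
    · have h1 := hoff j hj x hx hyx
      rw [hμv j hj, hμz x hx]
      omega
    · rw [hμz x hx, hμz y hy]
      by_cases hR : R x
      · have h1 := hdadj x y hR hxy
        have h2 := hdadj y x (hRadj x y hR hxy) hyx
        omega
      · have hR' : ¬ R y := fun h => hR (hRadj y x h hyx)
        have h0 : ∀ z, ¬ R z → dst G a z = 0 := by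
          intro z hz
          unfold dst
          rw [Nat.sInf_eq_zero]
          right
          ext r
          simp only [Set.mem_ofPred_eq, Set.mem_empty_iff_false, iff_false]
          rintro ⟨w, hw⟩
          exact hz ⟨r, w, hw⟩
        rw [h0 x hR, h0 y hR']
        omega
  · intro x y hx hy
    obtain ⟨i, hi, rfl⟩ := heven x hx
    obtain ⟨j, hj, rfl⟩ := heven y hy
    by_contra hcon
    push Not at hcon
    have h1 := hvv i hi j hj (by omega)
    have h2 := hvv j hj i hi (by rw [G.symm]; omega)
    have h3 : i ≠ j := by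
      rintro rfl
      rw [G.loopless] at hcon
      omega
    rcases Nat.lt_or_ge i j with h4 | h4
    · have h5 : j = i + 1 := by omega
      subst h5
      have := h.one i hj
      omega
    · have h5 : i = j + 1 := by omega
      subst h5
      have := h.one j hi
      rw [G.symm] at hcon
      omega

/-- **The spectator floor is attained by a supergraph on the same vertex set.** -/
theorem exists_floor [Finite V] [Nonempty V] (G : MGraph V) :
    ∃ F : MGraph V, G.IsSupergraph F ∧ F.sp ≤ sf G ∧ sf G ≤ G.sp := by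
  have hmem : G.sp ∈ {s | ∃ (W : Type) (_ : Finite W) (_ : Nonempty W) (H : MGraph W),
      Minor G H ∧ H.sp = s} :=
    ⟨V, inferInstance, inferInstance, G, Minor.iso G (Equiv.refl V) (fun _ _ => rfl), rfl⟩
  have hle : sf G ≤ G.sp := Nat.sInf_le hmem
  obtain ⟨W, _, _, H, hmin, hsp⟩ := Nat.sInf_mem ⟨_, hmem⟩
  obtain ⟨v, hv⟩ := usp_attained H
  obtain ⟨μ, hμ⟩ := lab_of_wu hv
  obtain ⟨q', ν, hν, hcard⟩ := minor_lab hmin inferInstance _ μ hμ
  have h1 : H.sp = sf G := hsp
  have h2 : H.sp = Nat.card W - H.usp := rfl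
  have h3 : G.sp = Nat.card V - G.usp := rfl
  have h4 := usp_pos G
  have h5 := usp_le_card H
  have h6 : 0 < Nat.card V := Nat.card_pos
  obtain ⟨F, hF, v', hv'⟩ := supergraph_of_lab hν (by omega)
  refine ⟨F, hF, ?_, hle⟩
  have h7 := le_usp hv'
  have h8 : F.sp = Nat.card V - F.usp := rfl
  omega

end Pool.Agent.R41.Sp
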