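import Mathlib

/-!
MP_936e79: the ternary tree with horizontal edges.
-/

set_option autoImplicit false

namespace Pool.Agent.R41.Tern

open SimpleGraph

/-- vertices `(i, j)` with `i ≤ h` and `j < 3 ^ i` -/
abbrev VT (h : ℕ) := {p : ℕ × ℕ // p.1 ≤ h ∧ p.2 < 3 ^ p.1}

/-- adjacency of coordinates -/
def tadj (p q : ℕ × ℕ) : Prop :=
  (p.1 = q.1 ∧ (q.2 = p.2 + 1 ∨ p.2 = q.2 + 1)) ∨ (q.1 = p.1 + 1 ∧ q.2 / 3 = p.2) ∨
    (p.1 = q.1 + 1 ∧ p.2 / 3 = q.2)

/-- The ternary tree of height `h` with horizontal edges between consecutive vertices of a level. -/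
def TG (h : ℕ) : SimpleGraph (VT h) where
  Adj p q := tadj p.1 q.1
  symm := ⟨fun p q hpq => by unfold tadj at *; omega⟩
  loopless := ⟨fun p hp => by unfold tadj at hp; omega⟩

lemma TG_adj {h : ℕ} (p q : VT h) : (TG h).Adj p q ↔ tadj p.1 q.1 := Iff.rfl

instance (h : ℕ) : Finite (VT h) := by
  have : (({p : ℕ × ℕ | p.1 ≤ h ∧ p.2 < 3 ^ p.1}) : Set (ℕ × ℕ)).Finite := by
    refine ((Set.finite_Iic h).prod (Set.finite_Iio (3 ^ h))).subset ?_
    rintro ⟨a, b⟩ ⟨h1, h2⟩
    exact ⟨h1, lt_of_lt_of_le h2 (Nat.pow_le_pow_right (by norm_num) h1)⟩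
  exact this.to_subtype

/-- the root -/
def root (h : ℕ) : VT h := ⟨(0, 0), by simp⟩

lemma reach_root {h : ℕ} (p : VT h) : (TG h).Reachable p (root h) := by
  obtain ⟨⟨i, j⟩, hi, hj⟩ := p
  induction i generalizing j with
  | zero =>
    have : j = 0 := by simpa using hj
    subst this
    exact Reachable.refl _
  | succ i ih =>
    simp only at hi hj
    have h1 : j / 3 < 3 ^ i := by
      rw [pow_succ] at hj
      omega
    have h2 := ih (j / 3) (by simp only; omega) h1
    refine Reachable.trans (Adj.reachable ?_) h2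
    rw [TG_adj]
    unfold tadj
    simp

lemma TG_connected (h : ℕ) : (TG h).Connected :=
  have : Nonempty (VT h) := ⟨root h⟩
  ⟨fun p q => (reach_root p).trans (reach_root q).symm⟩

/-- level is `1`-Lipschitz -/
lemma level_walk {h : ℕ} {p q : VT h} (w : (TG h).Walk p q) :
    p.1.1 ≤ q.1.1 + w.length ∧ q.1.1 ≤ p.1.1 + w.length := by
  induction w with
  | nil => simp
  | cons hadj w ih =>
    rw [TG_adj] at hadj
    unfold tadj at hadj
    rw [Walk.length_cons]
    omega

lemma level_dist {h : ℕ} (p q : VT h) :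
    p.1.1 ≤ q.1.1 + (TG h).dist p q ∧ q.1.1 ≤ p.1.1 + (TG h).dist p q := by
  obtain ⟨w, hw⟩ := (TG_connected h).exists_walk_length_eq_dist p q
  rw [← hw]
  exact level_walk w

/-- the ancestor at level `L` changes by at most one along an edge -/
lemma anc_walk {h : ℕ} {p q : VT h} (w : (TG h).Walk p q) (L : ℕ) (hL : L + w.length ≤ p.1.1) :
    q.1.2 / 3 ^ (q.1.1 - L) ≤ p.1.2 / 3 ^ (p.1.1 - L) + w.length := by
  induction w with
  | nil => simp
  | @cons p r q hadj w ih =>
    rw [TG_adj] at hadj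
    unfold tadj at hadj
    rw [Walk.length_cons] at hL ⊢
    have hr : L + w.length ≤ r.1.1 := by omega
    have h1 := ih hr
    have h2 : r.1.2 / 3 ^ (r.1.1 - L) ≤ p.1.2 / 3 ^ (p.1.1 - L) + 1 := by
      rcases hadj with ⟨h3, h4⟩ | ⟨h3, h4⟩ | ⟨h3, h4⟩
      · rw [h3]
        have hpos : 0 < 3 ^ (r.1.1 - L) := by positivity
        have h5 : r.1.2 ≤ p.1.2 + 3 ^ (r.1.1 - L) := by omega
        calc r.1.2 / 3 ^ (r.1.1 - L) ≤ (p.1.2 + 3 ^ (r.1.1 - L)) / 3 ^ (r.1.1 - L) :=
              Nat.div_le_div_right h5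
          _ = _ := Nat.add_div_right _ hpos
      · rw [h3, show p.1.1 + 1 - L = (p.1.1 - L) + 1 by omega, pow_succ, mul_comm,
          ← Nat.div_div_eq_div_mul, h4]
        omega
      · rw [h3, ← h4, show r.1.1 + 1 - L = (r.1.1 - L) + 1 by omega, pow_succ, mul_comm (3 ^ _) 3,
          ← Nat.div_div_eq_div_mul]
        omega
    omega

/-- horizontal distance -/
lemma horiz_dist {h : ℕ} (i x d : ℕ) (hx : i ≤ h ∧ x < 3 ^ i) (hy : i ≤ h ∧ x + d < 3 ^ i) :
    (TG h).dist ⟨(i, x), hx⟩ ⟨(i, x + d), hy⟩ ≤ d := by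
  induction d with
  | zero => simp
  | succ d ih =>
    have h1 : i ≤ h ∧ x + d < 3 ^ i := ⟨hy.1, by omega⟩
    have h2 := ih h1
    have h3 : (TG h).Adj (⟨(i, x + d), h1⟩ : VT h) ⟨(i, x + (d + 1)), hy⟩ := by
      rw [TG_adj]; unfold tadj; simp; omega
    have h4 := (TG_connected h).dist_triangle (u := (⟨(i, x), hx⟩ : VT h))
      (v := ⟨(i, x + d), h1⟩) (w := ⟨(i, x + (d + 1)), hy⟩)
    rw [SimpleGraph.dist_eq_one_iff_adj.2 h3] at h4
    omega

lemma same_level_dist {h : ℕ} (p q : VT h) (hpq : p.1.1 = q.1.1) (d : ℕ)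
    (h1 : p.1.2 ≤ q.1.2 + d) (h2 : q.1.2 ≤ p.1.2 + d) : (TG h).dist p q ≤ d := by
  obtain ⟨⟨i, x⟩, hx⟩ := p
  obtain ⟨⟨i', y⟩, hy⟩ := q
  simp only at hpq h1 h2
  subst hpq
  rcases le_total x y with hxy | hxy
  · obtain ⟨e, rfl⟩ := Nat.exists_eq_add_of_le hxy
    have := horiz_dist (h := h) i x e hx hy
    omega
  · obtain ⟨e, rfl⟩ := Nat.exists_eq_add_of_le hxy
    have := horiz_dist (h := h) i y e hy hx
    rw [SimpleGraph.dist_comm]
    omega

/-- In every cycle two vertices at position difference `6` have distance at most `5`. -/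
lemma exists_shortcut {h n : ℕ} (hn : 7 ≤ n) (f : ZMod n → VT h) (hinj : Function.Injective f)
    (hadj : ∀ i, (TG h).Adj (f i) (f (i + 1))) :
    ∃ s : ZMod n, (TG h).dist (f s) (f (s + 6)) ≤ 5 := by
  have : NeZero n := ⟨by omega⟩
  have hcast : ∀ j : ℕ, 0 < j → j < n → ((j : ℕ) : ZMod n) ≠ 0 := by
    intro j h0 h1 h2
    rw [ZMod.natCast_eq_zero_iff] at h2
    exact absurd (Nat.le_of_dvd h0 h2) (by omega)
  have hne2 : ∀ s : ZMod n, f s ≠ f (s + 2) := by
    intro s hs
    have h1 := hinj hs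
    apply hcast 2 (by omega) (by omega)
    simpa using h1.symm
  -- a vertex of maximal level
  obtain ⟨i₀, hi₀⟩ := Finite.exists_max (fun i => (f i).1.1)
  set M := (f i₀).1.1 with hM
  -- not all vertices have level M
  have hlow : ∃ b, (f b).1.1 < M := by
    by_contra hcon
    push Not at hcon
    have hall : ∀ b, (f b).1.1 = M := fun b => le_antisymm (hi₀ b) (hcon b)
    obtain ⟨b, hb⟩ := Finite.exists_max (fun i => (f i).1.2)
    have h1 := hadj b
    have h2 := hadj (b - 1)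
    rw [sub_add_cancel] at h2
    rw [TG_adj] at h1 h2
    unfold tadj at h1 h2
    have h3 := hall b
    have h4 := hall (b - 1)
    have h5 := hall (b + 1)
    have h6 := hb (b + 1)
    have h7 := hb (b - 1)
    have h8 : (f (b - 1)) = f (b - 1 + 2) := by
      have : b - 1 + 2 = b + 1 := by ring
      rw [this]
      apply Subtype.ext
      apply Prod.ext
      · omega
      · try simp only at h6 h7
        omega
    exact hne2 _ h8
  -- a step from a lower level up to level M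
  obtain ⟨s, hs1, hs2⟩ : ∃ s, (f s).1.1 < M ∧ (f (s + 1)).1.1 = M := by
    obtain ⟨b, hb⟩ := hlow
    by_contra hcon
    push Not at hcon
    have key : ∀ t : ℕ, (f (b + t)).1.1 < M := by
      intro t
      induction t with
      | zero => simpa using hb
      | succ t ih =>
        have h1 := hcon _ ih
        have h2 := hi₀ (b + t + 1)
        have : b + ((t + 1 : ℕ) : ZMod n) = b + t + 1 := by push_cast; ring
        rw [this]
        try simp only at h2
        omega
    have := key (i₀ - b).val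
    rw [ZMod.natCast_zmod_val, add_sub_cancel] at this
    omega
  refine ⟨s, ?_⟩
  have hd1 : ∀ t, (TG h).dist (f t) (f (t + 1)) ≤ 1 := fun t =>
    (SimpleGraph.dist_eq_one_iff_adj.2 (hadj t)).le
  have tri : ∀ a b c : VT h, (TG h).dist a c ≤ (TG h).dist a b + (TG h).dist b c := fun a b c =>
    (TG_connected h).dist_triangle
  -- generic step
  have step : ∀ t : ZMod n, (f (t + 1)).1.1 = M → (f t).1.1 = M →
      ((f (t + 2)).1.1 + 1 = M ∧ (f (t + 2)).1.2 = (f (t + 1)).1.2 / 3) ∨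
      ((f (t + 2)).1.1 = M ∧ (f (t + 2)).1.2 + (f t).1.2 = 2 * (f (t + 1)).1.2) := by
    intro t h1 h2
    have h3 := hadj (t + 1)
    have h4 := hadj t
    have e : t + 1 + 1 = t + 2 := by ring
    rw [e] at h3
    rw [TG_adj] at h3 h4
    unfold tadj at h3 h4
    have h5 := hi₀ (t + 2)
    try simp only at h5
    have h6 := hne2 t
    rcases h3 with ⟨h7, h8⟩ | ⟨h7, h8⟩ | ⟨h7, h8⟩
    · right
      refine ⟨by omega, ?_⟩
      have h9 : (f t).1.2 ≠ (f (t + 2)).1.2 := by
        intro h10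
        exact h6 (Subtype.ext (Prod.ext (by omega) h10))
      omega
    · omega
    · left
      omega
  have e01 := hadj s
  rw [TG_adj] at e01
  unfold tadj at e01
  have p0 : (f s).1.1 + 1 = M ∧ (f s).1.2 = (f (s + 1)).1.2 / 3 := by omega
  -- second step
  have e12 := hadj (s + 1)
  have es : s + 1 + 1 = s + 2 := by ring
  rw [es, TG_adj] at e12
  unfold tadj at e12
  have hm2 := hi₀ (s + 2)
  try simp only at hm2
  have q2 : (f (s + 2)).1.1 = M := by
    by_contra hcon
    have h1 : (f (s + 2)).1.1 + 1 = M ∧ (f (s + 2)).1.2 = (f (s + 1)).1.2 / 3 := by omega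
    exact hne2 s (Subtype.ext (Prod.ext (by omega) (by omega)))
  have q12 : (f (s + 2)).1.2 = (f (s + 1)).1.2 + 1 ∨ (f (s + 1)).1.2 = (f (s + 2)).1.2 + 1 := by
    omega
  have s1 := step (s + 1) (by rw [es]; exact q2) hs2
  rw [es, show s + 1 + 2 = s + 3 by ring] at s1
  have d3 := hd1 (s + 3)
  have d4 := hd1 (s + 4)
  have d5 := hd1 (s + 5)
  have d0 := hd1 s
  rw [show s + 3 + 1 = s + 4 by ring] at d3
  rw [show s + 4 + 1 = s + 5 by ring] at d4
  rw [show s + 5 + 1 = s + 6 by ring] at d5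
  rcases s1 with ⟨a1, a2⟩ | ⟨a1, a2⟩
  · -- up after one horizontal edge
    have h1 : (TG h).dist (f s) (f (s + 3)) ≤ 1 := same_level_dist _ _ (by omega) 1
      (by omega) (by omega)
    have t1 := tri (f s) (f (s + 3)) (f (s + 4))
    have t2 := tri (f s) (f (s + 4)) (f (s + 5))
    have t3 := tri (f s) (f (s + 5)) (f (s + 6))
    omega
  have s2 := step (s + 2) (by rw [show s + 2 + 1 = s + 3 by ring]; exact a1) q2
  rw [show s + 2 + 2 = s + 4 by ring, show s + 2 + 1 = s + 3 by ring] at s2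
  rcases s2 with ⟨b1, b2⟩ | ⟨b1, b2⟩
  · have h1 : (TG h).dist (f s) (f (s + 4)) ≤ 1 := same_level_dist _ _ (by omega) 1
      (by omega) (by omega)
    have t2 := tri (f s) (f (s + 4)) (f (s + 5))
    have t3 := tri (f s) (f (s + 5)) (f (s + 6))
    omega
  have s3 := step (s + 3) (by rw [show s + 3 + 1 = s + 4 by ring]; exact b1) a1
  rw [show s + 3 + 2 = s + 5 by ring, show s + 3 + 1 = s + 4 by ring] at s3
  rcases s3 with ⟨c1, c2⟩ | ⟨c1, c2⟩
  · have h1 : (TG h).dist (f s) (f (s + 5)) ≤ 1 := same_level_dist _ _ (by omega) 1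
      (by omega) (by omega)
    have t3 := tri (f s) (f (s + 5)) (f (s + 6))
    omega
  have s4 := step (s + 4) (by rw [show s + 4 + 1 = s + 5 by ring]; exact c1) b1
  rw [show s + 4 + 2 = s + 6 by ring, show s + 4 + 1 = s + 5 by ring] at s4
  rcases s4 with ⟨g1, g2⟩ | ⟨g1, g2⟩
  · have h1 : (TG h).dist (f s) (f (s + 6)) ≤ 2 := same_level_dist _ _ (by omega) 2
      (by omega) (by omega)
    omega
  · -- five horizontal edges: use the parent of the last vertex
    have hM1 : 1 ≤ M := by omega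
    have hv := (f (s + 6)).2
    obtain ⟨u, hu⟩ : ∃ u : VT h, u.1 = (M - 1, (f (s + 6)).1.2 / 3) := by
      refine ⟨⟨(M - 1, (f (s + 6)).1.2 / 3), ?_, ?_⟩, rfl⟩
      · simp only; omega
      · simp only
        have h2 := hv.2
        rw [g1] at h2
        obtain ⟨M', hM'⟩ : ∃ M', M = M' + 1 := ⟨M - 1, by omega⟩
        rw [hM', pow_succ] at h2
        rw [hM', Nat.add_sub_cancel]
        omega
    have hu1 : u.1.1 = M - 1 := by rw [hu]
    have hu2 : u.1.2 = (f (s + 6)).1.2 / 3 := by rw [hu]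
    have h1 : (TG h).dist (f s) u ≤ 2 := same_level_dist _ _ (by omega) 2
      (by omega) (by omega)
    have h2 : (TG h).Adj u (f (s + 6)) := by
      rw [TG_adj]
      unfold tadj
      omega
    have h3 := SimpleGraph.dist_eq_one_iff_adj.2 h2
    have t3 := tri (f s) u (f (s + 6))
    omega

end Pool.Agent.R41.Tern
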