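import Mathlib

/-!
MP_5b3c48: the graphs `K_1 + (K_{a,b} + edge)`: triangles, degrees and blow-up freeness.
-/

set_option autoImplicit false

namespace Pool.Agent.R41.TT

open SimpleGraph Finset

/-- The join of a vertex and the graph obtained from the complete bipartite graph with parts `S` and
the complement of `S` by adding the edge `x y`. -/
def Gam {m : ℕ} (S : Finset (Fin m)) (x y : Fin m) : SimpleGraph (Fin 1 ⊕ Fin m) where
  Adj a b := match a, b with
    | .inl _, .inl _ => False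
    | .inl _, .inr _ => True
    | .inr _, .inl _ => True
    | .inr u, .inr v => u ≠ v ∧ ((u ∈ S ∧ v ∉ S) ∨ (u ∉ S ∧ v ∈ S) ∨ (u = x ∧ v = y) ∨
        (u = y ∧ v = x))
  symm := ⟨fun a b h => by
    rcases a with a | a <;> rcases b with b | b
    · exact h
    · trivial
    · trivial
    · obtain ⟨h1, h2⟩ := h
      refine ⟨h1.symm, ?_⟩
      tauto⟩
  loopless := ⟨fun a h => by
    rcases a with a | a
    · exact h
    · exact h.1 rfl⟩

variable {m : ℕ} {S : Finset (Fin m)} {x y : Fin m}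

lemma adj_ll (a b : Fin 1) : ¬ (Gam S x y).Adj (Sum.inl a) (Sum.inl b) := fun h => h

lemma adj_lr (a : Fin 1) (v : Fin m) : (Gam S x y).Adj (Sum.inl a) (Sum.inr v) := trivial

lemma adj_rl (a : Fin 1) (v : Fin m) : (Gam S x y).Adj (Sum.inr v) (Sum.inl a) := trivial

lemma adj_rr (u v : Fin m) : (Gam S x y).Adj (Sum.inr u) (Sum.inr v) ↔
    u ≠ v ∧ ((u ∈ S ∧ v ∉ S) ∨ (u ∉ S ∧ v ∈ S) ∨ (u = x ∧ v = y) ∨ (u = y ∧ v = x)) := Iff.rfl

lemma same {u v : Fin m} (h : (Gam S x y).Adj (Sum.inr u) (Sum.inr v)) (hS : u ∈ S ↔ v ∈ S) :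
    (u = x ∧ v = y) ∨ (u = y ∧ v = x) := by
  rcases ((adj_rr u v).1 h).2 with h1 | h1 | h1 | h1
  · exact absurd (hS.1 h1.1) h1.2
  · exact absurd (hS.2 h1.2) h1.1
  · exact Or.inl h1
  · exact Or.inr h1

/-- a triangle contains the centre or both ends of the extra edge -/
lemma tri_mem {a b c : Fin 1 ⊕ Fin m} (hab : (Gam S x y).Adj a b)
    (hac : (Gam S x y).Adj a c) (hbc : (Gam S x y).Adj b c) :
    (a = Sum.inl 0 ∨ b = Sum.inl 0 ∨ c = Sum.inl 0) ∨
      ((a = Sum.inr x ∨ b = Sum.inr x ∨ c = Sum.inr x) ∧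
        (a = Sum.inr y ∨ b = Sum.inr y ∨ c = Sum.inr y)) := by
  rcases a with a | a
  · left; left; rw [Subsingleton.elim a 0]
  rcases b with b | b
  · left; right; left; rw [Subsingleton.elim b 0]
  rcases c with c | c
  · left; right; right; rw [Subsingleton.elim c 0]
  right
  simp only [Sum.inr.injEq]
  by_cases h1 : a ∈ S ↔ b ∈ S
  · rcases same hab h1 with ⟨h2, h3⟩ | ⟨h2, h3⟩
    · exact ⟨Or.inl h2, Or.inr (Or.inl h3)⟩
    · exact ⟨Or.inr (Or.inl h3), Or.inl h2⟩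
  by_cases h4 : a ∈ S ↔ c ∈ S
  · rcases same hac h4 with ⟨h2, h3⟩ | ⟨h2, h3⟩
    · exact ⟨Or.inl h2, Or.inr (Or.inr h3)⟩
    · exact ⟨Or.inr (Or.inr h3), Or.inl h2⟩
  have h5 : b ∈ S ↔ c ∈ S := by
    by_cases ha : a ∈ S <;> by_cases hb : b ∈ S <;> by_cases hc : c ∈ S <;>
      simp [ha, hb, hc] at h1 h4 ⊢
  rcases same hbc h5 with ⟨h2, h3⟩ | ⟨h2, h3⟩
  · exact ⟨Or.inr (Or.inl h2), Or.inr (Or.inr h3)⟩
  · exact ⟨Or.inr (Or.inr h3), Or.inr (Or.inl h2)⟩

/-- The triangles. -/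
lemma tri_set (hx : x ∈ S) (hy : y ∈ S) (hxy : x ≠ y) :
    {T : Finset (Fin 1 ⊕ Fin m) | (Gam S x y).IsNClique 3 T} =
      ((((S ×ˢ Sᶜ).image fun p => ({Sum.inl 0, Sum.inr p.1, Sum.inr p.2} :
          Finset (Fin 1 ⊕ Fin m))) ∪ {{Sum.inl 0, Sum.inr x, Sum.inr y}}) ∪
        (Sᶜ.image fun v => ({Sum.inr x, Sum.inr y, Sum.inr v} : Finset (Fin 1 ⊕ Fin m))) :
      Finset (Finset (Fin 1 ⊕ Fin m))) := by
  -- ordered version
  have key : ∀ u v : Fin m, (Gam S x y).Adj (Sum.inr u) (Sum.inr v) →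
      ({Sum.inl 0, Sum.inr u, Sum.inr v} : Finset (Fin 1 ⊕ Fin m)) ∈
      ((((S ×ˢ Sᶜ).image fun p => ({Sum.inl 0, Sum.inr p.1, Sum.inr p.2} :
          Finset (Fin 1 ⊕ Fin m))) ∪ {{Sum.inl 0, Sum.inr x, Sum.inr y}}) ∪
        (Sᶜ.image fun v => ({Sum.inr x, Sum.inr y, Sum.inr v} : Finset (Fin 1 ⊕ Fin m))) :
      Finset (Finset (Fin 1 ⊕ Fin m))) := by
    intro u v h
    rw [adj_rr] at h
    rw [Finset.mem_union, Finset.mem_union]
    left
    rcases h.2 with h1 | h1 | h1 | h1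
    · left
      exact Finset.mem_image.2 ⟨(u, v), by simpa using h1, rfl⟩
    · left
      refine Finset.mem_image.2 ⟨(v, u), by simpa using h1.symm, ?_⟩
      show ({Sum.inl 0, Sum.inr v, Sum.inr u} : Finset (Fin 1 ⊕ Fin m)) = _
      rw [Finset.pair_comm]
    · right
      rw [h1.1, h1.2]
      exact Finset.mem_singleton_self _
    · right
      rw [h1.1, h1.2, Finset.mem_singleton, Finset.pair_comm]
  ext T
  rw [Set.mem_ofPred_eq, Finset.mem_coe, is3Clique_iff]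
  constructor
  · rintro ⟨a, b, c, hab, hac, hbc, rfl⟩
    rcases a with a | a
    · rw [Subsingleton.elim a 0]
      rcases b with b | b
      · exact absurd hab (adj_ll _ _)
      rcases c with c | c
      · exact absurd hac (adj_ll _ _)
      exact key b c hbc
    rcases b with b | b
    · rw [Subsingleton.elim b 0]
      rcases c with c | c
      · exact absurd hbc (adj_ll _ _)
      have : ({Sum.inr a, Sum.inl 0, Sum.inr c} : Finset (Fin 1 ⊕ Fin m)) =
          {Sum.inl 0, Sum.inr a, Sum.inr c} := Finset.insert_comm _ _ _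
      rw [this]
      exact key a c hac
    rcases c with c | c
    · rw [Subsingleton.elim c 0]
      have : ({Sum.inr a, Sum.inr b, Sum.inl 0} : Finset (Fin 1 ⊕ Fin m)) =
          {Sum.inl 0, Sum.inr a, Sum.inr b} := by
        rw [Finset.pair_comm (Sum.inr b), Finset.insert_comm]
      rw [this]
      exact key a b hab
    · rw [Finset.mem_union, Finset.mem_union]
      right
      rw [Finset.mem_image]
      -- the third vertex is not in `S`
      have hout : ∀ w u v : Fin m, (Gam S x y).Adj (Sum.inr w) (Sum.inr u) →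
          (Gam S x y).Adj (Sum.inr w) (Sum.inr v) → (Gam S x y).Adj (Sum.inr u) (Sum.inr v) →
          ((u = x ∧ v = y) ∨ (u = y ∧ v = x)) → w ∈ Sᶜ := by
        intro w u v hwu hwv huv huvxy
        rw [Finset.mem_compl]
        intro hw
        rcases huvxy with ⟨rfl, rfl⟩ | ⟨rfl, rfl⟩
        · rcases same hwu ⟨fun _ => hx, fun _ => hw⟩ with ⟨h1, h2⟩ | ⟨h1, h2⟩
          · exact hxy h2
          · exact ((adj_rr _ _).1 hwv).1 h1
        · rcases same hwu ⟨fun _ => hy, fun _ => hw⟩ with ⟨h1, h2⟩ | ⟨h1, h2⟩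
          · exact ((adj_rr _ _).1 hwv).1 h1
          · exact hxy h2.symm
      by_cases h1 : a ∈ S ↔ b ∈ S
      · have h2 := same hab h1
        refine ⟨c, hout c a b hac.symm hbc.symm hab h2, ?_⟩
        rcases h2 with ⟨rfl, rfl⟩ | ⟨rfl, rfl⟩
        · rfl
        · exact Finset.insert_comm _ _ _
      by_cases h4 : a ∈ S ↔ c ∈ S
      · have h2 := same hac h4
        refine ⟨b, hout b a c hab.symm hbc hac h2, ?_⟩
        rcases h2 with ⟨rfl, rfl⟩ | ⟨rfl, rfl⟩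
        · show ({Sum.inr a, Sum.inr c, Sum.inr b} : Finset (Fin 1 ⊕ Fin m)) = _
          rw [Finset.pair_comm]
        · show ({Sum.inr c, Sum.inr a, Sum.inr b} : Finset (Fin 1 ⊕ Fin m)) = _
          rw [Finset.insert_comm, Finset.pair_comm]
      have h5 : b ∈ S ↔ c ∈ S := by
        by_cases ha : a ∈ S <;> by_cases hb : b ∈ S <;> by_cases hc : c ∈ S <;>
          simp [ha, hb, hc] at h1 h4 ⊢
      have h2 := same hbc h5
      refine ⟨a, hout a b c hab hac hbc h2, ?_⟩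
      rcases h2 with ⟨rfl, rfl⟩ | ⟨rfl, rfl⟩
      · show ({Sum.inr b, Sum.inr c, Sum.inr a} : Finset (Fin 1 ⊕ Fin m)) = _
        rw [Finset.pair_comm, Finset.insert_comm]
      · show ({Sum.inr c, Sum.inr b, Sum.inr a} : Finset (Fin 1 ⊕ Fin m)) = _
        rw [Finset.insert_comm, Finset.pair_comm, Finset.insert_comm]
  · intro h
    rw [Finset.mem_union, Finset.mem_union, Finset.mem_image, Finset.mem_image,
      Finset.mem_singleton] at h
    rcases h with (⟨p, hp, rfl⟩ | rfl) | ⟨v, hv, rfl⟩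
    · rw [Finset.mem_product, Finset.mem_compl] at hp
      refine ⟨_, _, _, adj_lr _ _, adj_lr _ _, ?_, rfl⟩
      rw [adj_rr]
      exact ⟨fun h => hp.2 (h ▸ hp.1), Or.inl hp⟩
    · refine ⟨_, _, _, adj_lr _ _, adj_lr _ _, ?_, rfl⟩
      rw [adj_rr]
      exact ⟨hxy, by tauto⟩
    · rw [Finset.mem_compl] at hv
      refine ⟨_, _, _, ?_, ?_, ?_, rfl⟩
      · rw [adj_rr]; exact ⟨hxy, by tauto⟩
      · rw [adj_rr]; exact ⟨fun h => hv (h ▸ hx), Or.inl ⟨hx, hv⟩⟩
      · rw [adj_rr]; exact ⟨fun h => hv (h ▸ hy), Or.inl ⟨hy, hv⟩⟩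

/-- The number of triangles. -/
lemma tri_card (hx : x ∈ S) (hy : y ∈ S) (hxy : x ≠ y) :
    {T : Finset (Fin 1 ⊕ Fin m) | (Gam S x y).IsNClique 3 T}.ncard =
      S.card * Sᶜ.card + 1 + Sᶜ.card := by
  rw [tri_set hx hy hxy, Set.ncard_coe_finset, Finset.card_union_of_disjoint,
    Finset.card_union_of_disjoint, Finset.card_singleton, Finset.card_image_of_injOn,
    Finset.card_image_of_injOn, Finset.card_product]
  · intro v hv w hw h
    rw [Finset.mem_coe, Finset.mem_compl] at hv hw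
    simp only at h
    have h1 : (Sum.inr v : Fin 1 ⊕ Fin m) ∈
        ({Sum.inr x, Sum.inr y, Sum.inr w} : Finset (Fin 1 ⊕ Fin m)) := by
      rw [← h]; simp
    simp only [Finset.mem_insert, Finset.mem_singleton, Sum.inr.injEq] at h1
    rcases h1 with rfl | rfl | rfl
    · exact absurd hx hv
    · exact absurd hy hv
    · rfl
  · rintro ⟨u, v⟩ hp ⟨u', v'⟩ hp' h
    rw [Finset.mem_coe, Finset.mem_product, Finset.mem_compl] at hp hp'
    simp only at h hp hp'
    have h1 : (Sum.inr u : Fin 1 ⊕ Fin m) ∈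
        ({Sum.inl 0, Sum.inr u', Sum.inr v'} : Finset (Fin 1 ⊕ Fin m)) := by
      rw [← h]; simp
    have h2 : (Sum.inr v : Fin 1 ⊕ Fin m) ∈
        ({Sum.inl 0, Sum.inr u', Sum.inr v'} : Finset (Fin 1 ⊕ Fin m)) := by
      rw [← h]; simp
    simp only [Finset.mem_insert, Finset.mem_singleton, Sum.inr.injEq, reduceCtorEq,
      false_or] at h1 h2
    rcases h1 with rfl | rfl
    · rcases h2 with rfl | rfl
      · exact absurd hp.1 hp.2
      · rfl
    · exact absurd hp.1 hp'.2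
  · rw [Finset.disjoint_singleton_right, Finset.mem_image]
    rintro ⟨⟨u, v⟩, hp, h⟩
    rw [Finset.mem_product, Finset.mem_compl] at hp
    simp only at h hp
    have h2 : (Sum.inr v : Fin 1 ⊕ Fin m) ∈
        ({Sum.inl 0, Sum.inr x, Sum.inr y} : Finset (Fin 1 ⊕ Fin m)) := by
      rw [← h]; simp
    simp only [Finset.mem_insert, Finset.mem_singleton, Sum.inr.injEq, reduceCtorEq,
      false_or] at h2
    rcases h2 with rfl | rfl
    · exact hp.2 hx
    · exact hp.2 hy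
  · rw [Finset.disjoint_left]
    intro T h1 h2
    rw [Finset.mem_image] at h2
    obtain ⟨v, _, rfl⟩ := h2
    have h3 : ∀ T' ∈ ((S ×ˢ Sᶜ).image fun p => ({Sum.inl 0, Sum.inr p.1, Sum.inr p.2} :
          Finset (Fin 1 ⊕ Fin m))) ∪ {{Sum.inl 0, Sum.inr x, Sum.inr y}},
        (Sum.inl 0 : Fin 1 ⊕ Fin m) ∈ T' := by
      intro T' hT'
      rw [Finset.mem_union, Finset.mem_image, Finset.mem_singleton] at hT'
      rcases hT' with ⟨p, _, rfl⟩ | rfl <;> simp
    have h4 := h3 _ h1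
    simp at h4

/-- Injective functions hit a given point at most once. -/
lemma hit {N : ℕ} {V : Type} (ψ : Fin N → V) (hψ : Function.Injective ψ) (c : V) :
    ∃ z : Option (Fin N), ∀ k, ψ k = c ↔ z = some k := by
  classical
  by_cases h : ∃ k, ψ k = c
  · obtain ⟨k, hk⟩ := h
    refine ⟨some k, fun l => ⟨fun hl => ?_, fun hl => ?_⟩⟩
    · rw [hψ (hk.trans hl.symm)]
    · rw [← Option.some.inj hl]; exact hk
  · push Not at h
    exact ⟨none, fun l => ⟨fun hl => absurd hl (h l), fun hl => by simp at hl⟩⟩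

/-- the triangles of the blow-up of `C_4` -/
def tC : Fin 4 → Fin 3 → Fin 8 := ![![0, 1, 4], ![1, 2, 5], ![2, 3, 6], ![3, 0, 7]]

/-- the triangles of the blow-up of `P_4` -/
def tP : Fin 4 → Fin 3 → Fin 9 := ![![0, 1, 5], ![1, 2, 6], ![2, 3, 7], ![3, 4, 8]]

lemma noC : ∀ z z1 z2 : Option (Fin 8), (∀ k, z1 = some k → z2 ≠ some k) → ∃ i : Fin 4,
    ¬ ((z = some (tC i 0) ∨ z = some (tC i 1) ∨ z = some (tC i 2)) ∨
      ((z1 = some (tC i 0) ∨ z1 = some (tC i 1) ∨ z1 = some (tC i 2)) ∧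
        (z2 = some (tC i 0) ∨ z2 = some (tC i 1) ∨ z2 = some (tC i 2)))) := by
  decide +kernel

lemma noP : ∀ z z1 z2 : Option (Fin 9), (∀ k, z1 = some k → z2 ≠ some k) → ∃ i : Fin 4,
    ¬ ((z = some (tP i 0) ∨ z = some (tP i 1) ∨ z = some (tP i 2)) ∨
      ((z1 = some (tP i 0) ∨ z1 = some (tP i 1) ∨ z1 = some (tP i 2)) ∧
        (z2 = some (tP i 0) ∨ z2 = some (tP i 1) ∨ z2 = some (tP i 2)))) := by
  decide +kernel

/-- no four triangles arranged as in the blow-ups -/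
lemma no_config (hxy : x ≠ y) {N : ℕ} (t : Fin 4 → Fin 3 → Fin N)
    (hno : ∀ z z1 z2 : Option (Fin N), (∀ k, z1 = some k → z2 ≠ some k) → ∃ i : Fin 4,
      ¬ ((z = some (t i 0) ∨ z = some (t i 1) ∨ z = some (t i 2)) ∨
        ((z1 = some (t i 0) ∨ z1 = some (t i 1) ∨ z1 = some (t i 2)) ∧
          (z2 = some (t i 0) ∨ z2 = some (t i 1) ∨ z2 = some (t i 2)))))
    (ψ : Fin N → Fin 1 ⊕ Fin m) (hψ : Function.Injective ψ)
    (hadj : ∀ i : Fin 4, (Gam S x y).Adj (ψ (t i 0)) (ψ (t i 1)) ∧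
      (Gam S x y).Adj (ψ (t i 0)) (ψ (t i 2)) ∧ (Gam S x y).Adj (ψ (t i 1)) (ψ (t i 2))) :
    False := by
  obtain ⟨z, hz⟩ := hit ψ hψ (Sum.inl 0)
  obtain ⟨z1, hz1⟩ := hit ψ hψ (Sum.inr x)
  obtain ⟨z2, hz2⟩ := hit ψ hψ (Sum.inr y)
  obtain ⟨i, hi⟩ := hno z z1 z2 (fun k h1 h2 => by
    rw [← hz1] at h1
    rw [← hz2] at h2
    exact hxy (Sum.inr_injective (h1.symm.trans h2)))
  apply hi
  obtain ⟨h1, h2, h3⟩ := hadj i
  simp only [← hz, ← hz1, ← hz2]
  exact tri_mem h1 h2 h3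

end Pool.Agent.R41.TT
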